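import Pool.Agent.Lib.MP_4d8715_gt.KR.E.ExtK
import Pool.Agent.Lib.MP_4d8715_gt.KR.N.Real

/-!
# Pairs, standard sets, bounded quantifiers (module E-BASE)

`Std d D`: `d` is the set of the `D i`, which are pairwise different.
-/

universe u

namespace Pool.Agent.Lib.MP_4d8715_gt.KR

namespace BSet

variable {B : Type u} [CompleteBooleanAlgebra B]

/-- the unordered pair -/
def upair (x y : BSet B) : BSet B := mk (ULift Bool) (fun b => cond b.down x y) (fun _ => ⊤)

/-- the ordered pair -/
def opair (x y : BSet B) : BSet B := upair (upair x x) (upair x y)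

theorem bmem_upair (z x y : BSet B) : bmem z (upair x y) = beq z x ⊔ beq z y := by
  unfold upair
  rw [basic_bmem_mk]
  refine le_antisymm (iSup_le ?_) (sup_le ?_ ?_)
  · rintro ⟨b⟩
    cases b
    · exact inf_le_right.trans le_sup_right
    · exact inf_le_right.trans le_sup_left
  · exact le_iSup_of_le ⟨true⟩ (le_inf le_top le_rfl)
  · exact le_iSup_of_le ⟨false⟩ (le_inf le_top le_rfl)

theorem beq_upair (a b a' b' : BSet B) :
    beq (upair a b) (upair a' b') = (beq a a' ⊓ beq b b') ⊔ (beq a b' ⊓ beq b a') := by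
  refine eq_iff_ev.mpr (Filter.Eventually.of_forall fun U => ?_)
  rw [ult_beq]
  simp only [bmem_upair, Ult.sup', Ult.inf']
  have hs : ∀ {x y : BSet B}, U (beq x y) → U (beq y x) := fun h => ev_beq_symm h
  have ht : ∀ {x y z : BSet B}, U (beq x y) → U (beq y z) → U (beq x z) :=
    fun h h' => ev_beq_trans h h'
  constructor
  · intro h
    have h1 := (h a).1 (Or.inl (ev_beq_refl a U))
    have h2 := (h b).1 (Or.inr (ev_beq_refl b U))
    have h3 := (h a').2 (Or.inl (ev_beq_refl a' U))
    have h4 := (h b').2 (Or.inr (ev_beq_refl b' U))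
    rcases h1 with h1 | h1
    · rcases h2 with h2 | h2
      · rcases h4 with h4 | h4
        · exact Or.inr ⟨hs h4, h2⟩
        · exact Or.inl ⟨h1, hs h4⟩
      · exact Or.inl ⟨h1, h2⟩
    · rcases h2 with h2 | h2
      · exact Or.inr ⟨h1, h2⟩
      · rcases h3 with h3 | h3
        · exact Or.inl ⟨hs h3, h2⟩
        · exact Or.inr ⟨h1, hs h3⟩
  · rintro (⟨h1, h2⟩ | ⟨h1, h2⟩) z
    · constructor
      · rintro (h | h)
        · exact Or.inl (ht h h1)
        · exact Or.inr (ht h h2)
      · rintro (h | h)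
        · exact Or.inl (ht h (hs h1))
        · exact Or.inr (ht h (hs h2))
    · constructor
      · rintro (h | h)
        · exact Or.inr (ht h h1)
        · exact Or.inl (ht h h2)
      · rintro (h | h)
        · exact Or.inr (ht h (hs h2))
        · exact Or.inl (ht h (hs h1))

theorem beq_opair (a b a' b' : BSet B) :
    beq (opair a b) (opair a' b') = beq a a' ⊓ beq b b' := by
  unfold opair
  rw [beq_upair, beq_upair, beq_upair, beq_upair, beq_upair]
  refine eq_iff_ev.mpr (Filter.Eventually.of_forall fun U => ?_)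
  simp only [Ult.sup', Ult.inf']
  have hs : ∀ {x y : BSet B}, U (beq x y) → U (beq y x) := fun h => ev_beq_symm h
  have ht : ∀ {x y z : BSet B}, U (beq x y) → U (beq y z) → U (beq x z) :=
    fun h h' => ev_beq_trans h h'
  have key : U (beq a a') → U (beq a b') → U (beq b a') → U (beq b b') :=
    fun h1 h2 h3 => ht h3 (ht (hs h1) h2)
  tauto

theorem ext_opair_left (b c : BSet B) : Ext (fun a => beq c (opair a b)) := by
  intro x y
  refine le_iff_ev.mpr (Filter.Eventually.of_forall fun U hU => ?_)
  rw [Ult.inf'] at hU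
  refine ev_beq_trans hU.2 ?_
  rw [beq_opair, Ult.inf']
  exact ⟨hU.1, ev_beq_refl b U⟩

theorem ext_opair_right (a c : BSet B) : Ext (fun b => beq c (opair a b)) := by
  intro x y
  refine le_iff_ev.mpr (Filter.Eventually.of_forall fun U hU => ?_)
  rw [Ult.inf'] at hU
  refine ev_beq_trans hU.2 ?_
  rw [beq_opair, Ult.inf']
  exact ⟨ev_beq_refl a U, hU.1⟩

theorem iInf_beq {ψ : BSet B → B} (hψ : Ext ψ) (a : BSet B) : (⨅ x, beq x a ⇨ ψ x) = ψ a := by
  refine le_antisymm ((iInf_le _ a).trans ?_) (le_iInf fun x => ?_)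
  · rw [beq_refl, top_himp]
  · rw [le_himp_iff, beq_symm x a, inf_comm]
    exact hψ a x

theorem iSup_beq {ψ : BSet B → B} (hψ : Ext ψ) (a : BSet B) : (⨆ x, beq x a ⊓ ψ x) = ψ a := by
  refine le_antisymm (iSup_le fun x => hψ x a) (le_iSup_of_le a ?_)
  rw [beq_refl, top_inf_eq]

/-- `d` is the set of the `D i`, which are pairwise different -/
structure Std {ι : Type} (d : BSet B) (D : ι → BSet B) : Prop where
  mem : ∀ x, bmem x d = ⨆ i, beq x (D i)
  inj : ∀ i j, beq (D i) (D j) = tv B (i = j)

theorem std_nat (n : ℕ) : Std (nat n : BSet B) (fun i : Fin n => nat i) := by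
  constructor
  · intro x
    induction n with
    | zero =>
      show bmem x (empty : BSet B) = _
      rw [bmem_empty]
      exact (iSup_of_empty _).symm
    | succ n ih =>
      show bmem x (succ (nat n)) = _
      rw [bmem_succ, ih]
      refine le_antisymm (sup_le (iSup_le fun i => ?_) ?_) (iSup_le fun i => ?_)
      · exact le_iSup_of_le i.castSucc le_rfl
      · exact le_iSup_of_le (Fin.last n) le_rfl
      · refine Fin.lastCases ?_ (fun j => ?_) i
        · exact le_sup_of_le_right le_rfl
        · exact le_sup_of_le_left (le_iSup_of_le j le_rfl)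
  · intro i j
    rw [n_beq_nat, Fin.ext_iff]

theorem std_omega : Std (omega : BSet B) (nat : ℕ → BSet B) := by
  constructor
  · intro x
    unfold omega
    rw [basic_bmem_mk]
    refine le_antisymm (iSup_le fun j => ?_) (iSup_le fun i => ?_)
    · exact le_iSup_of_le j.down inf_le_right
    · exact le_iSup_of_le (ULift.up i) (le_inf le_top le_rfl)
  · intro i j
    exact n_beq_nat i j

theorem std_ratSet : Std (ratSet B) (rat : ℚ → BSet B) := by
  constructor
  · intro x
    unfold ratSet
    rw [basic_bmem_mk]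
    refine le_antisymm (iSup_le fun j => ?_) (iSup_le fun i => ?_)
    · exact le_iSup_of_le j.down inf_le_right
    · exact le_iSup_of_le (ULift.up i) (le_inf le_top le_rfl)
  · intro i j
    exact n_beq_rat i j

theorem Std.mem_self {ι : Type} {d : BSet B} {D : ι → BSet B} (h : Std d D) (i : ι) :
    bmem (D i) d = ⊤ := by
  rw [h.mem]
  refine top_unique (le_iSup_of_le i ?_)
  rw [beq_refl]

theorem Std.iInf {ι : Type} {d : BSet B} {D : ι → BSet B} (h : Std d D) {ψ : BSet B → B}
    (hψ : Ext ψ) : (⨅ x, bmem x d ⇨ ψ x) = ⨅ i, ψ (D i) := by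
  refine le_antisymm (le_iInf fun i => (_root_.iInf_le _ (D i)).trans ?_) (le_iInf fun x => ?_)
  · rw [h.mem_self, top_himp]
  · rw [le_himp_iff, h.mem, inf_iSup_eq]
    refine iSup_le fun i => ?_
    refine (inf_le_inf_right _ (_root_.iInf_le _ i)).trans ?_
    rw [beq_symm x, inf_comm]
    exact hψ (D i) x

theorem Std.iSup {ι : Type} {d : BSet B} {D : ι → BSet B} (h : Std d D) {ψ : BSet B → B}
    (hψ : Ext ψ) : (⨆ x, bmem x d ⊓ ψ x) = ⨆ i, ψ (D i) := by
  refine le_antisymm (iSup_le fun x => ?_) (iSup_le fun i => ?_)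
  · rw [h.mem, iSup_inf_eq]
    exact iSup_le fun i => le_iSup_of_le i (hψ x (D i))
  · refine le_iSup_of_le (D i) (le_inf ?_ le_rfl)
    rw [h.mem_self]
    exact le_top

end BSet

namespace Kb

open BSet

variable {B : Type u} [CompleteBooleanAlgebra B]

theorem Sub_eq (x y : BSet B) : Sub x y = bsub x y := rfl

private theorem e2_eq {a b : B} (h : ∀ U : Ult B, U a ↔ U b) : a = b :=
  eq_iff_ev.mpr (Filter.Eventually.of_forall h)

private theorem e2_ext {ψ : BSet B → B}
    (h : ∀ x y, ∀ U : Ult B, U (beq x y) → U (ψ x) → U (ψ y)) : Ext ψ := by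
  intro x y
  refine le_iff_ev.mpr (Filter.Eventually.of_forall fun U hU => ?_)
  rw [Ult.inf'] at hU
  exact h x y U hU.1 hU.2

theorem UPair_eq (p a b : BSet B) : UPair p a b = beq p (upair a b) := by
  rw [BSet.beq_ext]
  simp only [bmem_upair]
  rfl

private theorem e2_ext_upair_right (p u : BSet B) : Ext (fun v => beq p (upair u v)) := by
  refine e2_ext fun x y U hU hx => ?_
  refine ev_beq_trans hx ?_
  rw [beq_upair, Ult.sup', Ult.inf']
  exact Or.inl ⟨ev_beq_refl _ _, hU⟩

private theorem e2_ext_upair_left (p v : BSet B) : Ext (fun u => beq p (upair u v)) := by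
  refine e2_ext fun x y U hU hx => ?_
  refine ev_beq_trans hx ?_
  rw [beq_upair, Ult.sup', Ult.inf']
  exact Or.inl ⟨hU, ev_beq_refl _ _⟩

theorem Pair_eq (p a b : BSet B) : Pair p a b = beq p (opair a b) := by
  have h1 : Pair p a b = ⨆ u, beq u (upair a a) ⊓ ⨆ v, beq v (upair a b) ⊓ beq p (upair u v) := by
    unfold Pair
    simp only [UPair_eq, inf_iSup_eq]
  rw [h1]
  have h2 : ∀ u : BSet B, (⨆ v, beq v (upair a b) ⊓ beq p (upair u v)) =
      beq p (upair u (upair a b)) := fun u => iSup_beq (e2_ext_upair_right p u) _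
  simp only [h2]
  exact iSup_beq (e2_ext_upair_left p (upair a b)) _

theorem App_eq (f a b : BSet B) : App f a b = bmem (opair a b) f := by
  unfold App
  simp only [Pair_eq]
  exact iSup_beq (ext_bmem_left f) _

theorem App2_eq (f a b c : BSet B) : App2 f a b c = bmem (opair (opair a b) c) f := by
  unfold App2
  simp only [Pair_eq]
  rw [iSup_beq (ext_App_a f c), App_eq]

theorem Emp_eq (x : BSet B) : Emp x = beq x empty := by
  rw [BSet.beq_ext]
  unfold Emp
  simp only [bmem_empty, himp_bot, bot_himp, inf_top_eq]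

theorem Suc_eq (y x : BSet B) : Suc y x = beq y (succ x) := by
  rw [BSet.beq_ext]
  simp only [bmem_succ]
  rfl

theorem Emp_nat (n : ℕ) : Emp (nat n : BSet B) = tv B (n = 0) := by
  rw [Emp_eq]
  exact n_beq_nat n 0

/-- the set of the natural numbers -/
theorem Omega_omega : Omega (omega : BSet B) = ⊤ := by
  have hE : Emp (nat 0 : BSet B) = ⊤ := by
    rw [Emp_eq]
    exact beq_refl _
  have hI : Ind (omega : BSet B) = ⊤ := by
    unfold Ind
    have h1 : (⨅ o : BSet B, Emp o ⇨ bmem o omega) = ⊤ := by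
      simp only [Emp_eq]
      rw [iInf_beq (ext_bmem_left omega)]
      exact bmem_nat_omega 0
    have h2 : (⨅ x : BSet B, ⨅ y, bmem x omega ⇨ Suc y x ⇨ bmem y omega) = ⊤ := by
      have h3 : ∀ x : BSet B, (⨅ y, bmem x omega ⇨ Suc y x ⇨ bmem y omega) =
          bmem x omega ⇨ bmem (succ x) omega := by
        intro x
        simp only [Suc_eq]
        rw [← himp_iInf_eq, iInf_beq (ext_bmem_left omega)]
      simp only [h3]
      have hext : Ext (fun x : BSet B => bmem (succ x) omega) := by
        refine e2_ext fun x y U hU hx => ?_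
        refine ev_bmem_left ?_ hx
        rw [ult_beq]
        intro z
        rw [bmem_succ, bmem_succ, Ult.sup', Ult.sup']
        constructor
        · rintro (h | h)
          · exact Or.inl (ev_bmem_right hU h)
          · exact Or.inr (ev_beq_trans h hU)
        · rintro (h | h)
          · exact Or.inl (ev_bmem_right (ev_beq_symm hU) h)
          · exact Or.inr (ev_beq_trans h (ev_beq_symm hU))
      rw [std_omega.iInf hext]
      exact iInf_eq_top.mpr fun n => bmem_nat_omega (n + 1)
    rw [h1, h2, inf_top_eq]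
  unfold Omega
  rw [hI, top_inf_eq, iInf_eq_top]
  intro w'
  rw [himp_eq_top_iff, Sub_eq]
  unfold bsub
  rw [std_omega.iInf (ext_bmem_left w')]
  refine le_iInf fun n => ?_
  induction n with
  | zero =>
    have h1 : Ind w' ≤ Emp (nat 0 : BSet B) ⇨ bmem (nat 0) w' :=
      inf_le_left.trans (iInf_le _ _)
    rw [hE, top_himp] at h1
    exact h1
  | succ n ih =>
    have h1 : Ind w' ≤ bmem (nat n) w' ⇨ Suc (nat (n + 1)) (nat n) ⇨ bmem (nat (n + 1)) w' :=
      inf_le_right.trans ((iInf_le _ _).trans (iInf_le _ _))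
    have h2 : Suc (nat (n + 1) : BSet B) (nat n) = ⊤ := by
      rw [Suc_eq]
      exact beq_refl _
    rw [h2, top_himp, le_himp_iff] at h1
    exact (le_inf le_rfl ih).trans h1

end Kb

end Pool.Agent.Lib.MP_4d8715_gt.KR
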