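import Pool.Agent.Lib.MP_4d8715_gt.KR.E.Stmt
import Pool.Agent.Lib.MP_4d8715_gt.KR.Z.Form
import Pool.Agent.Lib.MP_4d8715_gt.KR.R.Defs

/-!
# The formula of the statement, its truth in a structure and its Boolean value

For every definition `P` of `E/Stmt.lean` there are the formula `fP` and its Boolean reading `Kb.P`.
-/

universe u

namespace Pool.Agent.Lib.MP_4d8715_gt.KR

/-! ### Boolean readings -/

namespace Kb

open BSet

variable {B : Type u} [CompleteBooleanAlgebra B]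

/-- `x ⊆ y` -/
def Sub (x y : BSet B) : B :=
  ⨅ z, bmem z x ⇨ bmem z y

/-- `p = {a, b}` -/
def UPair (p a b : BSet B) : B :=
  ⨅ z, iffB (bmem z p) (beq z a ⊔ beq z b)

/-- `p = (a, b)` -/
def Pair (p a b : BSet B) : B :=
  ⨆ u, ⨆ v, UPair u a a ⊓ (UPair v a b ⊓ UPair p u v)

/-- `(a, b) ∈ f` -/
def App (f a b : BSet B) : B :=
  ⨆ p, Pair p a b ⊓ bmem p f

/-- `f` is a function with domain `d` -/
def FunOn (f d : BSet B) : B :=
  (⨅ p, bmem p f ⇨ (⨆ a, ⨆ b, bmem a d ⊓ Pair p a b)) ⊓ (⨅ a, bmem a d ⇨ (⨆ b, ⨅ c, iffB (App f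
    a c) (beq c b)))

/-- `f` is a function from `d` to `r` -/
def FunTo (f d r : BSet B) : B :=
  FunOn f d ⊓ (⨅ a, ⨅ b, App f a b ⇨ bmem b r)

/-- `x` is empty -/
def Emp (x : BSet B) : B :=
  ⨅ z, (bmem z x)ᶜ

/-- `y = x ∪ {x}` -/
def Suc (y x : BSet B) : B :=
  ⨅ z, iffB (bmem z y) (bmem z x ⊔ beq z x)

/-- `w` is inductive -/
def Ind (w : BSet B) : B :=
  (⨅ o, Emp o ⇨ bmem o w) ⊓ (⨅ x, ⨅ y, bmem x w ⇨ Suc y x ⇨ bmem y w)

/-- `w` is the set of the natural numbers -/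
def Omega (w : BSet B) : B :=
  Ind w ⊓ (⨅ w', Ind w' ⇨ Sub w w')

/-- `A` is finite -/
def Finite (w A : BSet B) : B :=
  ⨆ n, bmem n w ⊓ (⨆ f, FunOn f n ⊓ (⨅ z, iffB (bmem z A) (⨆ i, bmem i n ⊓ App f i z)))

/-- `((a, b), c) ∈ f` -/
def App2 (f a b c : BSet B) : B :=
  ⨆ p, Pair p a b ⊓ App f p c

/-- binary operation -/
def BinOp (Q f : BSet B) : B :=
  ⨅ a, ⨅ b, bmem a Q ⇨ bmem b Q ⇨ (⨆ c, bmem c Q ⊓ (⨅ d, iffB (App2 f a b d) (beq d c)))

/-- neutral element -/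
def Neutral (Q f o : BSet B) : B :=
  bmem o Q ⊓ (⨅ a, bmem a Q ⇨ App2 f a o a)

/-- associative and commutative -/
def AssocComm (Q f : BSet B) : B :=
  (⨅ a, ⨅ b, ⨅ c, bmem a Q ⇨ bmem b Q ⇨ bmem c Q ⇨ (⨅ d, ⨅ e, ⨅ g, App2 f a b d ⇨ App2 f b c e
    ⇨ App2 f d c g ⇨ App2 f a e g)) ⊓ (⨅ a, ⨅ b, ⨅ c, bmem a Q ⇨ bmem b Q ⇨ App2 f a b c ⇨ App2
    f b a c)

/-- ordered field -/
def OrdField (Q add mul lt o i : BSet B) : B :=
  BinOp Q add ⊓ (BinOp Q mul ⊓ (AssocComm Q add ⊓ (AssocComm Q mul ⊓ (Neutral Q add o ⊓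
    (Neutral Q mul i ⊓ ((beq o i)ᶜ ⊓ ((⨅ a, bmem a Q ⇨ (⨆ b, bmem b Q ⊓ App2 add a b o)) ⊓ ((⨅
    a, bmem a Q ⇨ (beq a o)ᶜ ⇨ (⨆ b, bmem b Q ⊓ App2 mul a b i)) ⊓ ((⨅ a, ⨅ b, ⨅ c, bmem a Q ⇨
    bmem b Q ⇨ bmem c Q ⇨ (⨅ d, ⨅ e, ⨅ g, ⨅ h, App2 add b c d ⇨ App2 mul a d e ⇨ App2 mul a b g
    ⇨ App2 mul a c h ⇨ App2 add g h e)) ⊓ ((⨅ a, bmem a Q ⇨ (App lt a a)ᶜ) ⊓ ((⨅ a, ⨅ b, ⨅ c,
    bmem a Q ⇨ bmem b Q ⇨ bmem c Q ⇨ App lt a b ⇨ App lt b c ⇨ App lt a c) ⊓ ((⨅ a, ⨅ b, bmem a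
    Q ⇨ bmem b Q ⇨ (App lt a b ⊔ (beq a b ⊔ App lt b a))) ⊓ ((⨅ a, ⨅ b, ⨅ c, bmem a Q ⇨ bmem b
    Q ⇨ bmem c Q ⇨ App lt a b ⇨ (⨅ d, ⨅ e, App2 add a c d ⇨ App2 add b c e ⇨ App lt d e)) ⊓ (⨅
    a, ⨅ b, bmem a Q ⇨ bmem b Q ⇨ App lt o a ⇨ App lt o b ⇨ (⨅ c, App2 mul a b c ⇨ App lt o
    c)))))))))))))))

/-- subfield -/
def Subfield (Q add mul o i K : BSet B) : B :=
  Sub K Q ⊓ (bmem o K ⊓ (bmem i K ⊓ ((⨅ a, ⨅ b, ⨅ c, bmem a K ⇨ bmem b K ⇨ App2 add a b c ⇨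
    bmem c K) ⊓ ((⨅ a, ⨅ b, bmem a K ⇨ bmem b Q ⇨ App2 add a b o ⇨ bmem b K) ⊓ ((⨅ a, ⨅ b, ⨅ c,
    bmem a K ⇨ bmem b K ⇨ App2 mul a b c ⇨ bmem c K) ⊓ (⨅ a, ⨅ b, bmem a K ⇨ bmem b Q ⇨ App2
    mul a b i ⇨ bmem b K))))))

/-- the field of the rational numbers -/
def Rationals (Q add mul lt o i : BSet B) : B :=
  OrdField Q add mul lt o i ⊓ (⨅ K, Subfield Q add mul o i K ⇨ Sub Q K)

/-- real number -/
def Real (Q lt x : BSet B) : B :=
  Sub x Q ⊓ ((⨆ q, bmem q x) ⊓ ((⨆ q, bmem q Q ⊓ (bmem q x)ᶜ) ⊓ ((⨅ q, ⨅ r, bmem q x ⇨ bmem r Q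
    ⇨ App lt r q ⇨ bmem r x) ⊓ (⨅ q, bmem q x ⇨ (⨆ r, bmem r x ⊓ App lt q r)))))

/-- set of real numbers -/
def SetOfReals (Q lt X : BSet B) : B :=
  ⨅ x, bmem x X ⇨ Real Q lt x

/-- `x < b` -/
def LtRat (Q lt x b : BSet B) : B :=
  ⨆ c, bmem c Q ⊓ (App lt c b ⊓ (bmem c x)ᶜ)

/-- `a < x < b` -/
def InI (Q lt x a b : BSet B) : B :=
  bmem a x ⊓ LtRat Q lt x b

/-- relatively open -/
def OpenIn (Q lt V X : BSet B) : B :=
  Sub V X ⊓ (⨅ x, bmem x V ⇨ (⨆ a, ⨆ b, bmem a Q ⊓ (bmem b Q ⊓ (InI Q lt x a b ⊓ (⨅ y, bmem y X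
    ⇨ InI Q lt y a b ⇨ bmem y V)))))

/-- open cover -/
def Cover (Q lt U X : BSet B) : B :=
  (⨅ V, bmem V U ⇨ OpenIn Q lt V X) ⊓ ((⨅ x, bmem x X ⇨ (⨆ V, bmem V U ⊓ bmem x V)) ⊓ (bmem X
    U)ᶜ)

/-- `ω`-cover -/
def OmegaCover (w Q lt U X : BSet B) : B :=
  Cover Q lt U X ⊓ (⨅ F, Sub F X ⇨ Finite w F ⇨ (⨆ V, bmem V U ⊓ Sub F V))

/-- `γ`-cover -/
def GammaCover (w Q lt U X : BSet B) : B :=
  Cover Q lt U X ⊓ ((Finite w U)ᶜ ⊓ (⨅ x, bmem x X ⇨ (⨅ A, (⨅ V, iffB (bmem V A) (bmem V U ⊓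
    (bmem x V)ᶜ)) ⇨ Finite w A)))

/-- `S₁(Ω, Γ)` -/
def S1 (w Q lt X : BSet B) : B :=
  ⨅ f, FunOn f w ⇨ (⨅ n, ⨅ U, bmem n w ⇨ App f n U ⇨ OmegaCover w Q lt U X) ⇨ (⨆ g, FunOn g w ⊓
    ((⨅ n, ⨅ U, ⨅ V, bmem n w ⇨ App f n U ⇨ App g n V ⇨ bmem V U) ⊓ (⨅ G, (⨅ V, iffB (bmem V G)
    (⨆ n, bmem n w ⊓ App g n V)) ⇨ GammaCover w Q lt G X)))

/-- uncountable -/
def Uncountable (w X : BSet B) : B :=
  ⨅ f, FunOn f w ⇨ (⨆ x, bmem x X ⊓ (⨅ n, bmem n w ⇨ (App f n x)ᶜ))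

/-- `t = r ^ j` -/
def Pow (w Q mul i r j t : BSet B) : B :=
  ⨆ h, FunTo h w Q ⊓ ((⨅ z, Emp z ⇨ App h z i) ⊓ ((⨅ n, ⨅ m, ⨅ q, ⨅ q', bmem n w ⇨ Suc m n ⇨
    App h n q ⇨ App h m q' ⇨ App2 mul q r q') ⊓ App h j t))

/-- sequence of positive rationals with sum at most `ε` -/
def SumLt (w Q add lt o ε e s : BSet B) : B :=
  FunTo e w Q ⊓ (FunTo s w Q ⊓ ((⨅ n, ⨅ r, bmem n w ⇨ App e n r ⇨ App lt o r) ⊓ ((⨅ z, Emp z ⇨
    App s z o) ⊓ ((⨅ n, ⨅ m, ⨅ q, ⨅ r, ⨅ q', bmem n w ⇨ Suc m n ⇨ App s n q ⇨ App e n r ⇨ App s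
    m q' ⇨ App2 add q r q') ⊓ (⨅ n, ⨅ q, bmem n w ⇨ App s n q ⇨ App lt q ε)))))

/-- `q < x ≤ q + r ^ j` -/
def InJ (w Q add mul i x q r j : BSet B) : B :=
  ⨆ t, ⨆ b, bmem t Q ⊓ (bmem b Q ⊓ (Pow w Q mul i r j t ⊓ (App2 add q t b ⊓ (bmem q x ⊓ (bmem b
    x)ᶜ))))

/-- cover by intervals -/
def Null1 (w Q add mul lt o i j ε Y : BSet B) : B :=
  ⨆ e, ⨆ s, ⨆ a, SumLt w Q add lt o ε e s ⊓ (FunTo a w Q ⊓ (⨅ y, bmem y Y ⇨ (⨆ n, ⨆ q, ⨆ r,
    bmem n w ⊓ (App a n q ⊓ (App e n r ⊓ InJ w Q add mul i y q r j)))))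

/-- cover by squares -/
def Null2 (w Q add mul lt o i j ε X Y : BSet B) : B :=
  ⨆ e, ⨆ s, ⨆ a, ⨆ b, SumLt w Q add lt o ε e s ⊓ (FunTo a w Q ⊓ (FunTo b w Q ⊓ (⨅ x, ⨅ y, bmem
    x X ⇨ bmem y Y ⇨ (⨆ n, ⨆ q, ⨆ q', ⨆ r, bmem n w ⊓ (App a n q ⊓ (App b n q' ⊓ (App e n r ⊓
    (InJ w Q add mul i x q r j ⊓ InJ w Q add mul i y q' r j))))))))

/-- dimension zero -/
def Dim1 (w Q add mul lt o i Y : BSet B) : B :=
  ⨅ j, ⨅ ε, bmem j w ⇨ (Emp j)ᶜ ⇨ bmem ε Q ⇨ App lt o ε ⇨ Null1 w Q add mul lt o i j ε Y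

/-- dimension zero of the product -/
def Dim2 (w Q add mul lt o i X Y : BSet B) : B :=
  ⨅ j, ⨅ ε, bmem j w ⇨ (Emp j)ᶜ ⇨ bmem ε Q ⇨ App lt o ε ⇨ Null2 w Q add mul lt o i j ε X Y

/-- statement (i) -/
def StatementI (w Q lt : BSet B) : B :=
  ⨆ X, SetOfReals Q lt X ⊓ (Uncountable w X ⊓ S1 w Q lt X)

/-- statement (ii) -/
def StatementII (w Q add mul lt o i : BSet B) : B :=
  ⨅ X, ⨅ Y, SetOfReals Q lt X ⇨ SetOfReals Q lt Y ⇨ S1 w Q lt X ⇨ Dim1 w Q add mul lt o i Y ⇨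
    Dim2 w Q add mul lt o i X Y

/-- (i) and (ii) -/
def Krawczyk (B : Type u) [CompleteBooleanAlgebra B] : B :=
  ⨆ w : BSet B, ⨆ Q, ⨆ add, ⨆ mul, ⨆ lt, ⨆ o, ⨆ i, Omega w ⊓ (Rationals Q add mul lt o i ⊓
    (StatementI w Q lt ⊓ StatementII w Q add mul lt o i))

end Kb

/-! ### The formulas -/

namespace Fml


/-- `x ⊆ y` -/
def fSub {n : ℕ} (x y : Fin n) : Fml n :=
  all (imp (mem 0 x.succ) (mem 0 y.succ))

/-- `p = {a, b}` -/
def fUPair {n : ℕ} (p a b : Fin n) : Fml n :=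
  all (iff (mem 0 p.succ) (or (eq 0 a.succ) (eq 0 b.succ)))

/-- `p = (a, b)` -/
def fPair {n : ℕ} (p a b : Fin n) : Fml n :=
  ex (ex (and (fUPair (0 : Fin _).succ a.succ.succ a.succ.succ) (and (fUPair 0 a.succ.succ
    b.succ.succ) (fUPair p.succ.succ (0 : Fin _).succ 0))))

/-- `(a, b) ∈ f` -/
def fApp {n : ℕ} (f a b : Fin n) : Fml n :=
  ex (and (fPair 0 a.succ b.succ) (mem 0 f.succ))

/-- `f` is a function with domain `d` -/
def fFunOn {n : ℕ} (f d : Fin n) : Fml n :=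
  and (all (imp (mem 0 f.succ) (ex (ex (and (mem (0 : Fin _).succ d.succ.succ.succ) (fPair (0 :
    Fin _).succ.succ (0 : Fin _).succ 0)))))) (all (imp (mem 0 d.succ) (ex (all (iff (fApp
    f.succ.succ.succ (0 : Fin _).succ.succ 0) (eq 0 (0 : Fin _).succ))))))

/-- `f` is a function from `d` to `r` -/
def fFunTo {n : ℕ} (f d r : Fin n) : Fml n :=
  and (fFunOn f d) (all (all (imp (fApp f.succ.succ (0 : Fin _).succ 0) (mem 0 r.succ.succ))))

/-- `x` is empty -/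
def fEmp {n : ℕ} (x : Fin n) : Fml n :=
  all (neg (mem 0 x.succ))

/-- `y = x ∪ {x}` -/
def fSuc {n : ℕ} (y x : Fin n) : Fml n :=
  all (iff (mem 0 y.succ) (or (mem 0 x.succ) (eq 0 x.succ)))

/-- `w` is inductive -/
def fInd {n : ℕ} (w : Fin n) : Fml n :=
  and (all (imp (fEmp 0) (mem 0 w.succ))) (all (all (imp (mem (0 : Fin _).succ w.succ.succ)
    (imp (fSuc 0 (0 : Fin _).succ) (mem 0 w.succ.succ)))))

/-- `w` is the set of the natural numbers -/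
def fOmega {n : ℕ} (w : Fin n) : Fml n :=
  and (fInd w) (all (imp (fInd 0) (fSub w.succ 0)))

/-- `A` is finite -/
def fFinite {n : ℕ} (w A : Fin n) : Fml n :=
  ex (and (mem 0 w.succ) (ex (and (fFunOn 0 (0 : Fin _).succ) (all (iff (mem 0
    A.succ.succ.succ) (ex (and (mem 0 (0 : Fin _).succ.succ.succ) (fApp (0 : Fin _).succ.succ 0
    (0 : Fin _).succ))))))))

/-- `((a, b), c) ∈ f` -/
def fApp2 {n : ℕ} (f a b c : Fin n) : Fml n :=
  ex (and (fPair 0 a.succ b.succ) (fApp f.succ 0 c.succ))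

/-- binary operation -/
def fBinOp {n : ℕ} (Q f : Fin n) : Fml n :=
  all (all (imp (mem (0 : Fin _).succ Q.succ.succ) (imp (mem 0 Q.succ.succ) (ex (and (mem 0
    Q.succ.succ.succ) (all (iff (fApp2 f.succ.succ.succ.succ (0 : Fin _).succ.succ.succ (0 :
    Fin _).succ.succ 0) (eq 0 (0 : Fin _).succ))))))))

/-- neutral element -/
def fNeutral {n : ℕ} (Q f o : Fin n) : Fml n :=
  and (mem o Q) (all (imp (mem 0 Q.succ) (fApp2 f.succ 0 o.succ 0)))

/-- associative and commutative -/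
def fAssocComm {n : ℕ} (Q f : Fin n) : Fml n :=
  and (all (all (all (imp (mem (0 : Fin _).succ.succ Q.succ.succ.succ) (imp (mem (0 : Fin
    _).succ Q.succ.succ.succ) (imp (mem 0 Q.succ.succ.succ) (all (all (all (imp (fApp2
    f.succ.succ.succ.succ.succ.succ (0 : Fin _).succ.succ.succ.succ.succ (0 : Fin
    _).succ.succ.succ.succ (0 : Fin _).succ.succ) (imp (fApp2 f.succ.succ.succ.succ.succ.succ
    (0 : Fin _).succ.succ.succ.succ (0 : Fin _).succ.succ.succ (0 : Fin _).succ) (imp (fApp2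
    f.succ.succ.succ.succ.succ.succ (0 : Fin _).succ.succ (0 : Fin _).succ.succ.succ 0) (fApp2
    f.succ.succ.succ.succ.succ.succ (0 : Fin _).succ.succ.succ.succ.succ (0 : Fin _).succ
    0))))))))))))) (all (all (all (imp (mem (0 : Fin _).succ.succ Q.succ.succ.succ) (imp (mem
    (0 : Fin _).succ Q.succ.succ.succ) (imp (fApp2 f.succ.succ.succ (0 : Fin _).succ.succ (0 :
    Fin _).succ 0) (fApp2 f.succ.succ.succ (0 : Fin _).succ (0 : Fin _).succ.succ 0)))))))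

/-- ordered field -/
def fOrdField {n : ℕ} (Q add mul lt o i : Fin n) : Fml n :=
  and (fBinOp Q add) (and (fBinOp Q mul) (and (fAssocComm Q add) (and (fAssocComm Q mul) (and
    (fNeutral Q add o) (and (fNeutral Q mul i) (and (neg (eq o i)) (and (all (imp (mem 0
    Q.succ) (ex (and (mem 0 Q.succ.succ) (fApp2 add.succ.succ (0 : Fin _).succ 0
    o.succ.succ))))) (and (all (imp (mem 0 Q.succ) (imp (neg (eq 0 o.succ)) (ex (and (mem 0
    Q.succ.succ) (fApp2 mul.succ.succ (0 : Fin _).succ 0 i.succ.succ)))))) (and (all (all (all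
    (imp (mem (0 : Fin _).succ.succ Q.succ.succ.succ) (imp (mem (0 : Fin _).succ
    Q.succ.succ.succ) (imp (mem 0 Q.succ.succ.succ) (all (all (all (all (imp (fApp2
    add.succ.succ.succ.succ.succ.succ.succ (0 : Fin _).succ.succ.succ.succ.succ (0 : Fin
    _).succ.succ.succ.succ (0 : Fin _).succ.succ.succ) (imp (fApp2
    mul.succ.succ.succ.succ.succ.succ.succ (0 : Fin _).succ.succ.succ.succ.succ.succ (0 : Fin
    _).succ.succ.succ (0 : Fin _).succ.succ) (imp (fApp2 mul.succ.succ.succ.succ.succ.succ.succ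
    (0 : Fin _).succ.succ.succ.succ.succ.succ (0 : Fin _).succ.succ.succ.succ.succ (0 : Fin
    _).succ) (imp (fApp2 mul.succ.succ.succ.succ.succ.succ.succ (0 : Fin
    _).succ.succ.succ.succ.succ.succ (0 : Fin _).succ.succ.succ.succ 0) (fApp2
    add.succ.succ.succ.succ.succ.succ.succ (0 : Fin _).succ 0 (0 : Fin
    _).succ.succ))))))))))))))) (and (all (imp (mem 0 Q.succ) (neg (fApp lt.succ 0 0)))) (and
    (all (all (all (imp (mem (0 : Fin _).succ.succ Q.succ.succ.succ) (imp (mem (0 : Fin _).succ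
    Q.succ.succ.succ) (imp (mem 0 Q.succ.succ.succ) (imp (fApp lt.succ.succ.succ (0 : Fin
    _).succ.succ (0 : Fin _).succ) (imp (fApp lt.succ.succ.succ (0 : Fin _).succ 0) (fApp
    lt.succ.succ.succ (0 : Fin _).succ.succ 0))))))))) (and (all (all (imp (mem (0 : Fin
    _).succ Q.succ.succ) (imp (mem 0 Q.succ.succ) (or (fApp lt.succ.succ (0 : Fin _).succ 0)
    (or (eq (0 : Fin _).succ 0) (fApp lt.succ.succ 0 (0 : Fin _).succ))))))) (and (all (all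
    (all (imp (mem (0 : Fin _).succ.succ Q.succ.succ.succ) (imp (mem (0 : Fin _).succ
    Q.succ.succ.succ) (imp (mem 0 Q.succ.succ.succ) (imp (fApp lt.succ.succ.succ (0 : Fin
    _).succ.succ (0 : Fin _).succ) (all (all (imp (fApp2 add.succ.succ.succ.succ.succ (0 : Fin
    _).succ.succ.succ.succ (0 : Fin _).succ.succ (0 : Fin _).succ) (imp (fApp2
    add.succ.succ.succ.succ.succ (0 : Fin _).succ.succ.succ (0 : Fin _).succ.succ 0) (fApp
    lt.succ.succ.succ.succ.succ (0 : Fin _).succ 0)))))))))))) (all (all (imp (mem (0 : Fin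
    _).succ Q.succ.succ) (imp (mem 0 Q.succ.succ) (imp (fApp lt.succ.succ o.succ.succ (0 : Fin
    _).succ) (imp (fApp lt.succ.succ o.succ.succ 0) (all (imp (fApp2 mul.succ.succ.succ (0 :
    Fin _).succ.succ (0 : Fin _).succ 0) (fApp lt.succ.succ.succ o.succ.succ.succ
    0))))))))))))))))))))))

/-- subfield -/
def fSubfield {n : ℕ} (Q add mul o i K : Fin n) : Fml n :=
  and (fSub K Q) (and (mem o K) (and (mem i K) (and (all (all (all (imp (mem (0 : Fin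
    _).succ.succ K.succ.succ.succ) (imp (mem (0 : Fin _).succ K.succ.succ.succ) (imp (fApp2
    add.succ.succ.succ (0 : Fin _).succ.succ (0 : Fin _).succ 0) (mem 0 K.succ.succ.succ)))))))
    (and (all (all (imp (mem (0 : Fin _).succ K.succ.succ) (imp (mem 0 Q.succ.succ) (imp (fApp2
    add.succ.succ (0 : Fin _).succ 0 o.succ.succ) (mem 0 K.succ.succ)))))) (and (all (all (all
    (imp (mem (0 : Fin _).succ.succ K.succ.succ.succ) (imp (mem (0 : Fin _).succ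
    K.succ.succ.succ) (imp (fApp2 mul.succ.succ.succ (0 : Fin _).succ.succ (0 : Fin _).succ 0)
    (mem 0 K.succ.succ.succ))))))) (all (all (imp (mem (0 : Fin _).succ K.succ.succ) (imp (mem
    0 Q.succ.succ) (imp (fApp2 mul.succ.succ (0 : Fin _).succ 0 i.succ.succ) (mem 0
    K.succ.succ)))))))))))

/-- the field of the rational numbers -/
def fRationals {n : ℕ} (Q add mul lt o i : Fin n) : Fml n :=
  and (fOrdField Q add mul lt o i) (all (imp (fSubfield Q.succ add.succ mul.succ o.succ i.succ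
    0) (fSub Q.succ 0)))

/-- real number -/
def fReal {n : ℕ} (Q lt x : Fin n) : Fml n :=
  and (fSub x Q) (and (ex (mem 0 x.succ)) (and (ex (and (mem 0 Q.succ) (neg (mem 0 x.succ))))
    (and (all (all (imp (mem (0 : Fin _).succ x.succ.succ) (imp (mem 0 Q.succ.succ) (imp (fApp
    lt.succ.succ 0 (0 : Fin _).succ) (mem 0 x.succ.succ)))))) (all (imp (mem 0 x.succ) (ex (and
    (mem 0 x.succ.succ) (fApp lt.succ.succ (0 : Fin _).succ 0))))))))

/-- set of real numbers -/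
def fSetOfReals {n : ℕ} (Q lt X : Fin n) : Fml n :=
  all (imp (mem 0 X.succ) (fReal Q.succ lt.succ 0))

/-- `x < b` -/
def fLtRat {n : ℕ} (Q lt x b : Fin n) : Fml n :=
  ex (and (mem 0 Q.succ) (and (fApp lt.succ 0 b.succ) (neg (mem 0 x.succ))))

/-- `a < x < b` -/
def fInI {n : ℕ} (Q lt x a b : Fin n) : Fml n :=
  and (mem a x) (fLtRat Q lt x b)

/-- relatively open -/
def fOpenIn {n : ℕ} (Q lt V X : Fin n) : Fml n :=
  and (fSub V X) (all (imp (mem 0 V.succ) (ex (ex (and (mem (0 : Fin _).succ Q.succ.succ.succ)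
    (and (mem 0 Q.succ.succ.succ) (and (fInI Q.succ.succ.succ lt.succ.succ.succ (0 : Fin
    _).succ.succ (0 : Fin _).succ 0) (all (imp (mem 0 X.succ.succ.succ.succ) (imp (fInI
    Q.succ.succ.succ.succ lt.succ.succ.succ.succ 0 (0 : Fin _).succ.succ (0 : Fin _).succ) (mem
    0 V.succ.succ.succ.succ)))))))))))

/-- open cover -/
def fCover {n : ℕ} (Q lt U X : Fin n) : Fml n :=
  and (all (imp (mem 0 U.succ) (fOpenIn Q.succ lt.succ 0 X.succ))) (and (all (imp (mem 0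
    X.succ) (ex (and (mem 0 U.succ.succ) (mem (0 : Fin _).succ 0))))) (neg (mem X U)))

/-- `ω`-cover -/
def fOmegaCover {n : ℕ} (w Q lt U X : Fin n) : Fml n :=
  and (fCover Q lt U X) (all (imp (fSub 0 X.succ) (imp (fFinite w.succ 0) (ex (and (mem 0
    U.succ.succ) (fSub (0 : Fin _).succ 0))))))

/-- `γ`-cover -/
def fGammaCover {n : ℕ} (w Q lt U X : Fin n) : Fml n :=
  and (fCover Q lt U X) (and (neg (fFinite w U)) (all (imp (mem 0 X.succ) (all (imp (all (iff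
    (mem 0 (0 : Fin _).succ) (and (mem 0 U.succ.succ.succ) (neg (mem (0 : Fin _).succ.succ
    0))))) (fFinite w.succ.succ 0))))))

/-- `S₁(Ω, Γ)` -/
def fS1 {n : ℕ} (w Q lt X : Fin n) : Fml n :=
  all (imp (fFunOn 0 w.succ) (imp (all (all (imp (mem (0 : Fin _).succ w.succ.succ.succ) (imp
    (fApp (0 : Fin _).succ.succ (0 : Fin _).succ 0) (fOmegaCover w.succ.succ.succ
    Q.succ.succ.succ lt.succ.succ.succ 0 X.succ.succ.succ))))) (ex (and (fFunOn 0 w.succ.succ)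
    (and (all (all (all (imp (mem (0 : Fin _).succ.succ w.succ.succ.succ.succ.succ) (imp (fApp
    (0 : Fin _).succ.succ.succ.succ (0 : Fin _).succ.succ (0 : Fin _).succ) (imp (fApp (0 : Fin
    _).succ.succ.succ (0 : Fin _).succ.succ 0) (mem 0 (0 : Fin _).succ))))))) (all (imp (all
    (iff (mem 0 (0 : Fin _).succ) (ex (and (mem 0 w.succ.succ.succ.succ.succ) (fApp (0 : Fin
    _).succ.succ.succ 0 (0 : Fin _).succ))))) (fGammaCover w.succ.succ.succ Q.succ.succ.succ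
    lt.succ.succ.succ 0 X.succ.succ.succ))))))))

/-- uncountable -/
def fUncountable {n : ℕ} (w X : Fin n) : Fml n :=
  all (imp (fFunOn 0 w.succ) (ex (and (mem 0 X.succ.succ) (all (imp (mem 0 w.succ.succ.succ)
    (neg (fApp (0 : Fin _).succ.succ 0 (0 : Fin _).succ)))))))

/-- `t = r ^ j` -/
def fPow {n : ℕ} (w Q mul i r j t : Fin n) : Fml n :=
  ex (and (fFunTo 0 w.succ Q.succ) (and (all (imp (fEmp 0) (fApp (0 : Fin _).succ 0
    i.succ.succ))) (and (all (all (all (all (imp (mem (0 : Fin _).succ.succ.succ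
    w.succ.succ.succ.succ.succ) (imp (fSuc (0 : Fin _).succ.succ (0 : Fin _).succ.succ.succ)
    (imp (fApp (0 : Fin _).succ.succ.succ.succ (0 : Fin _).succ.succ.succ (0 : Fin _).succ)
    (imp (fApp (0 : Fin _).succ.succ.succ.succ (0 : Fin _).succ.succ 0) (fApp2
    mul.succ.succ.succ.succ.succ (0 : Fin _).succ r.succ.succ.succ.succ.succ 0))))))))) (fApp 0
    j.succ t.succ))))

/-- sequence of positive rationals with sum at most `ε` -/
def fSumLt {n : ℕ} (w Q add lt o ε e s : Fin n) : Fml n :=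
  and (fFunTo e w Q) (and (fFunTo s w Q) (and (all (all (imp (mem (0 : Fin _).succ w.succ.succ)
    (imp (fApp e.succ.succ (0 : Fin _).succ 0) (fApp lt.succ.succ o.succ.succ 0))))) (and (all
    (imp (fEmp 0) (fApp s.succ 0 o.succ))) (and (all (all (all (all (all (imp (mem (0 : Fin
    _).succ.succ.succ.succ w.succ.succ.succ.succ.succ) (imp (fSuc (0 : Fin _).succ.succ.succ (0
    : Fin _).succ.succ.succ.succ) (imp (fApp s.succ.succ.succ.succ.succ (0 : Fin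
    _).succ.succ.succ.succ (0 : Fin _).succ.succ) (imp (fApp e.succ.succ.succ.succ.succ (0 :
    Fin _).succ.succ.succ.succ (0 : Fin _).succ) (imp (fApp s.succ.succ.succ.succ.succ (0 : Fin
    _).succ.succ.succ 0) (fApp2 add.succ.succ.succ.succ.succ (0 : Fin _).succ.succ (0 : Fin
    _).succ 0))))))))))) (all (all (imp (mem (0 : Fin _).succ w.succ.succ) (imp (fApp
    s.succ.succ (0 : Fin _).succ 0) (fApp lt.succ.succ 0 ε.succ.succ)))))))))

/-- `q < x ≤ q + r ^ j` -/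
def fInJ {n : ℕ} (w Q add mul i x q r j : Fin n) : Fml n :=
  ex (ex (and (mem (0 : Fin _).succ Q.succ.succ) (and (mem 0 Q.succ.succ) (and (fPow
    w.succ.succ Q.succ.succ mul.succ.succ i.succ.succ r.succ.succ j.succ.succ (0 : Fin _).succ)
    (and (fApp2 add.succ.succ q.succ.succ (0 : Fin _).succ 0) (and (mem q.succ.succ
    x.succ.succ) (neg (mem 0 x.succ.succ))))))))

/-- cover by intervals -/
def fNull1 {n : ℕ} (w Q add mul lt o i j ε Y : Fin n) : Fml n :=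
  ex (ex (ex (and (fSumLt w.succ.succ.succ Q.succ.succ.succ add.succ.succ.succ
    lt.succ.succ.succ o.succ.succ.succ ε.succ.succ.succ (0 : Fin _).succ.succ (0 : Fin _).succ)
    (and (fFunTo 0 w.succ.succ.succ Q.succ.succ.succ) (all (imp (mem 0 Y.succ.succ.succ.succ)
    (ex (ex (ex (and (mem (0 : Fin _).succ.succ w.succ.succ.succ.succ.succ.succ.succ) (and
    (fApp (0 : Fin _).succ.succ.succ.succ (0 : Fin _).succ.succ (0 : Fin _).succ) (and (fApp (0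
    : Fin _).succ.succ.succ.succ.succ.succ (0 : Fin _).succ.succ 0) (fInJ
    w.succ.succ.succ.succ.succ.succ.succ Q.succ.succ.succ.succ.succ.succ.succ
    add.succ.succ.succ.succ.succ.succ.succ mul.succ.succ.succ.succ.succ.succ.succ
    i.succ.succ.succ.succ.succ.succ.succ (0 : Fin _).succ.succ.succ (0 : Fin _).succ 0
    j.succ.succ.succ.succ.succ.succ.succ)))))))))))))

/-- cover by squares -/
def fNull2 {n : ℕ} (w Q add mul lt o i j ε X Y : Fin n) : Fml n :=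
  ex (ex (ex (ex (and (fSumLt w.succ.succ.succ.succ Q.succ.succ.succ.succ
    add.succ.succ.succ.succ lt.succ.succ.succ.succ o.succ.succ.succ.succ ε.succ.succ.succ.succ
    (0 : Fin _).succ.succ.succ (0 : Fin _).succ.succ) (and (fFunTo (0 : Fin _).succ
    w.succ.succ.succ.succ Q.succ.succ.succ.succ) (and (fFunTo 0 w.succ.succ.succ.succ
    Q.succ.succ.succ.succ) (all (all (imp (mem (0 : Fin _).succ
    X.succ.succ.succ.succ.succ.succ) (imp (mem 0 Y.succ.succ.succ.succ.succ.succ) (ex (ex (ex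
    (ex (and (mem (0 : Fin _).succ.succ.succ
    w.succ.succ.succ.succ.succ.succ.succ.succ.succ.succ) (and (fApp (0 : Fin
    _).succ.succ.succ.succ.succ.succ.succ (0 : Fin _).succ.succ.succ (0 : Fin _).succ.succ)
    (and (fApp (0 : Fin _).succ.succ.succ.succ.succ.succ (0 : Fin _).succ.succ.succ (0 : Fin
    _).succ) (and (fApp (0 : Fin _).succ.succ.succ.succ.succ.succ.succ.succ.succ (0 : Fin
    _).succ.succ.succ 0) (and (fInJ w.succ.succ.succ.succ.succ.succ.succ.succ.succ.succ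
    Q.succ.succ.succ.succ.succ.succ.succ.succ.succ.succ
    add.succ.succ.succ.succ.succ.succ.succ.succ.succ.succ
    mul.succ.succ.succ.succ.succ.succ.succ.succ.succ.succ
    i.succ.succ.succ.succ.succ.succ.succ.succ.succ.succ (0 : Fin _).succ.succ.succ.succ.succ (0
    : Fin _).succ.succ 0 j.succ.succ.succ.succ.succ.succ.succ.succ.succ.succ) (fInJ
    w.succ.succ.succ.succ.succ.succ.succ.succ.succ.succ
    Q.succ.succ.succ.succ.succ.succ.succ.succ.succ.succ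
    add.succ.succ.succ.succ.succ.succ.succ.succ.succ.succ
    mul.succ.succ.succ.succ.succ.succ.succ.succ.succ.succ
    i.succ.succ.succ.succ.succ.succ.succ.succ.succ.succ (0 : Fin _).succ.succ.succ.succ (0 :
    Fin _).succ 0 j.succ.succ.succ.succ.succ.succ.succ.succ.succ.succ))))))))))))))))))))

/-- dimension zero -/
def fDim1 {n : ℕ} (w Q add mul lt o i Y : Fin n) : Fml n :=
  all (all (imp (mem (0 : Fin _).succ w.succ.succ) (imp (neg (fEmp (0 : Fin _).succ)) (imp (mem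
    0 Q.succ.succ) (imp (fApp lt.succ.succ o.succ.succ 0) (fNull1 w.succ.succ Q.succ.succ
    add.succ.succ mul.succ.succ lt.succ.succ o.succ.succ i.succ.succ (0 : Fin _).succ 0
    Y.succ.succ))))))

/-- dimension zero of the product -/
def fDim2 {n : ℕ} (w Q add mul lt o i X Y : Fin n) : Fml n :=
  all (all (imp (mem (0 : Fin _).succ w.succ.succ) (imp (neg (fEmp (0 : Fin _).succ)) (imp (mem
    0 Q.succ.succ) (imp (fApp lt.succ.succ o.succ.succ 0) (fNull2 w.succ.succ Q.succ.succ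
    add.succ.succ mul.succ.succ lt.succ.succ o.succ.succ i.succ.succ (0 : Fin _).succ 0
    X.succ.succ Y.succ.succ))))))

/-- statement (i) -/
def fStatementI {n : ℕ} (w Q lt : Fin n) : Fml n :=
  ex (and (fSetOfReals Q.succ lt.succ 0) (and (fUncountable w.succ 0) (fS1 w.succ Q.succ
    lt.succ 0)))

/-- statement (ii) -/
def fStatementII {n : ℕ} (w Q add mul lt o i : Fin n) : Fml n :=
  all (all (imp (fSetOfReals Q.succ.succ lt.succ.succ (0 : Fin _).succ) (imp (fSetOfReals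
    Q.succ.succ lt.succ.succ 0) (imp (fS1 w.succ.succ Q.succ.succ lt.succ.succ (0 : Fin
    _).succ) (imp (fDim1 w.succ.succ Q.succ.succ add.succ.succ mul.succ.succ lt.succ.succ
    o.succ.succ i.succ.succ 0) (fDim2 w.succ.succ Q.succ.succ add.succ.succ mul.succ.succ
    lt.succ.succ o.succ.succ i.succ.succ (0 : Fin _).succ 0))))))

/-- (i) and (ii) -/
def fKrawczyk : Fml 0 :=
  ex (ex (ex (ex (ex (ex (ex (and (fOmega (0 : Fin _).succ.succ.succ.succ.succ.succ) (and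
    (fRationals (0 : Fin _).succ.succ.succ.succ.succ (0 : Fin _).succ.succ.succ.succ (0 : Fin
    _).succ.succ.succ (0 : Fin _).succ.succ (0 : Fin _).succ 0) (and (fStatementI (0 : Fin
    _).succ.succ.succ.succ.succ.succ (0 : Fin _).succ.succ.succ.succ.succ (0 : Fin
    _).succ.succ) (fStatementII (0 : Fin _).succ.succ.succ.succ.succ.succ (0 : Fin
    _).succ.succ.succ.succ.succ (0 : Fin _).succ.succ.succ.succ (0 : Fin _).succ.succ.succ (0 :
    Fin _).succ.succ (0 : Fin _).succ 0))))))))))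

section Sat

variable {M : Type*} (E : M → M → Prop)

theorem sat_fSub {n : ℕ} (x y : Fin n) (v : Fin n → M) :
    Sat E (fSub x y) v ↔ Kr.Sub E (v x) (v y) := by
  simp only [fSub, Kr.Sub, sat_all, sat_ex, sat_imp, sat_and, sat_or, sat_neg, sat_iff, sat_mem, sat_eq, Fin.cons_zero, Fin.cons_succ]

theorem sat_fUPair {n : ℕ} (p a b : Fin n) (v : Fin n → M) :
    Sat E (fUPair p a b) v ↔ Kr.UPair E (v p) (v a) (v b) := by
  simp only [fUPair, Kr.UPair, sat_all, sat_ex, sat_imp, sat_and, sat_or, sat_neg, sat_iff, sat_mem, sat_eq, Fin.cons_zero, Fin.cons_succ]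

theorem sat_fPair {n : ℕ} (p a b : Fin n) (v : Fin n → M) :
    Sat E (fPair p a b) v ↔ Kr.Pair E (v p) (v a) (v b) := by
  simp only [fPair, Kr.Pair, sat_all, sat_ex, sat_imp, sat_and, sat_or, sat_neg, sat_iff, sat_mem, sat_eq, Fin.cons_zero, Fin.cons_succ, sat_fUPair]

theorem sat_fApp {n : ℕ} (f a b : Fin n) (v : Fin n → M) :
    Sat E (fApp f a b) v ↔ Kr.App E (v f) (v a) (v b) := by
  simp only [fApp, Kr.App, sat_all, sat_ex, sat_imp, sat_and, sat_or, sat_neg, sat_iff, sat_mem, sat_eq, Fin.cons_zero, Fin.cons_succ, sat_fPair]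

theorem sat_fFunOn {n : ℕ} (f d : Fin n) (v : Fin n → M) :
    Sat E (fFunOn f d) v ↔ Kr.FunOn E (v f) (v d) := by
  simp only [fFunOn, Kr.FunOn, sat_all, sat_ex, sat_imp, sat_and, sat_or, sat_neg, sat_iff, sat_mem, sat_eq, Fin.cons_zero, Fin.cons_succ, sat_fPair, sat_fApp]

theorem sat_fFunTo {n : ℕ} (f d r : Fin n) (v : Fin n → M) :
    Sat E (fFunTo f d r) v ↔ Kr.FunTo E (v f) (v d) (v r) := by
  simp only [fFunTo, Kr.FunTo, sat_all, sat_ex, sat_imp, sat_and, sat_or, sat_neg, sat_iff, sat_mem, sat_eq, Fin.cons_zero, Fin.cons_succ, sat_fApp, sat_fFunOn]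

theorem sat_fEmp {n : ℕ} (x : Fin n) (v : Fin n → M) :
    Sat E (fEmp x) v ↔ Kr.Emp E (v x) := by
  simp only [fEmp, Kr.Emp, sat_all, sat_ex, sat_imp, sat_and, sat_or, sat_neg, sat_iff, sat_mem, sat_eq, Fin.cons_zero, Fin.cons_succ]

theorem sat_fSuc {n : ℕ} (y x : Fin n) (v : Fin n → M) :
    Sat E (fSuc y x) v ↔ Kr.Suc E (v y) (v x) := by
  simp only [fSuc, Kr.Suc, sat_all, sat_ex, sat_imp, sat_and, sat_or, sat_neg, sat_iff, sat_mem, sat_eq, Fin.cons_zero, Fin.cons_succ]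

theorem sat_fInd {n : ℕ} (w : Fin n) (v : Fin n → M) :
    Sat E (fInd w) v ↔ Kr.Ind E (v w) := by
  simp only [fInd, Kr.Ind, sat_all, sat_ex, sat_imp, sat_and, sat_or, sat_neg, sat_iff, sat_mem, sat_eq, Fin.cons_zero, Fin.cons_succ, sat_fEmp, sat_fSuc]

theorem sat_fOmega {n : ℕ} (w : Fin n) (v : Fin n → M) :
    Sat E (fOmega w) v ↔ Kr.Omega E (v w) := by
  simp only [fOmega, Kr.Omega, sat_all, sat_ex, sat_imp, sat_and, sat_or, sat_neg, sat_iff, sat_mem, sat_eq, Fin.cons_zero, Fin.cons_succ, sat_fSub, sat_fInd]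

theorem sat_fFinite {n : ℕ} (w A : Fin n) (v : Fin n → M) :
    Sat E (fFinite w A) v ↔ Kr.Finite E (v w) (v A) := by
  simp only [fFinite, Kr.Finite, sat_all, sat_ex, sat_imp, sat_and, sat_or, sat_neg, sat_iff, sat_mem, sat_eq, Fin.cons_zero, Fin.cons_succ, sat_fApp, sat_fFunOn]

theorem sat_fApp2 {n : ℕ} (f a b c : Fin n) (v : Fin n → M) :
    Sat E (fApp2 f a b c) v ↔ Kr.App2 E (v f) (v a) (v b) (v c) := by
  simp only [fApp2, Kr.App2, sat_all, sat_ex, sat_imp, sat_and, sat_or, sat_neg, sat_iff, sat_mem, sat_eq, Fin.cons_zero, Fin.cons_succ, sat_fPair, sat_fApp]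

theorem sat_fBinOp {n : ℕ} (Q f : Fin n) (v : Fin n → M) :
    Sat E (fBinOp Q f) v ↔ Kr.BinOp E (v Q) (v f) := by
  simp only [fBinOp, Kr.BinOp, sat_all, sat_ex, sat_imp, sat_and, sat_or, sat_neg, sat_iff, sat_mem, sat_eq, Fin.cons_zero, Fin.cons_succ, sat_fApp2]

theorem sat_fNeutral {n : ℕ} (Q f o : Fin n) (v : Fin n → M) :
    Sat E (fNeutral Q f o) v ↔ Kr.Neutral E (v Q) (v f) (v o) := by
  simp only [fNeutral, Kr.Neutral, sat_all, sat_ex, sat_imp, sat_and, sat_or, sat_neg, sat_iff, sat_mem, sat_eq, Fin.cons_zero, Fin.cons_succ, sat_fApp2]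

theorem sat_fAssocComm {n : ℕ} (Q f : Fin n) (v : Fin n → M) :
    Sat E (fAssocComm Q f) v ↔ Kr.AssocComm E (v Q) (v f) := by
  simp only [fAssocComm, Kr.AssocComm, sat_all, sat_ex, sat_imp, sat_and, sat_or, sat_neg, sat_iff, sat_mem, sat_eq, Fin.cons_zero, Fin.cons_succ, sat_fApp2]

theorem sat_fOrdField {n : ℕ} (Q add mul lt o i : Fin n) (v : Fin n → M) :
    Sat E (fOrdField Q add mul lt o i) v ↔ Kr.OrdField E (v Q) (v add) (v mul) (v lt) (v o) (v i) := by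
  simp only [fOrdField, Kr.OrdField, sat_all, sat_ex, sat_imp, sat_and, sat_or, sat_neg, sat_iff, sat_mem, sat_eq, Fin.cons_zero, Fin.cons_succ, sat_fApp, sat_fApp2, sat_fBinOp, sat_fNeutral, sat_fAssocComm]

theorem sat_fSubfield {n : ℕ} (Q add mul o i K : Fin n) (v : Fin n → M) :
    Sat E (fSubfield Q add mul o i K) v ↔ Kr.Subfield E (v Q) (v add) (v mul) (v o) (v i) (v K) := by
  simp only [fSubfield, Kr.Subfield, sat_all, sat_ex, sat_imp, sat_and, sat_or, sat_neg, sat_iff, sat_mem, sat_eq, Fin.cons_zero, Fin.cons_succ, sat_fSub, sat_fApp2]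

theorem sat_fRationals {n : ℕ} (Q add mul lt o i : Fin n) (v : Fin n → M) :
    Sat E (fRationals Q add mul lt o i) v ↔ Kr.Rationals E (v Q) (v add) (v mul) (v lt) (v o) (v i) := by
  simp only [fRationals, Kr.Rationals, sat_all, sat_ex, sat_imp, sat_and, sat_or, sat_neg, sat_iff, sat_mem, sat_eq, Fin.cons_zero, Fin.cons_succ, sat_fSub, sat_fOrdField, sat_fSubfield]

theorem sat_fReal {n : ℕ} (Q lt x : Fin n) (v : Fin n → M) :
    Sat E (fReal Q lt x) v ↔ Kr.Real E (v Q) (v lt) (v x) := by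
  simp only [fReal, Kr.Real, sat_all, sat_ex, sat_imp, sat_and, sat_or, sat_neg, sat_iff, sat_mem, sat_eq, Fin.cons_zero, Fin.cons_succ, sat_fSub, sat_fApp]

theorem sat_fSetOfReals {n : ℕ} (Q lt X : Fin n) (v : Fin n → M) :
    Sat E (fSetOfReals Q lt X) v ↔ Kr.SetOfReals E (v Q) (v lt) (v X) := by
  simp only [fSetOfReals, Kr.SetOfReals, sat_all, sat_ex, sat_imp, sat_and, sat_or, sat_neg, sat_iff, sat_mem, sat_eq, Fin.cons_zero, Fin.cons_succ, sat_fReal]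

theorem sat_fLtRat {n : ℕ} (Q lt x b : Fin n) (v : Fin n → M) :
    Sat E (fLtRat Q lt x b) v ↔ Kr.LtRat E (v Q) (v lt) (v x) (v b) := by
  simp only [fLtRat, Kr.LtRat, sat_all, sat_ex, sat_imp, sat_and, sat_or, sat_neg, sat_iff, sat_mem, sat_eq, Fin.cons_zero, Fin.cons_succ, sat_fApp]

theorem sat_fInI {n : ℕ} (Q lt x a b : Fin n) (v : Fin n → M) :
    Sat E (fInI Q lt x a b) v ↔ Kr.InI E (v Q) (v lt) (v x) (v a) (v b) := by
  simp only [fInI, Kr.InI, sat_all, sat_ex, sat_imp, sat_and, sat_or, sat_neg, sat_iff, sat_mem, sat_eq, Fin.cons_zero, Fin.cons_succ, sat_fLtRat]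

theorem sat_fOpenIn {n : ℕ} (Q lt V X : Fin n) (v : Fin n → M) :
    Sat E (fOpenIn Q lt V X) v ↔ Kr.OpenIn E (v Q) (v lt) (v V) (v X) := by
  simp only [fOpenIn, Kr.OpenIn, sat_all, sat_ex, sat_imp, sat_and, sat_or, sat_neg, sat_iff, sat_mem, sat_eq, Fin.cons_zero, Fin.cons_succ, sat_fSub, sat_fInI]

theorem sat_fCover {n : ℕ} (Q lt U X : Fin n) (v : Fin n → M) :
    Sat E (fCover Q lt U X) v ↔ Kr.Cover E (v Q) (v lt) (v U) (v X) := by
  simp only [fCover, Kr.Cover, sat_all, sat_ex, sat_imp, sat_and, sat_or, sat_neg, sat_iff, sat_mem, sat_eq, Fin.cons_zero, Fin.cons_succ, sat_fOpenIn]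

theorem sat_fOmegaCover {n : ℕ} (w Q lt U X : Fin n) (v : Fin n → M) :
    Sat E (fOmegaCover w Q lt U X) v ↔ Kr.OmegaCover E (v w) (v Q) (v lt) (v U) (v X) := by
  simp only [fOmegaCover, Kr.OmegaCover, sat_all, sat_ex, sat_imp, sat_and, sat_or, sat_neg, sat_iff, sat_mem, sat_eq, Fin.cons_zero, Fin.cons_succ, sat_fSub, sat_fFinite, sat_fCover]

theorem sat_fGammaCover {n : ℕ} (w Q lt U X : Fin n) (v : Fin n → M) :
    Sat E (fGammaCover w Q lt U X) v ↔ Kr.GammaCover E (v w) (v Q) (v lt) (v U) (v X) := by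
  simp only [fGammaCover, Kr.GammaCover, sat_all, sat_ex, sat_imp, sat_and, sat_or, sat_neg, sat_iff, sat_mem, sat_eq, Fin.cons_zero, Fin.cons_succ, sat_fFinite, sat_fCover]

theorem sat_fS1 {n : ℕ} (w Q lt X : Fin n) (v : Fin n → M) :
    Sat E (fS1 w Q lt X) v ↔ Kr.S1 E (v w) (v Q) (v lt) (v X) := by
  simp only [fS1, Kr.S1, sat_all, sat_ex, sat_imp, sat_and, sat_or, sat_neg, sat_iff, sat_mem, sat_eq, Fin.cons_zero, Fin.cons_succ, sat_fApp, sat_fFunOn, sat_fOmegaCover, sat_fGammaCover]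

theorem sat_fUncountable {n : ℕ} (w X : Fin n) (v : Fin n → M) :
    Sat E (fUncountable w X) v ↔ Kr.Uncountable E (v w) (v X) := by
  simp only [fUncountable, Kr.Uncountable, sat_all, sat_ex, sat_imp, sat_and, sat_or, sat_neg, sat_iff, sat_mem, sat_eq, Fin.cons_zero, Fin.cons_succ, sat_fApp, sat_fFunOn]

theorem sat_fPow {n : ℕ} (w Q mul i r j t : Fin n) (v : Fin n → M) :
    Sat E (fPow w Q mul i r j t) v ↔ Kr.Pow E (v w) (v Q) (v mul) (v i) (v r) (v j) (v t) := by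
  simp only [fPow, Kr.Pow, sat_all, sat_ex, sat_imp, sat_and, sat_or, sat_neg, sat_iff, sat_mem, sat_eq, Fin.cons_zero, Fin.cons_succ, sat_fApp, sat_fFunTo, sat_fEmp, sat_fSuc, sat_fApp2]

theorem sat_fSumLt {n : ℕ} (w Q add lt o ε e s : Fin n) (v : Fin n → M) :
    Sat E (fSumLt w Q add lt o ε e s) v ↔ Kr.SumLt E (v w) (v Q) (v add) (v lt) (v o) (v ε) (v e) (v s) := by
  simp only [fSumLt, Kr.SumLt, sat_all, sat_ex, sat_imp, sat_and, sat_or, sat_neg, sat_iff, sat_mem, sat_eq, Fin.cons_zero, Fin.cons_succ, sat_fApp, sat_fFunTo, sat_fEmp, sat_fSuc, sat_fApp2]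

theorem sat_fInJ {n : ℕ} (w Q add mul i x q r j : Fin n) (v : Fin n → M) :
    Sat E (fInJ w Q add mul i x q r j) v ↔ Kr.InJ E (v w) (v Q) (v add) (v mul) (v i) (v x) (v q) (v r) (v j) := by
  simp only [fInJ, Kr.InJ, sat_all, sat_ex, sat_imp, sat_and, sat_or, sat_neg, sat_iff, sat_mem, sat_eq, Fin.cons_zero, Fin.cons_succ, sat_fApp2, sat_fPow]

theorem sat_fNull1 {n : ℕ} (w Q add mul lt o i j ε Y : Fin n) (v : Fin n → M) :
    Sat E (fNull1 w Q add mul lt o i j ε Y) v ↔ Kr.Null1 E (v w) (v Q) (v add) (v mul) (v lt) (v o) (v i) (v j) (v ε) (v Y) := by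
  simp only [fNull1, Kr.Null1, sat_all, sat_ex, sat_imp, sat_and, sat_or, sat_neg, sat_iff, sat_mem, sat_eq, Fin.cons_zero, Fin.cons_succ, sat_fApp, sat_fFunTo, sat_fSumLt, sat_fInJ]

theorem sat_fNull2 {n : ℕ} (w Q add mul lt o i j ε X Y : Fin n) (v : Fin n → M) :
    Sat E (fNull2 w Q add mul lt o i j ε X Y) v ↔ Kr.Null2 E (v w) (v Q) (v add) (v mul) (v lt) (v o) (v i) (v j) (v ε) (v X) (v Y) := by
  simp only [fNull2, Kr.Null2, sat_all, sat_ex, sat_imp, sat_and, sat_or, sat_neg, sat_iff, sat_mem, sat_eq, Fin.cons_zero, Fin.cons_succ, sat_fApp, sat_fFunTo, sat_fSumLt, sat_fInJ]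

theorem sat_fDim1 {n : ℕ} (w Q add mul lt o i Y : Fin n) (v : Fin n → M) :
    Sat E (fDim1 w Q add mul lt o i Y) v ↔ Kr.Dim1 E (v w) (v Q) (v add) (v mul) (v lt) (v o) (v i) (v Y) := by
  simp only [fDim1, Kr.Dim1, sat_all, sat_ex, sat_imp, sat_and, sat_or, sat_neg, sat_iff, sat_mem, sat_eq, Fin.cons_zero, Fin.cons_succ, sat_fApp, sat_fEmp, sat_fNull1]

theorem sat_fDim2 {n : ℕ} (w Q add mul lt o i X Y : Fin n) (v : Fin n → M) :
    Sat E (fDim2 w Q add mul lt o i X Y) v ↔ Kr.Dim2 E (v w) (v Q) (v add) (v mul) (v lt) (v o) (v i) (v X) (v Y) := by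
  simp only [fDim2, Kr.Dim2, sat_all, sat_ex, sat_imp, sat_and, sat_or, sat_neg, sat_iff, sat_mem, sat_eq, Fin.cons_zero, Fin.cons_succ, sat_fApp, sat_fEmp, sat_fNull2]

theorem sat_fStatementI {n : ℕ} (w Q lt : Fin n) (v : Fin n → M) :
    Sat E (fStatementI w Q lt) v ↔ Kr.StatementI E (v w) (v Q) (v lt) := by
  simp only [fStatementI, Kr.StatementI, sat_all, sat_ex, sat_imp, sat_and, sat_or, sat_neg, sat_iff, sat_mem, sat_eq, Fin.cons_zero, Fin.cons_succ, sat_fSetOfReals, sat_fS1, sat_fUncountable]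

theorem sat_fStatementII {n : ℕ} (w Q add mul lt o i : Fin n) (v : Fin n → M) :
    Sat E (fStatementII w Q add mul lt o i) v ↔ Kr.StatementII E (v w) (v Q) (v add) (v mul) (v lt) (v o) (v i) := by
  simp only [fStatementII, Kr.StatementII, sat_all, sat_ex, sat_imp, sat_and, sat_or, sat_neg, sat_iff, sat_mem, sat_eq, Fin.cons_zero, Fin.cons_succ, sat_fSetOfReals, sat_fS1, sat_fDim1, sat_fDim2]

theorem sat_fKrawczyk :
    Sat E fKrawczyk ![] ↔ Kr.Krawczyk E := by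
  simp only [fKrawczyk, Kr.Krawczyk, sat_all, sat_ex, sat_imp, sat_and, sat_or, sat_neg, sat_iff, sat_mem, sat_eq, Fin.cons_zero, Fin.cons_succ, sat_fOmega, sat_fRationals, sat_fStatementI, sat_fStatementII]

end Sat

section bv

variable {B : Type u} [CompleteBooleanAlgebra B]

theorem bv_iffB {n : ℕ} (φ ψ : Fml n) (v : Fin n → BSet B) :
    bv (iff φ ψ) v = iffB (bv φ v) (bv ψ v) := bv_iff φ ψ v

theorem bv_fSub {n : ℕ} (x y : Fin n) (v : Fin n → BSet B) :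
    bv (fSub x y) v = Kb.Sub (v x) (v y) := by
  simp only [fSub, Kb.Sub, bv_all, bv_ex, bv_imp, bv_and, bv_or, bv_neg, bv_iffB, bv_mem, bv_eq, Fin.cons_zero, Fin.cons_succ]

theorem bv_fUPair {n : ℕ} (p a b : Fin n) (v : Fin n → BSet B) :
    bv (fUPair p a b) v = Kb.UPair (v p) (v a) (v b) := by
  simp only [fUPair, Kb.UPair, bv_all, bv_ex, bv_imp, bv_and, bv_or, bv_neg, bv_iffB, bv_mem, bv_eq, Fin.cons_zero, Fin.cons_succ]

theorem bv_fPair {n : ℕ} (p a b : Fin n) (v : Fin n → BSet B) :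
    bv (fPair p a b) v = Kb.Pair (v p) (v a) (v b) := by
  simp only [fPair, Kb.Pair, bv_all, bv_ex, bv_imp, bv_and, bv_or, bv_neg, bv_iffB, bv_mem, bv_eq, Fin.cons_zero, Fin.cons_succ, bv_fUPair]

theorem bv_fApp {n : ℕ} (f a b : Fin n) (v : Fin n → BSet B) :
    bv (fApp f a b) v = Kb.App (v f) (v a) (v b) := by
  simp only [fApp, Kb.App, bv_all, bv_ex, bv_imp, bv_and, bv_or, bv_neg, bv_iffB, bv_mem, bv_eq, Fin.cons_zero, Fin.cons_succ, bv_fPair]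

theorem bv_fFunOn {n : ℕ} (f d : Fin n) (v : Fin n → BSet B) :
    bv (fFunOn f d) v = Kb.FunOn (v f) (v d) := by
  simp only [fFunOn, Kb.FunOn, bv_all, bv_ex, bv_imp, bv_and, bv_or, bv_neg, bv_iffB, bv_mem, bv_eq, Fin.cons_zero, Fin.cons_succ, bv_fPair, bv_fApp]

theorem bv_fFunTo {n : ℕ} (f d r : Fin n) (v : Fin n → BSet B) :
    bv (fFunTo f d r) v = Kb.FunTo (v f) (v d) (v r) := by
  simp only [fFunTo, Kb.FunTo, bv_all, bv_ex, bv_imp, bv_and, bv_or, bv_neg, bv_iffB, bv_mem, bv_eq, Fin.cons_zero, Fin.cons_succ, bv_fApp, bv_fFunOn]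

theorem bv_fEmp {n : ℕ} (x : Fin n) (v : Fin n → BSet B) :
    bv (fEmp x) v = Kb.Emp (v x) := by
  simp only [fEmp, Kb.Emp, bv_all, bv_ex, bv_imp, bv_and, bv_or, bv_neg, bv_iffB, bv_mem, bv_eq, Fin.cons_zero, Fin.cons_succ]

theorem bv_fSuc {n : ℕ} (y x : Fin n) (v : Fin n → BSet B) :
    bv (fSuc y x) v = Kb.Suc (v y) (v x) := by
  simp only [fSuc, Kb.Suc, bv_all, bv_ex, bv_imp, bv_and, bv_or, bv_neg, bv_iffB, bv_mem, bv_eq, Fin.cons_zero, Fin.cons_succ]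

theorem bv_fInd {n : ℕ} (w : Fin n) (v : Fin n → BSet B) :
    bv (fInd w) v = Kb.Ind (v w) := by
  simp only [fInd, Kb.Ind, bv_all, bv_ex, bv_imp, bv_and, bv_or, bv_neg, bv_iffB, bv_mem, bv_eq, Fin.cons_zero, Fin.cons_succ, bv_fEmp, bv_fSuc]

theorem bv_fOmega {n : ℕ} (w : Fin n) (v : Fin n → BSet B) :
    bv (fOmega w) v = Kb.Omega (v w) := by
  simp only [fOmega, Kb.Omega, bv_all, bv_ex, bv_imp, bv_and, bv_or, bv_neg, bv_iffB, bv_mem, bv_eq, Fin.cons_zero, Fin.cons_succ, bv_fSub, bv_fInd]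

theorem bv_fFinite {n : ℕ} (w A : Fin n) (v : Fin n → BSet B) :
    bv (fFinite w A) v = Kb.Finite (v w) (v A) := by
  simp only [fFinite, Kb.Finite, bv_all, bv_ex, bv_imp, bv_and, bv_or, bv_neg, bv_iffB, bv_mem, bv_eq, Fin.cons_zero, Fin.cons_succ, bv_fApp, bv_fFunOn]

theorem bv_fApp2 {n : ℕ} (f a b c : Fin n) (v : Fin n → BSet B) :
    bv (fApp2 f a b c) v = Kb.App2 (v f) (v a) (v b) (v c) := by
  simp only [fApp2, Kb.App2, bv_all, bv_ex, bv_imp, bv_and, bv_or, bv_neg, bv_iffB, bv_mem, bv_eq, Fin.cons_zero, Fin.cons_succ, bv_fPair, bv_fApp]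

theorem bv_fBinOp {n : ℕ} (Q f : Fin n) (v : Fin n → BSet B) :
    bv (fBinOp Q f) v = Kb.BinOp (v Q) (v f) := by
  simp only [fBinOp, Kb.BinOp, bv_all, bv_ex, bv_imp, bv_and, bv_or, bv_neg, bv_iffB, bv_mem, bv_eq, Fin.cons_zero, Fin.cons_succ, bv_fApp2]

theorem bv_fNeutral {n : ℕ} (Q f o : Fin n) (v : Fin n → BSet B) :
    bv (fNeutral Q f o) v = Kb.Neutral (v Q) (v f) (v o) := by
  simp only [fNeutral, Kb.Neutral, bv_all, bv_ex, bv_imp, bv_and, bv_or, bv_neg, bv_iffB, bv_mem, bv_eq, Fin.cons_zero, Fin.cons_succ, bv_fApp2]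

theorem bv_fAssocComm {n : ℕ} (Q f : Fin n) (v : Fin n → BSet B) :
    bv (fAssocComm Q f) v = Kb.AssocComm (v Q) (v f) := by
  simp only [fAssocComm, Kb.AssocComm, bv_all, bv_ex, bv_imp, bv_and, bv_or, bv_neg, bv_iffB, bv_mem, bv_eq, Fin.cons_zero, Fin.cons_succ, bv_fApp2]

theorem bv_fOrdField {n : ℕ} (Q add mul lt o i : Fin n) (v : Fin n → BSet B) :
    bv (fOrdField Q add mul lt o i) v = Kb.OrdField (v Q) (v add) (v mul) (v lt) (v o) (v i) := by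
  simp only [fOrdField, Kb.OrdField, bv_all, bv_ex, bv_imp, bv_and, bv_or, bv_neg, bv_iffB, bv_mem, bv_eq, Fin.cons_zero, Fin.cons_succ, bv_fApp, bv_fApp2, bv_fBinOp, bv_fNeutral, bv_fAssocComm]

theorem bv_fSubfield {n : ℕ} (Q add mul o i K : Fin n) (v : Fin n → BSet B) :
    bv (fSubfield Q add mul o i K) v = Kb.Subfield (v Q) (v add) (v mul) (v o) (v i) (v K) := by
  simp only [fSubfield, Kb.Subfield, bv_all, bv_ex, bv_imp, bv_and, bv_or, bv_neg, bv_iffB, bv_mem, bv_eq, Fin.cons_zero, Fin.cons_succ, bv_fSub, bv_fApp2]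

theorem bv_fRationals {n : ℕ} (Q add mul lt o i : Fin n) (v : Fin n → BSet B) :
    bv (fRationals Q add mul lt o i) v = Kb.Rationals (v Q) (v add) (v mul) (v lt) (v o) (v i) := by
  simp only [fRationals, Kb.Rationals, bv_all, bv_ex, bv_imp, bv_and, bv_or, bv_neg, bv_iffB, bv_mem, bv_eq, Fin.cons_zero, Fin.cons_succ, bv_fSub, bv_fOrdField, bv_fSubfield]

theorem bv_fReal {n : ℕ} (Q lt x : Fin n) (v : Fin n → BSet B) :
    bv (fReal Q lt x) v = Kb.Real (v Q) (v lt) (v x) := by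
  simp only [fReal, Kb.Real, bv_all, bv_ex, bv_imp, bv_and, bv_or, bv_neg, bv_iffB, bv_mem, bv_eq, Fin.cons_zero, Fin.cons_succ, bv_fSub, bv_fApp]

theorem bv_fSetOfReals {n : ℕ} (Q lt X : Fin n) (v : Fin n → BSet B) :
    bv (fSetOfReals Q lt X) v = Kb.SetOfReals (v Q) (v lt) (v X) := by
  simp only [fSetOfReals, Kb.SetOfReals, bv_all, bv_ex, bv_imp, bv_and, bv_or, bv_neg, bv_iffB, bv_mem, bv_eq, Fin.cons_zero, Fin.cons_succ, bv_fReal]

theorem bv_fLtRat {n : ℕ} (Q lt x b : Fin n) (v : Fin n → BSet B) :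
    bv (fLtRat Q lt x b) v = Kb.LtRat (v Q) (v lt) (v x) (v b) := by
  simp only [fLtRat, Kb.LtRat, bv_all, bv_ex, bv_imp, bv_and, bv_or, bv_neg, bv_iffB, bv_mem, bv_eq, Fin.cons_zero, Fin.cons_succ, bv_fApp]

theorem bv_fInI {n : ℕ} (Q lt x a b : Fin n) (v : Fin n → BSet B) :
    bv (fInI Q lt x a b) v = Kb.InI (v Q) (v lt) (v x) (v a) (v b) := by
  simp only [fInI, Kb.InI, bv_all, bv_ex, bv_imp, bv_and, bv_or, bv_neg, bv_iffB, bv_mem, bv_eq, Fin.cons_zero, Fin.cons_succ, bv_fLtRat]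

theorem bv_fOpenIn {n : ℕ} (Q lt V X : Fin n) (v : Fin n → BSet B) :
    bv (fOpenIn Q lt V X) v = Kb.OpenIn (v Q) (v lt) (v V) (v X) := by
  simp only [fOpenIn, Kb.OpenIn, bv_all, bv_ex, bv_imp, bv_and, bv_or, bv_neg, bv_iffB, bv_mem, bv_eq, Fin.cons_zero, Fin.cons_succ, bv_fSub, bv_fInI]

theorem bv_fCover {n : ℕ} (Q lt U X : Fin n) (v : Fin n → BSet B) :
    bv (fCover Q lt U X) v = Kb.Cover (v Q) (v lt) (v U) (v X) := by
  simp only [fCover, Kb.Cover, bv_all, bv_ex, bv_imp, bv_and, bv_or, bv_neg, bv_iffB, bv_mem, bv_eq, Fin.cons_zero, Fin.cons_succ, bv_fOpenIn]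

theorem bv_fOmegaCover {n : ℕ} (w Q lt U X : Fin n) (v : Fin n → BSet B) :
    bv (fOmegaCover w Q lt U X) v = Kb.OmegaCover (v w) (v Q) (v lt) (v U) (v X) := by
  simp only [fOmegaCover, Kb.OmegaCover, bv_all, bv_ex, bv_imp, bv_and, bv_or, bv_neg, bv_iffB, bv_mem, bv_eq, Fin.cons_zero, Fin.cons_succ, bv_fSub, bv_fFinite, bv_fCover]

theorem bv_fGammaCover {n : ℕ} (w Q lt U X : Fin n) (v : Fin n → BSet B) :
    bv (fGammaCover w Q lt U X) v = Kb.GammaCover (v w) (v Q) (v lt) (v U) (v X) := by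
  simp only [fGammaCover, Kb.GammaCover, bv_all, bv_ex, bv_imp, bv_and, bv_or, bv_neg, bv_iffB, bv_mem, bv_eq, Fin.cons_zero, Fin.cons_succ, bv_fFinite, bv_fCover]

theorem bv_fS1 {n : ℕ} (w Q lt X : Fin n) (v : Fin n → BSet B) :
    bv (fS1 w Q lt X) v = Kb.S1 (v w) (v Q) (v lt) (v X) := by
  simp only [fS1, Kb.S1, bv_all, bv_ex, bv_imp, bv_and, bv_or, bv_neg, bv_iffB, bv_mem, bv_eq, Fin.cons_zero, Fin.cons_succ, bv_fApp, bv_fFunOn, bv_fOmegaCover, bv_fGammaCover]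

theorem bv_fUncountable {n : ℕ} (w X : Fin n) (v : Fin n → BSet B) :
    bv (fUncountable w X) v = Kb.Uncountable (v w) (v X) := by
  simp only [fUncountable, Kb.Uncountable, bv_all, bv_ex, bv_imp, bv_and, bv_or, bv_neg, bv_iffB, bv_mem, bv_eq, Fin.cons_zero, Fin.cons_succ, bv_fApp, bv_fFunOn]

theorem bv_fPow {n : ℕ} (w Q mul i r j t : Fin n) (v : Fin n → BSet B) :
    bv (fPow w Q mul i r j t) v = Kb.Pow (v w) (v Q) (v mul) (v i) (v r) (v j) (v t) := by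
  simp only [fPow, Kb.Pow, bv_all, bv_ex, bv_imp, bv_and, bv_or, bv_neg, bv_iffB, bv_mem, bv_eq, Fin.cons_zero, Fin.cons_succ, bv_fApp, bv_fFunTo, bv_fEmp, bv_fSuc, bv_fApp2]

theorem bv_fSumLt {n : ℕ} (w Q add lt o ε e s : Fin n) (v : Fin n → BSet B) :
    bv (fSumLt w Q add lt o ε e s) v = Kb.SumLt (v w) (v Q) (v add) (v lt) (v o) (v ε) (v e) (v s) := by
  simp only [fSumLt, Kb.SumLt, bv_all, bv_ex, bv_imp, bv_and, bv_or, bv_neg, bv_iffB, bv_mem, bv_eq, Fin.cons_zero, Fin.cons_succ, bv_fApp, bv_fFunTo, bv_fEmp, bv_fSuc, bv_fApp2]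

theorem bv_fInJ {n : ℕ} (w Q add mul i x q r j : Fin n) (v : Fin n → BSet B) :
    bv (fInJ w Q add mul i x q r j) v = Kb.InJ (v w) (v Q) (v add) (v mul) (v i) (v x) (v q) (v r) (v j) := by
  simp only [fInJ, Kb.InJ, bv_all, bv_ex, bv_imp, bv_and, bv_or, bv_neg, bv_iffB, bv_mem, bv_eq, Fin.cons_zero, Fin.cons_succ, bv_fApp2, bv_fPow]

theorem bv_fNull1 {n : ℕ} (w Q add mul lt o i j ε Y : Fin n) (v : Fin n → BSet B) :
    bv (fNull1 w Q add mul lt o i j ε Y) v = Kb.Null1 (v w) (v Q) (v add) (v mul) (v lt) (v o) (v i) (v j) (v ε) (v Y) := by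
  simp only [fNull1, Kb.Null1, bv_all, bv_ex, bv_imp, bv_and, bv_or, bv_neg, bv_iffB, bv_mem, bv_eq, Fin.cons_zero, Fin.cons_succ, bv_fApp, bv_fFunTo, bv_fSumLt, bv_fInJ]

theorem bv_fNull2 {n : ℕ} (w Q add mul lt o i j ε X Y : Fin n) (v : Fin n → BSet B) :
    bv (fNull2 w Q add mul lt o i j ε X Y) v = Kb.Null2 (v w) (v Q) (v add) (v mul) (v lt) (v o) (v i) (v j) (v ε) (v X) (v Y) := by
  simp only [fNull2, Kb.Null2, bv_all, bv_ex, bv_imp, bv_and, bv_or, bv_neg, bv_iffB, bv_mem, bv_eq, Fin.cons_zero, Fin.cons_succ, bv_fApp, bv_fFunTo, bv_fSumLt, bv_fInJ]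

theorem bv_fDim1 {n : ℕ} (w Q add mul lt o i Y : Fin n) (v : Fin n → BSet B) :
    bv (fDim1 w Q add mul lt o i Y) v = Kb.Dim1 (v w) (v Q) (v add) (v mul) (v lt) (v o) (v i) (v Y) := by
  simp only [fDim1, Kb.Dim1, bv_all, bv_ex, bv_imp, bv_and, bv_or, bv_neg, bv_iffB, bv_mem, bv_eq, Fin.cons_zero, Fin.cons_succ, bv_fApp, bv_fEmp, bv_fNull1]

theorem bv_fDim2 {n : ℕ} (w Q add mul lt o i X Y : Fin n) (v : Fin n → BSet B) :
    bv (fDim2 w Q add mul lt o i X Y) v = Kb.Dim2 (v w) (v Q) (v add) (v mul) (v lt) (v o) (v i) (v X) (v Y) := by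
  simp only [fDim2, Kb.Dim2, bv_all, bv_ex, bv_imp, bv_and, bv_or, bv_neg, bv_iffB, bv_mem, bv_eq, Fin.cons_zero, Fin.cons_succ, bv_fApp, bv_fEmp, bv_fNull2]

theorem bv_fStatementI {n : ℕ} (w Q lt : Fin n) (v : Fin n → BSet B) :
    bv (fStatementI w Q lt) v = Kb.StatementI (v w) (v Q) (v lt) := by
  simp only [fStatementI, Kb.StatementI, bv_all, bv_ex, bv_imp, bv_and, bv_or, bv_neg, bv_iffB, bv_mem, bv_eq, Fin.cons_zero, Fin.cons_succ, bv_fSetOfReals, bv_fS1, bv_fUncountable]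

theorem bv_fStatementII {n : ℕ} (w Q add mul lt o i : Fin n) (v : Fin n → BSet B) :
    bv (fStatementII w Q add mul lt o i) v = Kb.StatementII (v w) (v Q) (v add) (v mul) (v lt) (v o) (v i) := by
  simp only [fStatementII, Kb.StatementII, bv_all, bv_ex, bv_imp, bv_and, bv_or, bv_neg, bv_iffB, bv_mem, bv_eq, Fin.cons_zero, Fin.cons_succ, bv_fSetOfReals, bv_fS1, bv_fDim1, bv_fDim2]

theorem bv_fKrawczyk :
    bv fKrawczyk (![] : Fin 0 → BSet B) = Kb.Krawczyk B := by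
  simp only [fKrawczyk, Kb.Krawczyk, bv_all, bv_ex, bv_imp, bv_and, bv_or, bv_neg, bv_iffB, bv_mem, bv_eq, Fin.cons_zero, Fin.cons_succ, bv_fOmega, bv_fRationals, bv_fStatementI, bv_fStatementII]

end bv

end Fml

end Pool.Agent.Lib.MP_4d8715_gt.KR
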