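import Pool.Agent.Lib.MP_4d8715_gt.KR.E.Deep
import Pool.Agent.Lib.MP_4d8715_gt.KR.N.Ext

/-!
# The Boolean readings respect equality

`Kb.ext_P_x`: `Kb.P` is extensional in the argument `x`.
-/

universe u

namespace Pool.Agent.Lib.MP_4d8715_gt.KR

namespace Kb

open BSet

variable {B : Type u} [CompleteBooleanAlgebra B]

theorem ext_Sub_x (y : BSet B) :
    Ext (fun x : BSet B => Sub x y) := by
  have h := Fml.ext_bv (B := B) (Fml.fSub (0 : Fin 2) (1 : Fin 2)) ![y]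
  simp only [Fml.bv_fSub] at h
  exact h

theorem ext_Sub_y (x : BSet B) :
    Ext (fun y : BSet B => Sub x y) := by
  have h := Fml.ext_bv (B := B) (Fml.fSub (1 : Fin 2) (0 : Fin 2)) ![x]
  simp only [Fml.bv_fSub] at h
  exact h

theorem ext_UPair_p (a b : BSet B) :
    Ext (fun p : BSet B => UPair p a b) := by
  have h := Fml.ext_bv (B := B) (Fml.fUPair (0 : Fin 3) (1 : Fin 3) (2 : Fin 3)) ![a, b]
  simp only [Fml.bv_fUPair] at h
  exact h

theorem ext_UPair_a (p b : BSet B) :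
    Ext (fun a : BSet B => UPair p a b) := by
  have h := Fml.ext_bv (B := B) (Fml.fUPair (1 : Fin 3) (0 : Fin 3) (2 : Fin 3)) ![p, b]
  simp only [Fml.bv_fUPair] at h
  exact h

theorem ext_UPair_b (p a : BSet B) :
    Ext (fun b : BSet B => UPair p a b) := by
  have h := Fml.ext_bv (B := B) (Fml.fUPair (1 : Fin 3) (2 : Fin 3) (0 : Fin 3)) ![p, a]
  simp only [Fml.bv_fUPair] at h
  exact h

theorem ext_Pair_p (a b : BSet B) :
    Ext (fun p : BSet B => Pair p a b) := by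
  have h := Fml.ext_bv (B := B) (Fml.fPair (0 : Fin 3) (1 : Fin 3) (2 : Fin 3)) ![a, b]
  simp only [Fml.bv_fPair] at h
  exact h

theorem ext_Pair_a (p b : BSet B) :
    Ext (fun a : BSet B => Pair p a b) := by
  have h := Fml.ext_bv (B := B) (Fml.fPair (1 : Fin 3) (0 : Fin 3) (2 : Fin 3)) ![p, b]
  simp only [Fml.bv_fPair] at h
  exact h

theorem ext_Pair_b (p a : BSet B) :
    Ext (fun b : BSet B => Pair p a b) := by
  have h := Fml.ext_bv (B := B) (Fml.fPair (1 : Fin 3) (2 : Fin 3) (0 : Fin 3)) ![p, a]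
  simp only [Fml.bv_fPair] at h
  exact h

theorem ext_App_f (a b : BSet B) :
    Ext (fun f : BSet B => App f a b) := by
  have h := Fml.ext_bv (B := B) (Fml.fApp (0 : Fin 3) (1 : Fin 3) (2 : Fin 3)) ![a, b]
  simp only [Fml.bv_fApp] at h
  exact h

theorem ext_App_a (f b : BSet B) :
    Ext (fun a : BSet B => App f a b) := by
  have h := Fml.ext_bv (B := B) (Fml.fApp (1 : Fin 3) (0 : Fin 3) (2 : Fin 3)) ![f, b]
  simp only [Fml.bv_fApp] at h
  exact h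

theorem ext_App_b (f a : BSet B) :
    Ext (fun b : BSet B => App f a b) := by
  have h := Fml.ext_bv (B := B) (Fml.fApp (1 : Fin 3) (2 : Fin 3) (0 : Fin 3)) ![f, a]
  simp only [Fml.bv_fApp] at h
  exact h

theorem ext_FunOn_f (d : BSet B) :
    Ext (fun f : BSet B => FunOn f d) := by
  have h := Fml.ext_bv (B := B) (Fml.fFunOn (0 : Fin 2) (1 : Fin 2)) ![d]
  simp only [Fml.bv_fFunOn] at h
  exact h

theorem ext_FunOn_d (f : BSet B) :
    Ext (fun d : BSet B => FunOn f d) := by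
  have h := Fml.ext_bv (B := B) (Fml.fFunOn (1 : Fin 2) (0 : Fin 2)) ![f]
  simp only [Fml.bv_fFunOn] at h
  exact h

theorem ext_FunTo_f (d r : BSet B) :
    Ext (fun f : BSet B => FunTo f d r) := by
  have h := Fml.ext_bv (B := B) (Fml.fFunTo (0 : Fin 3) (1 : Fin 3) (2 : Fin 3)) ![d, r]
  simp only [Fml.bv_fFunTo] at h
  exact h

theorem ext_FunTo_d (f r : BSet B) :
    Ext (fun d : BSet B => FunTo f d r) := by
  have h := Fml.ext_bv (B := B) (Fml.fFunTo (1 : Fin 3) (0 : Fin 3) (2 : Fin 3)) ![f, r]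
  simp only [Fml.bv_fFunTo] at h
  exact h

theorem ext_FunTo_r (f d : BSet B) :
    Ext (fun r : BSet B => FunTo f d r) := by
  have h := Fml.ext_bv (B := B) (Fml.fFunTo (1 : Fin 3) (2 : Fin 3) (0 : Fin 3)) ![f, d]
  simp only [Fml.bv_fFunTo] at h
  exact h

theorem ext_Emp_x :
    Ext (fun x : BSet B => Emp x) := by
  have h := Fml.ext_bv (B := B) (Fml.fEmp (0 : Fin 1)) ![]
  simp only [Fml.bv_fEmp] at h
  exact h

theorem ext_Suc_y (x : BSet B) :
    Ext (fun y : BSet B => Suc y x) := by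
  have h := Fml.ext_bv (B := B) (Fml.fSuc (0 : Fin 2) (1 : Fin 2)) ![x]
  simp only [Fml.bv_fSuc] at h
  exact h

theorem ext_Suc_x (y : BSet B) :
    Ext (fun x : BSet B => Suc y x) := by
  have h := Fml.ext_bv (B := B) (Fml.fSuc (1 : Fin 2) (0 : Fin 2)) ![y]
  simp only [Fml.bv_fSuc] at h
  exact h

theorem ext_Ind_w :
    Ext (fun w : BSet B => Ind w) := by
  have h := Fml.ext_bv (B := B) (Fml.fInd (0 : Fin 1)) ![]
  simp only [Fml.bv_fInd] at h
  exact h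

theorem ext_Omega_w :
    Ext (fun w : BSet B => Omega w) := by
  have h := Fml.ext_bv (B := B) (Fml.fOmega (0 : Fin 1)) ![]
  simp only [Fml.bv_fOmega] at h
  exact h

theorem ext_Finite_w (A : BSet B) :
    Ext (fun w : BSet B => Finite w A) := by
  have h := Fml.ext_bv (B := B) (Fml.fFinite (0 : Fin 2) (1 : Fin 2)) ![A]
  simp only [Fml.bv_fFinite] at h
  exact h

theorem ext_Finite_A (w : BSet B) :
    Ext (fun A : BSet B => Finite w A) := by
  have h := Fml.ext_bv (B := B) (Fml.fFinite (1 : Fin 2) (0 : Fin 2)) ![w]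
  simp only [Fml.bv_fFinite] at h
  exact h

theorem ext_App2_f (a b c : BSet B) :
    Ext (fun f : BSet B => App2 f a b c) := by
  have h := Fml.ext_bv (B := B) (Fml.fApp2 (0 : Fin 4) (1 : Fin 4) (2 : Fin 4) (3 : Fin 4)) ![a, b, c]
  simp only [Fml.bv_fApp2] at h
  exact h

theorem ext_App2_a (f b c : BSet B) :
    Ext (fun a : BSet B => App2 f a b c) := by
  have h := Fml.ext_bv (B := B) (Fml.fApp2 (1 : Fin 4) (0 : Fin 4) (2 : Fin 4) (3 : Fin 4)) ![f, b, c]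
  simp only [Fml.bv_fApp2] at h
  exact h

theorem ext_App2_b (f a c : BSet B) :
    Ext (fun b : BSet B => App2 f a b c) := by
  have h := Fml.ext_bv (B := B) (Fml.fApp2 (1 : Fin 4) (2 : Fin 4) (0 : Fin 4) (3 : Fin 4)) ![f, a, c]
  simp only [Fml.bv_fApp2] at h
  exact h

theorem ext_App2_c (f a b : BSet B) :
    Ext (fun c : BSet B => App2 f a b c) := by
  have h := Fml.ext_bv (B := B) (Fml.fApp2 (1 : Fin 4) (2 : Fin 4) (3 : Fin 4) (0 : Fin 4)) ![f, a, b]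
  simp only [Fml.bv_fApp2] at h
  exact h

theorem ext_BinOp_Q (f : BSet B) :
    Ext (fun Q : BSet B => BinOp Q f) := by
  have h := Fml.ext_bv (B := B) (Fml.fBinOp (0 : Fin 2) (1 : Fin 2)) ![f]
  simp only [Fml.bv_fBinOp] at h
  exact h

theorem ext_BinOp_f (Q : BSet B) :
    Ext (fun f : BSet B => BinOp Q f) := by
  have h := Fml.ext_bv (B := B) (Fml.fBinOp (1 : Fin 2) (0 : Fin 2)) ![Q]
  simp only [Fml.bv_fBinOp] at h
  exact h

theorem ext_Neutral_Q (f o : BSet B) :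
    Ext (fun Q : BSet B => Neutral Q f o) := by
  have h := Fml.ext_bv (B := B) (Fml.fNeutral (0 : Fin 3) (1 : Fin 3) (2 : Fin 3)) ![f, o]
  simp only [Fml.bv_fNeutral] at h
  exact h

theorem ext_Neutral_f (Q o : BSet B) :
    Ext (fun f : BSet B => Neutral Q f o) := by
  have h := Fml.ext_bv (B := B) (Fml.fNeutral (1 : Fin 3) (0 : Fin 3) (2 : Fin 3)) ![Q, o]
  simp only [Fml.bv_fNeutral] at h
  exact h

theorem ext_Neutral_o (Q f : BSet B) :
    Ext (fun o : BSet B => Neutral Q f o) := by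
  have h := Fml.ext_bv (B := B) (Fml.fNeutral (1 : Fin 3) (2 : Fin 3) (0 : Fin 3)) ![Q, f]
  simp only [Fml.bv_fNeutral] at h
  exact h

theorem ext_AssocComm_Q (f : BSet B) :
    Ext (fun Q : BSet B => AssocComm Q f) := by
  have h := Fml.ext_bv (B := B) (Fml.fAssocComm (0 : Fin 2) (1 : Fin 2)) ![f]
  simp only [Fml.bv_fAssocComm] at h
  exact h

theorem ext_AssocComm_f (Q : BSet B) :
    Ext (fun f : BSet B => AssocComm Q f) := by
  have h := Fml.ext_bv (B := B) (Fml.fAssocComm (1 : Fin 2) (0 : Fin 2)) ![Q]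
  simp only [Fml.bv_fAssocComm] at h
  exact h

theorem ext_OrdField_Q (add mul lt o i : BSet B) :
    Ext (fun Q : BSet B => OrdField Q add mul lt o i) := by
  have h := Fml.ext_bv (B := B) (Fml.fOrdField (0 : Fin 6) (1 : Fin 6) (2 : Fin 6) (3 : Fin 6) (4 : Fin 6) (5 : Fin 6)) ![add, mul, lt, o, i]
  simp only [Fml.bv_fOrdField] at h
  exact h

theorem ext_OrdField_add (Q mul lt o i : BSet B) :
    Ext (fun add : BSet B => OrdField Q add mul lt o i) := by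
  have h := Fml.ext_bv (B := B) (Fml.fOrdField (1 : Fin 6) (0 : Fin 6) (2 : Fin 6) (3 : Fin 6) (4 : Fin 6) (5 : Fin 6)) ![Q, mul, lt, o, i]
  simp only [Fml.bv_fOrdField] at h
  exact h

theorem ext_OrdField_mul (Q add lt o i : BSet B) :
    Ext (fun mul : BSet B => OrdField Q add mul lt o i) := by
  have h := Fml.ext_bv (B := B) (Fml.fOrdField (1 : Fin 6) (2 : Fin 6) (0 : Fin 6) (3 : Fin 6) (4 : Fin 6) (5 : Fin 6)) ![Q, add, lt, o, i]
  simp only [Fml.bv_fOrdField] at h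
  exact h

theorem ext_OrdField_lt (Q add mul o i : BSet B) :
    Ext (fun lt : BSet B => OrdField Q add mul lt o i) := by
  have h := Fml.ext_bv (B := B) (Fml.fOrdField (1 : Fin 6) (2 : Fin 6) (3 : Fin 6) (0 : Fin 6) (4 : Fin 6) (5 : Fin 6)) ![Q, add, mul, o, i]
  simp only [Fml.bv_fOrdField] at h
  exact h

theorem ext_OrdField_o (Q add mul lt i : BSet B) :
    Ext (fun o : BSet B => OrdField Q add mul lt o i) := by
  have h := Fml.ext_bv (B := B) (Fml.fOrdField (1 : Fin 6) (2 : Fin 6) (3 : Fin 6) (4 : Fin 6) (0 : Fin 6) (5 : Fin 6)) ![Q, add, mul, lt, i]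
  simp only [Fml.bv_fOrdField] at h
  exact h

theorem ext_OrdField_i (Q add mul lt o : BSet B) :
    Ext (fun i : BSet B => OrdField Q add mul lt o i) := by
  have h := Fml.ext_bv (B := B) (Fml.fOrdField (1 : Fin 6) (2 : Fin 6) (3 : Fin 6) (4 : Fin 6) (5 : Fin 6) (0 : Fin 6)) ![Q, add, mul, lt, o]
  simp only [Fml.bv_fOrdField] at h
  exact h

theorem ext_Subfield_Q (add mul o i K : BSet B) :
    Ext (fun Q : BSet B => Subfield Q add mul o i K) := by
  have h := Fml.ext_bv (B := B) (Fml.fSubfield (0 : Fin 6) (1 : Fin 6) (2 : Fin 6) (3 : Fin 6) (4 : Fin 6) (5 : Fin 6)) ![add, mul, o, i, K]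
  simp only [Fml.bv_fSubfield] at h
  exact h

theorem ext_Subfield_add (Q mul o i K : BSet B) :
    Ext (fun add : BSet B => Subfield Q add mul o i K) := by
  have h := Fml.ext_bv (B := B) (Fml.fSubfield (1 : Fin 6) (0 : Fin 6) (2 : Fin 6) (3 : Fin 6) (4 : Fin 6) (5 : Fin 6)) ![Q, mul, o, i, K]
  simp only [Fml.bv_fSubfield] at h
  exact h

theorem ext_Subfield_mul (Q add o i K : BSet B) :
    Ext (fun mul : BSet B => Subfield Q add mul o i K) := by
  have h := Fml.ext_bv (B := B) (Fml.fSubfield (1 : Fin 6) (2 : Fin 6) (0 : Fin 6) (3 : Fin 6) (4 : Fin 6) (5 : Fin 6)) ![Q, add, o, i, K]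
  simp only [Fml.bv_fSubfield] at h
  exact h

theorem ext_Subfield_o (Q add mul i K : BSet B) :
    Ext (fun o : BSet B => Subfield Q add mul o i K) := by
  have h := Fml.ext_bv (B := B) (Fml.fSubfield (1 : Fin 6) (2 : Fin 6) (3 : Fin 6) (0 : Fin 6) (4 : Fin 6) (5 : Fin 6)) ![Q, add, mul, i, K]
  simp only [Fml.bv_fSubfield] at h
  exact h

theorem ext_Subfield_i (Q add mul o K : BSet B) :
    Ext (fun i : BSet B => Subfield Q add mul o i K) := by
  have h := Fml.ext_bv (B := B) (Fml.fSubfield (1 : Fin 6) (2 : Fin 6) (3 : Fin 6) (4 : Fin 6) (0 : Fin 6) (5 : Fin 6)) ![Q, add, mul, o, K]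
  simp only [Fml.bv_fSubfield] at h
  exact h

theorem ext_Subfield_K (Q add mul o i : BSet B) :
    Ext (fun K : BSet B => Subfield Q add mul o i K) := by
  have h := Fml.ext_bv (B := B) (Fml.fSubfield (1 : Fin 6) (2 : Fin 6) (3 : Fin 6) (4 : Fin 6) (5 : Fin 6) (0 : Fin 6)) ![Q, add, mul, o, i]
  simp only [Fml.bv_fSubfield] at h
  exact h

theorem ext_Rationals_Q (add mul lt o i : BSet B) :
    Ext (fun Q : BSet B => Rationals Q add mul lt o i) := by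
  have h := Fml.ext_bv (B := B) (Fml.fRationals (0 : Fin 6) (1 : Fin 6) (2 : Fin 6) (3 : Fin 6) (4 : Fin 6) (5 : Fin 6)) ![add, mul, lt, o, i]
  simp only [Fml.bv_fRationals] at h
  exact h

theorem ext_Rationals_add (Q mul lt o i : BSet B) :
    Ext (fun add : BSet B => Rationals Q add mul lt o i) := by
  have h := Fml.ext_bv (B := B) (Fml.fRationals (1 : Fin 6) (0 : Fin 6) (2 : Fin 6) (3 : Fin 6) (4 : Fin 6) (5 : Fin 6)) ![Q, mul, lt, o, i]
  simp only [Fml.bv_fRationals] at h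
  exact h

theorem ext_Rationals_mul (Q add lt o i : BSet B) :
    Ext (fun mul : BSet B => Rationals Q add mul lt o i) := by
  have h := Fml.ext_bv (B := B) (Fml.fRationals (1 : Fin 6) (2 : Fin 6) (0 : Fin 6) (3 : Fin 6) (4 : Fin 6) (5 : Fin 6)) ![Q, add, lt, o, i]
  simp only [Fml.bv_fRationals] at h
  exact h

theorem ext_Rationals_lt (Q add mul o i : BSet B) :
    Ext (fun lt : BSet B => Rationals Q add mul lt o i) := by
  have h := Fml.ext_bv (B := B) (Fml.fRationals (1 : Fin 6) (2 : Fin 6) (3 : Fin 6) (0 : Fin 6) (4 : Fin 6) (5 : Fin 6)) ![Q, add, mul, o, i]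
  simp only [Fml.bv_fRationals] at h
  exact h

theorem ext_Rationals_o (Q add mul lt i : BSet B) :
    Ext (fun o : BSet B => Rationals Q add mul lt o i) := by
  have h := Fml.ext_bv (B := B) (Fml.fRationals (1 : Fin 6) (2 : Fin 6) (3 : Fin 6) (4 : Fin 6) (0 : Fin 6) (5 : Fin 6)) ![Q, add, mul, lt, i]
  simp only [Fml.bv_fRationals] at h
  exact h

theorem ext_Rationals_i (Q add mul lt o : BSet B) :
    Ext (fun i : BSet B => Rationals Q add mul lt o i) := by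
  have h := Fml.ext_bv (B := B) (Fml.fRationals (1 : Fin 6) (2 : Fin 6) (3 : Fin 6) (4 : Fin 6) (5 : Fin 6) (0 : Fin 6)) ![Q, add, mul, lt, o]
  simp only [Fml.bv_fRationals] at h
  exact h

theorem ext_Real_Q (lt x : BSet B) :
    Ext (fun Q : BSet B => Real Q lt x) := by
  have h := Fml.ext_bv (B := B) (Fml.fReal (0 : Fin 3) (1 : Fin 3) (2 : Fin 3)) ![lt, x]
  simp only [Fml.bv_fReal] at h
  exact h

theorem ext_Real_lt (Q x : BSet B) :
    Ext (fun lt : BSet B => Real Q lt x) := by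
  have h := Fml.ext_bv (B := B) (Fml.fReal (1 : Fin 3) (0 : Fin 3) (2 : Fin 3)) ![Q, x]
  simp only [Fml.bv_fReal] at h
  exact h

theorem ext_Real_x (Q lt : BSet B) :
    Ext (fun x : BSet B => Real Q lt x) := by
  have h := Fml.ext_bv (B := B) (Fml.fReal (1 : Fin 3) (2 : Fin 3) (0 : Fin 3)) ![Q, lt]
  simp only [Fml.bv_fReal] at h
  exact h

theorem ext_SetOfReals_Q (lt X : BSet B) :
    Ext (fun Q : BSet B => SetOfReals Q lt X) := by
  have h := Fml.ext_bv (B := B) (Fml.fSetOfReals (0 : Fin 3) (1 : Fin 3) (2 : Fin 3)) ![lt, X]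
  simp only [Fml.bv_fSetOfReals] at h
  exact h

theorem ext_SetOfReals_lt (Q X : BSet B) :
    Ext (fun lt : BSet B => SetOfReals Q lt X) := by
  have h := Fml.ext_bv (B := B) (Fml.fSetOfReals (1 : Fin 3) (0 : Fin 3) (2 : Fin 3)) ![Q, X]
  simp only [Fml.bv_fSetOfReals] at h
  exact h

theorem ext_SetOfReals_X (Q lt : BSet B) :
    Ext (fun X : BSet B => SetOfReals Q lt X) := by
  have h := Fml.ext_bv (B := B) (Fml.fSetOfReals (1 : Fin 3) (2 : Fin 3) (0 : Fin 3)) ![Q, lt]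
  simp only [Fml.bv_fSetOfReals] at h
  exact h

theorem ext_LtRat_Q (lt x b : BSet B) :
    Ext (fun Q : BSet B => LtRat Q lt x b) := by
  have h := Fml.ext_bv (B := B) (Fml.fLtRat (0 : Fin 4) (1 : Fin 4) (2 : Fin 4) (3 : Fin 4)) ![lt, x, b]
  simp only [Fml.bv_fLtRat] at h
  exact h

theorem ext_LtRat_lt (Q x b : BSet B) :
    Ext (fun lt : BSet B => LtRat Q lt x b) := by
  have h := Fml.ext_bv (B := B) (Fml.fLtRat (1 : Fin 4) (0 : Fin 4) (2 : Fin 4) (3 : Fin 4)) ![Q, x, b]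
  simp only [Fml.bv_fLtRat] at h
  exact h

theorem ext_LtRat_x (Q lt b : BSet B) :
    Ext (fun x : BSet B => LtRat Q lt x b) := by
  have h := Fml.ext_bv (B := B) (Fml.fLtRat (1 : Fin 4) (2 : Fin 4) (0 : Fin 4) (3 : Fin 4)) ![Q, lt, b]
  simp only [Fml.bv_fLtRat] at h
  exact h

theorem ext_LtRat_b (Q lt x : BSet B) :
    Ext (fun b : BSet B => LtRat Q lt x b) := by
  have h := Fml.ext_bv (B := B) (Fml.fLtRat (1 : Fin 4) (2 : Fin 4) (3 : Fin 4) (0 : Fin 4)) ![Q, lt, x]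
  simp only [Fml.bv_fLtRat] at h
  exact h

theorem ext_InI_Q (lt x a b : BSet B) :
    Ext (fun Q : BSet B => InI Q lt x a b) := by
  have h := Fml.ext_bv (B := B) (Fml.fInI (0 : Fin 5) (1 : Fin 5) (2 : Fin 5) (3 : Fin 5) (4 : Fin 5)) ![lt, x, a, b]
  simp only [Fml.bv_fInI] at h
  exact h

theorem ext_InI_lt (Q x a b : BSet B) :
    Ext (fun lt : BSet B => InI Q lt x a b) := by
  have h := Fml.ext_bv (B := B) (Fml.fInI (1 : Fin 5) (0 : Fin 5) (2 : Fin 5) (3 : Fin 5) (4 : Fin 5)) ![Q, x, a, b]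
  simp only [Fml.bv_fInI] at h
  exact h

theorem ext_InI_x (Q lt a b : BSet B) :
    Ext (fun x : BSet B => InI Q lt x a b) := by
  have h := Fml.ext_bv (B := B) (Fml.fInI (1 : Fin 5) (2 : Fin 5) (0 : Fin 5) (3 : Fin 5) (4 : Fin 5)) ![Q, lt, a, b]
  simp only [Fml.bv_fInI] at h
  exact h

theorem ext_InI_a (Q lt x b : BSet B) :
    Ext (fun a : BSet B => InI Q lt x a b) := by
  have h := Fml.ext_bv (B := B) (Fml.fInI (1 : Fin 5) (2 : Fin 5) (3 : Fin 5) (0 : Fin 5) (4 : Fin 5)) ![Q, lt, x, b]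
  simp only [Fml.bv_fInI] at h
  exact h

theorem ext_InI_b (Q lt x a : BSet B) :
    Ext (fun b : BSet B => InI Q lt x a b) := by
  have h := Fml.ext_bv (B := B) (Fml.fInI (1 : Fin 5) (2 : Fin 5) (3 : Fin 5) (4 : Fin 5) (0 : Fin 5)) ![Q, lt, x, a]
  simp only [Fml.bv_fInI] at h
  exact h

theorem ext_OpenIn_Q (lt V X : BSet B) :
    Ext (fun Q : BSet B => OpenIn Q lt V X) := by
  have h := Fml.ext_bv (B := B) (Fml.fOpenIn (0 : Fin 4) (1 : Fin 4) (2 : Fin 4) (3 : Fin 4)) ![lt, V, X]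
  simp only [Fml.bv_fOpenIn] at h
  exact h

theorem ext_OpenIn_lt (Q V X : BSet B) :
    Ext (fun lt : BSet B => OpenIn Q lt V X) := by
  have h := Fml.ext_bv (B := B) (Fml.fOpenIn (1 : Fin 4) (0 : Fin 4) (2 : Fin 4) (3 : Fin 4)) ![Q, V, X]
  simp only [Fml.bv_fOpenIn] at h
  exact h

theorem ext_OpenIn_V (Q lt X : BSet B) :
    Ext (fun V : BSet B => OpenIn Q lt V X) := by
  have h := Fml.ext_bv (B := B) (Fml.fOpenIn (1 : Fin 4) (2 : Fin 4) (0 : Fin 4) (3 : Fin 4)) ![Q, lt, X]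
  simp only [Fml.bv_fOpenIn] at h
  exact h

theorem ext_OpenIn_X (Q lt V : BSet B) :
    Ext (fun X : BSet B => OpenIn Q lt V X) := by
  have h := Fml.ext_bv (B := B) (Fml.fOpenIn (1 : Fin 4) (2 : Fin 4) (3 : Fin 4) (0 : Fin 4)) ![Q, lt, V]
  simp only [Fml.bv_fOpenIn] at h
  exact h

theorem ext_Cover_Q (lt U X : BSet B) :
    Ext (fun Q : BSet B => Cover Q lt U X) := by
  have h := Fml.ext_bv (B := B) (Fml.fCover (0 : Fin 4) (1 : Fin 4) (2 : Fin 4) (3 : Fin 4)) ![lt, U, X]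
  simp only [Fml.bv_fCover] at h
  exact h

theorem ext_Cover_lt (Q U X : BSet B) :
    Ext (fun lt : BSet B => Cover Q lt U X) := by
  have h := Fml.ext_bv (B := B) (Fml.fCover (1 : Fin 4) (0 : Fin 4) (2 : Fin 4) (3 : Fin 4)) ![Q, U, X]
  simp only [Fml.bv_fCover] at h
  exact h

theorem ext_Cover_U (Q lt X : BSet B) :
    Ext (fun U : BSet B => Cover Q lt U X) := by
  have h := Fml.ext_bv (B := B) (Fml.fCover (1 : Fin 4) (2 : Fin 4) (0 : Fin 4) (3 : Fin 4)) ![Q, lt, X]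
  simp only [Fml.bv_fCover] at h
  exact h

theorem ext_Cover_X (Q lt U : BSet B) :
    Ext (fun X : BSet B => Cover Q lt U X) := by
  have h := Fml.ext_bv (B := B) (Fml.fCover (1 : Fin 4) (2 : Fin 4) (3 : Fin 4) (0 : Fin 4)) ![Q, lt, U]
  simp only [Fml.bv_fCover] at h
  exact h

theorem ext_OmegaCover_w (Q lt U X : BSet B) :
    Ext (fun w : BSet B => OmegaCover w Q lt U X) := by
  have h := Fml.ext_bv (B := B) (Fml.fOmegaCover (0 : Fin 5) (1 : Fin 5) (2 : Fin 5) (3 : Fin 5) (4 : Fin 5)) ![Q, lt, U, X]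
  simp only [Fml.bv_fOmegaCover] at h
  exact h

theorem ext_OmegaCover_Q (w lt U X : BSet B) :
    Ext (fun Q : BSet B => OmegaCover w Q lt U X) := by
  have h := Fml.ext_bv (B := B) (Fml.fOmegaCover (1 : Fin 5) (0 : Fin 5) (2 : Fin 5) (3 : Fin 5) (4 : Fin 5)) ![w, lt, U, X]
  simp only [Fml.bv_fOmegaCover] at h
  exact h

theorem ext_OmegaCover_lt (w Q U X : BSet B) :
    Ext (fun lt : BSet B => OmegaCover w Q lt U X) := by
  have h := Fml.ext_bv (B := B) (Fml.fOmegaCover (1 : Fin 5) (2 : Fin 5) (0 : Fin 5) (3 : Fin 5) (4 : Fin 5)) ![w, Q, U, X]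
  simp only [Fml.bv_fOmegaCover] at h
  exact h

theorem ext_OmegaCover_U (w Q lt X : BSet B) :
    Ext (fun U : BSet B => OmegaCover w Q lt U X) := by
  have h := Fml.ext_bv (B := B) (Fml.fOmegaCover (1 : Fin 5) (2 : Fin 5) (3 : Fin 5) (0 : Fin 5) (4 : Fin 5)) ![w, Q, lt, X]
  simp only [Fml.bv_fOmegaCover] at h
  exact h

theorem ext_OmegaCover_X (w Q lt U : BSet B) :
    Ext (fun X : BSet B => OmegaCover w Q lt U X) := by
  have h := Fml.ext_bv (B := B) (Fml.fOmegaCover (1 : Fin 5) (2 : Fin 5) (3 : Fin 5) (4 : Fin 5) (0 : Fin 5)) ![w, Q, lt, U]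
  simp only [Fml.bv_fOmegaCover] at h
  exact h

theorem ext_GammaCover_w (Q lt U X : BSet B) :
    Ext (fun w : BSet B => GammaCover w Q lt U X) := by
  have h := Fml.ext_bv (B := B) (Fml.fGammaCover (0 : Fin 5) (1 : Fin 5) (2 : Fin 5) (3 : Fin 5) (4 : Fin 5)) ![Q, lt, U, X]
  simp only [Fml.bv_fGammaCover] at h
  exact h

theorem ext_GammaCover_Q (w lt U X : BSet B) :
    Ext (fun Q : BSet B => GammaCover w Q lt U X) := by
  have h := Fml.ext_bv (B := B) (Fml.fGammaCover (1 : Fin 5) (0 : Fin 5) (2 : Fin 5) (3 : Fin 5) (4 : Fin 5)) ![w, lt, U, X]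
  simp only [Fml.bv_fGammaCover] at h
  exact h

theorem ext_GammaCover_lt (w Q U X : BSet B) :
    Ext (fun lt : BSet B => GammaCover w Q lt U X) := by
  have h := Fml.ext_bv (B := B) (Fml.fGammaCover (1 : Fin 5) (2 : Fin 5) (0 : Fin 5) (3 : Fin 5) (4 : Fin 5)) ![w, Q, U, X]
  simp only [Fml.bv_fGammaCover] at h
  exact h

theorem ext_GammaCover_U (w Q lt X : BSet B) :
    Ext (fun U : BSet B => GammaCover w Q lt U X) := by
  have h := Fml.ext_bv (B := B) (Fml.fGammaCover (1 : Fin 5) (2 : Fin 5) (3 : Fin 5) (0 : Fin 5) (4 : Fin 5)) ![w, Q, lt, X]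
  simp only [Fml.bv_fGammaCover] at h
  exact h

theorem ext_GammaCover_X (w Q lt U : BSet B) :
    Ext (fun X : BSet B => GammaCover w Q lt U X) := by
  have h := Fml.ext_bv (B := B) (Fml.fGammaCover (1 : Fin 5) (2 : Fin 5) (3 : Fin 5) (4 : Fin 5) (0 : Fin 5)) ![w, Q, lt, U]
  simp only [Fml.bv_fGammaCover] at h
  exact h

theorem ext_S1_w (Q lt X : BSet B) :
    Ext (fun w : BSet B => S1 w Q lt X) := by
  have h := Fml.ext_bv (B := B) (Fml.fS1 (0 : Fin 4) (1 : Fin 4) (2 : Fin 4) (3 : Fin 4)) ![Q, lt, X]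
  simp only [Fml.bv_fS1] at h
  exact h

theorem ext_S1_Q (w lt X : BSet B) :
    Ext (fun Q : BSet B => S1 w Q lt X) := by
  have h := Fml.ext_bv (B := B) (Fml.fS1 (1 : Fin 4) (0 : Fin 4) (2 : Fin 4) (3 : Fin 4)) ![w, lt, X]
  simp only [Fml.bv_fS1] at h
  exact h

theorem ext_S1_lt (w Q X : BSet B) :
    Ext (fun lt : BSet B => S1 w Q lt X) := by
  have h := Fml.ext_bv (B := B) (Fml.fS1 (1 : Fin 4) (2 : Fin 4) (0 : Fin 4) (3 : Fin 4)) ![w, Q, X]
  simp only [Fml.bv_fS1] at h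
  exact h

theorem ext_S1_X (w Q lt : BSet B) :
    Ext (fun X : BSet B => S1 w Q lt X) := by
  have h := Fml.ext_bv (B := B) (Fml.fS1 (1 : Fin 4) (2 : Fin 4) (3 : Fin 4) (0 : Fin 4)) ![w, Q, lt]
  simp only [Fml.bv_fS1] at h
  exact h

theorem ext_Uncountable_w (X : BSet B) :
    Ext (fun w : BSet B => Uncountable w X) := by
  have h := Fml.ext_bv (B := B) (Fml.fUncountable (0 : Fin 2) (1 : Fin 2)) ![X]
  simp only [Fml.bv_fUncountable] at h
  exact h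

theorem ext_Uncountable_X (w : BSet B) :
    Ext (fun X : BSet B => Uncountable w X) := by
  have h := Fml.ext_bv (B := B) (Fml.fUncountable (1 : Fin 2) (0 : Fin 2)) ![w]
  simp only [Fml.bv_fUncountable] at h
  exact h

theorem ext_Pow_w (Q mul i r j t : BSet B) :
    Ext (fun w : BSet B => Pow w Q mul i r j t) := by
  have h := Fml.ext_bv (B := B) (Fml.fPow (0 : Fin 7) (1 : Fin 7) (2 : Fin 7) (3 : Fin 7) (4 : Fin 7) (5 : Fin 7) (6 : Fin 7)) ![Q, mul, i, r, j, t]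
  simp only [Fml.bv_fPow] at h
  exact h

theorem ext_Pow_Q (w mul i r j t : BSet B) :
    Ext (fun Q : BSet B => Pow w Q mul i r j t) := by
  have h := Fml.ext_bv (B := B) (Fml.fPow (1 : Fin 7) (0 : Fin 7) (2 : Fin 7) (3 : Fin 7) (4 : Fin 7) (5 : Fin 7) (6 : Fin 7)) ![w, mul, i, r, j, t]
  simp only [Fml.bv_fPow] at h
  exact h

theorem ext_Pow_mul (w Q i r j t : BSet B) :
    Ext (fun mul : BSet B => Pow w Q mul i r j t) := by
  have h := Fml.ext_bv (B := B) (Fml.fPow (1 : Fin 7) (2 : Fin 7) (0 : Fin 7) (3 : Fin 7) (4 : Fin 7) (5 : Fin 7) (6 : Fin 7)) ![w, Q, i, r, j, t]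
  simp only [Fml.bv_fPow] at h
  exact h

theorem ext_Pow_i (w Q mul r j t : BSet B) :
    Ext (fun i : BSet B => Pow w Q mul i r j t) := by
  have h := Fml.ext_bv (B := B) (Fml.fPow (1 : Fin 7) (2 : Fin 7) (3 : Fin 7) (0 : Fin 7) (4 : Fin 7) (5 : Fin 7) (6 : Fin 7)) ![w, Q, mul, r, j, t]
  simp only [Fml.bv_fPow] at h
  exact h

theorem ext_Pow_r (w Q mul i j t : BSet B) :
    Ext (fun r : BSet B => Pow w Q mul i r j t) := by
  have h := Fml.ext_bv (B := B) (Fml.fPow (1 : Fin 7) (2 : Fin 7) (3 : Fin 7) (4 : Fin 7) (0 : Fin 7) (5 : Fin 7) (6 : Fin 7)) ![w, Q, mul, i, j, t]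
  simp only [Fml.bv_fPow] at h
  exact h

theorem ext_Pow_j (w Q mul i r t : BSet B) :
    Ext (fun j : BSet B => Pow w Q mul i r j t) := by
  have h := Fml.ext_bv (B := B) (Fml.fPow (1 : Fin 7) (2 : Fin 7) (3 : Fin 7) (4 : Fin 7) (5 : Fin 7) (0 : Fin 7) (6 : Fin 7)) ![w, Q, mul, i, r, t]
  simp only [Fml.bv_fPow] at h
  exact h

theorem ext_Pow_t (w Q mul i r j : BSet B) :
    Ext (fun t : BSet B => Pow w Q mul i r j t) := by
  have h := Fml.ext_bv (B := B) (Fml.fPow (1 : Fin 7) (2 : Fin 7) (3 : Fin 7) (4 : Fin 7) (5 : Fin 7) (6 : Fin 7) (0 : Fin 7)) ![w, Q, mul, i, r, j]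
  simp only [Fml.bv_fPow] at h
  exact h

theorem ext_SumLt_w (Q add lt o ε e s : BSet B) :
    Ext (fun w : BSet B => SumLt w Q add lt o ε e s) := by
  have h := Fml.ext_bv (B := B) (Fml.fSumLt (0 : Fin 8) (1 : Fin 8) (2 : Fin 8) (3 : Fin 8) (4 : Fin 8) (5 : Fin 8) (6 : Fin 8) (7 : Fin 8)) ![Q, add, lt, o, ε, e, s]
  simp only [Fml.bv_fSumLt] at h
  exact h

theorem ext_SumLt_Q (w add lt o ε e s : BSet B) :
    Ext (fun Q : BSet B => SumLt w Q add lt o ε e s) := by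
  have h := Fml.ext_bv (B := B) (Fml.fSumLt (1 : Fin 8) (0 : Fin 8) (2 : Fin 8) (3 : Fin 8) (4 : Fin 8) (5 : Fin 8) (6 : Fin 8) (7 : Fin 8)) ![w, add, lt, o, ε, e, s]
  simp only [Fml.bv_fSumLt] at h
  exact h

theorem ext_SumLt_add (w Q lt o ε e s : BSet B) :
    Ext (fun add : BSet B => SumLt w Q add lt o ε e s) := by
  have h := Fml.ext_bv (B := B) (Fml.fSumLt (1 : Fin 8) (2 : Fin 8) (0 : Fin 8) (3 : Fin 8) (4 : Fin 8) (5 : Fin 8) (6 : Fin 8) (7 : Fin 8)) ![w, Q, lt, o, ε, e, s]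
  simp only [Fml.bv_fSumLt] at h
  exact h

theorem ext_SumLt_lt (w Q add o ε e s : BSet B) :
    Ext (fun lt : BSet B => SumLt w Q add lt o ε e s) := by
  have h := Fml.ext_bv (B := B) (Fml.fSumLt (1 : Fin 8) (2 : Fin 8) (3 : Fin 8) (0 : Fin 8) (4 : Fin 8) (5 : Fin 8) (6 : Fin 8) (7 : Fin 8)) ![w, Q, add, o, ε, e, s]
  simp only [Fml.bv_fSumLt] at h
  exact h

theorem ext_SumLt_o (w Q add lt ε e s : BSet B) :
    Ext (fun o : BSet B => SumLt w Q add lt o ε e s) := by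
  have h := Fml.ext_bv (B := B) (Fml.fSumLt (1 : Fin 8) (2 : Fin 8) (3 : Fin 8) (4 : Fin 8) (0 : Fin 8) (5 : Fin 8) (6 : Fin 8) (7 : Fin 8)) ![w, Q, add, lt, ε, e, s]
  simp only [Fml.bv_fSumLt] at h
  exact h

theorem ext_SumLt_ε (w Q add lt o e s : BSet B) :
    Ext (fun ε : BSet B => SumLt w Q add lt o ε e s) := by
  have h := Fml.ext_bv (B := B) (Fml.fSumLt (1 : Fin 8) (2 : Fin 8) (3 : Fin 8) (4 : Fin 8) (5 : Fin 8) (0 : Fin 8) (6 : Fin 8) (7 : Fin 8)) ![w, Q, add, lt, o, e, s]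
  simp only [Fml.bv_fSumLt] at h
  exact h

theorem ext_SumLt_e (w Q add lt o ε s : BSet B) :
    Ext (fun e : BSet B => SumLt w Q add lt o ε e s) := by
  have h := Fml.ext_bv (B := B) (Fml.fSumLt (1 : Fin 8) (2 : Fin 8) (3 : Fin 8) (4 : Fin 8) (5 : Fin 8) (6 : Fin 8) (0 : Fin 8) (7 : Fin 8)) ![w, Q, add, lt, o, ε, s]
  simp only [Fml.bv_fSumLt] at h
  exact h

theorem ext_SumLt_s (w Q add lt o ε e : BSet B) :
    Ext (fun s : BSet B => SumLt w Q add lt o ε e s) := by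
  have h := Fml.ext_bv (B := B) (Fml.fSumLt (1 : Fin 8) (2 : Fin 8) (3 : Fin 8) (4 : Fin 8) (5 : Fin 8) (6 : Fin 8) (7 : Fin 8) (0 : Fin 8)) ![w, Q, add, lt, o, ε, e]
  simp only [Fml.bv_fSumLt] at h
  exact h

theorem ext_InJ_w (Q add mul i x q r j : BSet B) :
    Ext (fun w : BSet B => InJ w Q add mul i x q r j) := by
  have h := Fml.ext_bv (B := B) (Fml.fInJ (0 : Fin 9) (1 : Fin 9) (2 : Fin 9) (3 : Fin 9) (4 : Fin 9) (5 : Fin 9) (6 : Fin 9) (7 : Fin 9) (8 : Fin 9)) ![Q, add, mul, i, x, q, r, j]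
  simp only [Fml.bv_fInJ] at h
  exact h

theorem ext_InJ_Q (w add mul i x q r j : BSet B) :
    Ext (fun Q : BSet B => InJ w Q add mul i x q r j) := by
  have h := Fml.ext_bv (B := B) (Fml.fInJ (1 : Fin 9) (0 : Fin 9) (2 : Fin 9) (3 : Fin 9) (4 : Fin 9) (5 : Fin 9) (6 : Fin 9) (7 : Fin 9) (8 : Fin 9)) ![w, add, mul, i, x, q, r, j]
  simp only [Fml.bv_fInJ] at h
  exact h

theorem ext_InJ_add (w Q mul i x q r j : BSet B) :
    Ext (fun add : BSet B => InJ w Q add mul i x q r j) := by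
  have h := Fml.ext_bv (B := B) (Fml.fInJ (1 : Fin 9) (2 : Fin 9) (0 : Fin 9) (3 : Fin 9) (4 : Fin 9) (5 : Fin 9) (6 : Fin 9) (7 : Fin 9) (8 : Fin 9)) ![w, Q, mul, i, x, q, r, j]
  simp only [Fml.bv_fInJ] at h
  exact h

theorem ext_InJ_mul (w Q add i x q r j : BSet B) :
    Ext (fun mul : BSet B => InJ w Q add mul i x q r j) := by
  have h := Fml.ext_bv (B := B) (Fml.fInJ (1 : Fin 9) (2 : Fin 9) (3 : Fin 9) (0 : Fin 9) (4 : Fin 9) (5 : Fin 9) (6 : Fin 9) (7 : Fin 9) (8 : Fin 9)) ![w, Q, add, i, x, q, r, j]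
  simp only [Fml.bv_fInJ] at h
  exact h

theorem ext_InJ_i (w Q add mul x q r j : BSet B) :
    Ext (fun i : BSet B => InJ w Q add mul i x q r j) := by
  have h := Fml.ext_bv (B := B) (Fml.fInJ (1 : Fin 9) (2 : Fin 9) (3 : Fin 9) (4 : Fin 9) (0 : Fin 9) (5 : Fin 9) (6 : Fin 9) (7 : Fin 9) (8 : Fin 9)) ![w, Q, add, mul, x, q, r, j]
  simp only [Fml.bv_fInJ] at h
  exact h

theorem ext_InJ_x (w Q add mul i q r j : BSet B) :
    Ext (fun x : BSet B => InJ w Q add mul i x q r j) := by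
  have h := Fml.ext_bv (B := B) (Fml.fInJ (1 : Fin 9) (2 : Fin 9) (3 : Fin 9) (4 : Fin 9) (5 : Fin 9) (0 : Fin 9) (6 : Fin 9) (7 : Fin 9) (8 : Fin 9)) ![w, Q, add, mul, i, q, r, j]
  simp only [Fml.bv_fInJ] at h
  exact h

theorem ext_InJ_q (w Q add mul i x r j : BSet B) :
    Ext (fun q : BSet B => InJ w Q add mul i x q r j) := by
  have h := Fml.ext_bv (B := B) (Fml.fInJ (1 : Fin 9) (2 : Fin 9) (3 : Fin 9) (4 : Fin 9) (5 : Fin 9) (6 : Fin 9) (0 : Fin 9) (7 : Fin 9) (8 : Fin 9)) ![w, Q, add, mul, i, x, r, j]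
  simp only [Fml.bv_fInJ] at h
  exact h

theorem ext_InJ_r (w Q add mul i x q j : BSet B) :
    Ext (fun r : BSet B => InJ w Q add mul i x q r j) := by
  have h := Fml.ext_bv (B := B) (Fml.fInJ (1 : Fin 9) (2 : Fin 9) (3 : Fin 9) (4 : Fin 9) (5 : Fin 9) (6 : Fin 9) (7 : Fin 9) (0 : Fin 9) (8 : Fin 9)) ![w, Q, add, mul, i, x, q, j]
  simp only [Fml.bv_fInJ] at h
  exact h

theorem ext_InJ_j (w Q add mul i x q r : BSet B) :
    Ext (fun j : BSet B => InJ w Q add mul i x q r j) := by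
  have h := Fml.ext_bv (B := B) (Fml.fInJ (1 : Fin 9) (2 : Fin 9) (3 : Fin 9) (4 : Fin 9) (5 : Fin 9) (6 : Fin 9) (7 : Fin 9) (8 : Fin 9) (0 : Fin 9)) ![w, Q, add, mul, i, x, q, r]
  simp only [Fml.bv_fInJ] at h
  exact h

theorem ext_Null1_w (Q add mul lt o i j ε Y : BSet B) :
    Ext (fun w : BSet B => Null1 w Q add mul lt o i j ε Y) := by
  have h := Fml.ext_bv (B := B) (Fml.fNull1 (0 : Fin 10) (1 : Fin 10) (2 : Fin 10) (3 : Fin 10) (4 : Fin 10) (5 : Fin 10) (6 : Fin 10) (7 : Fin 10) (8 : Fin 10) (9 : Fin 10)) ![Q, add, mul, lt, o, i, j, ε, Y]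
  simp only [Fml.bv_fNull1] at h
  exact h

theorem ext_Null1_Q (w add mul lt o i j ε Y : BSet B) :
    Ext (fun Q : BSet B => Null1 w Q add mul lt o i j ε Y) := by
  have h := Fml.ext_bv (B := B) (Fml.fNull1 (1 : Fin 10) (0 : Fin 10) (2 : Fin 10) (3 : Fin 10) (4 : Fin 10) (5 : Fin 10) (6 : Fin 10) (7 : Fin 10) (8 : Fin 10) (9 : Fin 10)) ![w, add, mul, lt, o, i, j, ε, Y]
  simp only [Fml.bv_fNull1] at h
  exact h

theorem ext_Null1_add (w Q mul lt o i j ε Y : BSet B) :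
    Ext (fun add : BSet B => Null1 w Q add mul lt o i j ε Y) := by
  have h := Fml.ext_bv (B := B) (Fml.fNull1 (1 : Fin 10) (2 : Fin 10) (0 : Fin 10) (3 : Fin 10) (4 : Fin 10) (5 : Fin 10) (6 : Fin 10) (7 : Fin 10) (8 : Fin 10) (9 : Fin 10)) ![w, Q, mul, lt, o, i, j, ε, Y]
  simp only [Fml.bv_fNull1] at h
  exact h

theorem ext_Null1_mul (w Q add lt o i j ε Y : BSet B) :
    Ext (fun mul : BSet B => Null1 w Q add mul lt o i j ε Y) := by
  have h := Fml.ext_bv (B := B) (Fml.fNull1 (1 : Fin 10) (2 : Fin 10) (3 : Fin 10) (0 : Fin 10) (4 : Fin 10) (5 : Fin 10) (6 : Fin 10) (7 : Fin 10) (8 : Fin 10) (9 : Fin 10)) ![w, Q, add, lt, o, i, j, ε, Y]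
  simp only [Fml.bv_fNull1] at h
  exact h

theorem ext_Null1_lt (w Q add mul o i j ε Y : BSet B) :
    Ext (fun lt : BSet B => Null1 w Q add mul lt o i j ε Y) := by
  have h := Fml.ext_bv (B := B) (Fml.fNull1 (1 : Fin 10) (2 : Fin 10) (3 : Fin 10) (4 : Fin 10) (0 : Fin 10) (5 : Fin 10) (6 : Fin 10) (7 : Fin 10) (8 : Fin 10) (9 : Fin 10)) ![w, Q, add, mul, o, i, j, ε, Y]
  simp only [Fml.bv_fNull1] at h
  exact h

theorem ext_Null1_o (w Q add mul lt i j ε Y : BSet B) :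
    Ext (fun o : BSet B => Null1 w Q add mul lt o i j ε Y) := by
  have h := Fml.ext_bv (B := B) (Fml.fNull1 (1 : Fin 10) (2 : Fin 10) (3 : Fin 10) (4 : Fin 10) (5 : Fin 10) (0 : Fin 10) (6 : Fin 10) (7 : Fin 10) (8 : Fin 10) (9 : Fin 10)) ![w, Q, add, mul, lt, i, j, ε, Y]
  simp only [Fml.bv_fNull1] at h
  exact h

theorem ext_Null1_i (w Q add mul lt o j ε Y : BSet B) :
    Ext (fun i : BSet B => Null1 w Q add mul lt o i j ε Y) := by
  have h := Fml.ext_bv (B := B) (Fml.fNull1 (1 : Fin 10) (2 : Fin 10) (3 : Fin 10) (4 : Fin 10) (5 : Fin 10) (6 : Fin 10) (0 : Fin 10) (7 : Fin 10) (8 : Fin 10) (9 : Fin 10)) ![w, Q, add, mul, lt, o, j, ε, Y]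
  simp only [Fml.bv_fNull1] at h
  exact h

theorem ext_Null1_j (w Q add mul lt o i ε Y : BSet B) :
    Ext (fun j : BSet B => Null1 w Q add mul lt o i j ε Y) := by
  have h := Fml.ext_bv (B := B) (Fml.fNull1 (1 : Fin 10) (2 : Fin 10) (3 : Fin 10) (4 : Fin 10) (5 : Fin 10) (6 : Fin 10) (7 : Fin 10) (0 : Fin 10) (8 : Fin 10) (9 : Fin 10)) ![w, Q, add, mul, lt, o, i, ε, Y]
  simp only [Fml.bv_fNull1] at h
  exact h

theorem ext_Null1_ε (w Q add mul lt o i j Y : BSet B) :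
    Ext (fun ε : BSet B => Null1 w Q add mul lt o i j ε Y) := by
  have h := Fml.ext_bv (B := B) (Fml.fNull1 (1 : Fin 10) (2 : Fin 10) (3 : Fin 10) (4 : Fin 10) (5 : Fin 10) (6 : Fin 10) (7 : Fin 10) (8 : Fin 10) (0 : Fin 10) (9 : Fin 10)) ![w, Q, add, mul, lt, o, i, j, Y]
  simp only [Fml.bv_fNull1] at h
  exact h

theorem ext_Null1_Y (w Q add mul lt o i j ε : BSet B) :
    Ext (fun Y : BSet B => Null1 w Q add mul lt o i j ε Y) := by
  have h := Fml.ext_bv (B := B) (Fml.fNull1 (1 : Fin 10) (2 : Fin 10) (3 : Fin 10) (4 : Fin 10) (5 : Fin 10) (6 : Fin 10) (7 : Fin 10) (8 : Fin 10) (9 : Fin 10) (0 : Fin 10)) ![w, Q, add, mul, lt, o, i, j, ε]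
  simp only [Fml.bv_fNull1] at h
  exact h

theorem ext_Null2_w (Q add mul lt o i j ε X Y : BSet B) :
    Ext (fun w : BSet B => Null2 w Q add mul lt o i j ε X Y) := by
  have h := Fml.ext_bv (B := B) (Fml.fNull2 (0 : Fin 11) (1 : Fin 11) (2 : Fin 11) (3 : Fin 11) (4 : Fin 11) (5 : Fin 11) (6 : Fin 11) (7 : Fin 11) (8 : Fin 11) (9 : Fin 11) (10 : Fin 11)) ![Q, add, mul, lt, o, i, j, ε, X, Y]
  simp only [Fml.bv_fNull2] at h
  exact h

theorem ext_Null2_Q (w add mul lt o i j ε X Y : BSet B) :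
    Ext (fun Q : BSet B => Null2 w Q add mul lt o i j ε X Y) := by
  have h := Fml.ext_bv (B := B) (Fml.fNull2 (1 : Fin 11) (0 : Fin 11) (2 : Fin 11) (3 : Fin 11) (4 : Fin 11) (5 : Fin 11) (6 : Fin 11) (7 : Fin 11) (8 : Fin 11) (9 : Fin 11) (10 : Fin 11)) ![w, add, mul, lt, o, i, j, ε, X, Y]
  simp only [Fml.bv_fNull2] at h
  exact h

theorem ext_Null2_add (w Q mul lt o i j ε X Y : BSet B) :
    Ext (fun add : BSet B => Null2 w Q add mul lt o i j ε X Y) := by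
  have h := Fml.ext_bv (B := B) (Fml.fNull2 (1 : Fin 11) (2 : Fin 11) (0 : Fin 11) (3 : Fin 11) (4 : Fin 11) (5 : Fin 11) (6 : Fin 11) (7 : Fin 11) (8 : Fin 11) (9 : Fin 11) (10 : Fin 11)) ![w, Q, mul, lt, o, i, j, ε, X, Y]
  simp only [Fml.bv_fNull2] at h
  exact h

theorem ext_Null2_mul (w Q add lt o i j ε X Y : BSet B) :
    Ext (fun mul : BSet B => Null2 w Q add mul lt o i j ε X Y) := by
  have h := Fml.ext_bv (B := B) (Fml.fNull2 (1 : Fin 11) (2 : Fin 11) (3 : Fin 11) (0 : Fin 11) (4 : Fin 11) (5 : Fin 11) (6 : Fin 11) (7 : Fin 11) (8 : Fin 11) (9 : Fin 11) (10 : Fin 11)) ![w, Q, add, lt, o, i, j, ε, X, Y]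
  simp only [Fml.bv_fNull2] at h
  exact h

theorem ext_Null2_lt (w Q add mul o i j ε X Y : BSet B) :
    Ext (fun lt : BSet B => Null2 w Q add mul lt o i j ε X Y) := by
  have h := Fml.ext_bv (B := B) (Fml.fNull2 (1 : Fin 11) (2 : Fin 11) (3 : Fin 11) (4 : Fin 11) (0 : Fin 11) (5 : Fin 11) (6 : Fin 11) (7 : Fin 11) (8 : Fin 11) (9 : Fin 11) (10 : Fin 11)) ![w, Q, add, mul, o, i, j, ε, X, Y]
  simp only [Fml.bv_fNull2] at h
  exact h

theorem ext_Null2_o (w Q add mul lt i j ε X Y : BSet B) :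
    Ext (fun o : BSet B => Null2 w Q add mul lt o i j ε X Y) := by
  have h := Fml.ext_bv (B := B) (Fml.fNull2 (1 : Fin 11) (2 : Fin 11) (3 : Fin 11) (4 : Fin 11) (5 : Fin 11) (0 : Fin 11) (6 : Fin 11) (7 : Fin 11) (8 : Fin 11) (9 : Fin 11) (10 : Fin 11)) ![w, Q, add, mul, lt, i, j, ε, X, Y]
  simp only [Fml.bv_fNull2] at h
  exact h

theorem ext_Null2_i (w Q add mul lt o j ε X Y : BSet B) :
    Ext (fun i : BSet B => Null2 w Q add mul lt o i j ε X Y) := by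
  have h := Fml.ext_bv (B := B) (Fml.fNull2 (1 : Fin 11) (2 : Fin 11) (3 : Fin 11) (4 : Fin 11) (5 : Fin 11) (6 : Fin 11) (0 : Fin 11) (7 : Fin 11) (8 : Fin 11) (9 : Fin 11) (10 : Fin 11)) ![w, Q, add, mul, lt, o, j, ε, X, Y]
  simp only [Fml.bv_fNull2] at h
  exact h

theorem ext_Null2_j (w Q add mul lt o i ε X Y : BSet B) :
    Ext (fun j : BSet B => Null2 w Q add mul lt o i j ε X Y) := by
  have h := Fml.ext_bv (B := B) (Fml.fNull2 (1 : Fin 11) (2 : Fin 11) (3 : Fin 11) (4 : Fin 11) (5 : Fin 11) (6 : Fin 11) (7 : Fin 11) (0 : Fin 11) (8 : Fin 11) (9 : Fin 11) (10 : Fin 11)) ![w, Q, add, mul, lt, o, i, ε, X, Y]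
  simp only [Fml.bv_fNull2] at h
  exact h

theorem ext_Null2_ε (w Q add mul lt o i j X Y : BSet B) :
    Ext (fun ε : BSet B => Null2 w Q add mul lt o i j ε X Y) := by
  have h := Fml.ext_bv (B := B) (Fml.fNull2 (1 : Fin 11) (2 : Fin 11) (3 : Fin 11) (4 : Fin 11) (5 : Fin 11) (6 : Fin 11) (7 : Fin 11) (8 : Fin 11) (0 : Fin 11) (9 : Fin 11) (10 : Fin 11)) ![w, Q, add, mul, lt, o, i, j, X, Y]
  simp only [Fml.bv_fNull2] at h
  exact h

theorem ext_Null2_X (w Q add mul lt o i j ε Y : BSet B) :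
    Ext (fun X : BSet B => Null2 w Q add mul lt o i j ε X Y) := by
  have h := Fml.ext_bv (B := B) (Fml.fNull2 (1 : Fin 11) (2 : Fin 11) (3 : Fin 11) (4 : Fin 11) (5 : Fin 11) (6 : Fin 11) (7 : Fin 11) (8 : Fin 11) (9 : Fin 11) (0 : Fin 11) (10 : Fin 11)) ![w, Q, add, mul, lt, o, i, j, ε, Y]
  simp only [Fml.bv_fNull2] at h
  exact h

theorem ext_Null2_Y (w Q add mul lt o i j ε X : BSet B) :
    Ext (fun Y : BSet B => Null2 w Q add mul lt o i j ε X Y) := by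
  have h := Fml.ext_bv (B := B) (Fml.fNull2 (1 : Fin 11) (2 : Fin 11) (3 : Fin 11) (4 : Fin 11) (5 : Fin 11) (6 : Fin 11) (7 : Fin 11) (8 : Fin 11) (9 : Fin 11) (10 : Fin 11) (0 : Fin 11)) ![w, Q, add, mul, lt, o, i, j, ε, X]
  simp only [Fml.bv_fNull2] at h
  exact h

theorem ext_Dim1_w (Q add mul lt o i Y : BSet B) :
    Ext (fun w : BSet B => Dim1 w Q add mul lt o i Y) := by
  have h := Fml.ext_bv (B := B) (Fml.fDim1 (0 : Fin 8) (1 : Fin 8) (2 : Fin 8) (3 : Fin 8) (4 : Fin 8) (5 : Fin 8) (6 : Fin 8) (7 : Fin 8)) ![Q, add, mul, lt, o, i, Y]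
  simp only [Fml.bv_fDim1] at h
  exact h

theorem ext_Dim1_Q (w add mul lt o i Y : BSet B) :
    Ext (fun Q : BSet B => Dim1 w Q add mul lt o i Y) := by
  have h := Fml.ext_bv (B := B) (Fml.fDim1 (1 : Fin 8) (0 : Fin 8) (2 : Fin 8) (3 : Fin 8) (4 : Fin 8) (5 : Fin 8) (6 : Fin 8) (7 : Fin 8)) ![w, add, mul, lt, o, i, Y]
  simp only [Fml.bv_fDim1] at h
  exact h

theorem ext_Dim1_add (w Q mul lt o i Y : BSet B) :
    Ext (fun add : BSet B => Dim1 w Q add mul lt o i Y) := by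
  have h := Fml.ext_bv (B := B) (Fml.fDim1 (1 : Fin 8) (2 : Fin 8) (0 : Fin 8) (3 : Fin 8) (4 : Fin 8) (5 : Fin 8) (6 : Fin 8) (7 : Fin 8)) ![w, Q, mul, lt, o, i, Y]
  simp only [Fml.bv_fDim1] at h
  exact h

theorem ext_Dim1_mul (w Q add lt o i Y : BSet B) :
    Ext (fun mul : BSet B => Dim1 w Q add mul lt o i Y) := by
  have h := Fml.ext_bv (B := B) (Fml.fDim1 (1 : Fin 8) (2 : Fin 8) (3 : Fin 8) (0 : Fin 8) (4 : Fin 8) (5 : Fin 8) (6 : Fin 8) (7 : Fin 8)) ![w, Q, add, lt, o, i, Y]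
  simp only [Fml.bv_fDim1] at h
  exact h

theorem ext_Dim1_lt (w Q add mul o i Y : BSet B) :
    Ext (fun lt : BSet B => Dim1 w Q add mul lt o i Y) := by
  have h := Fml.ext_bv (B := B) (Fml.fDim1 (1 : Fin 8) (2 : Fin 8) (3 : Fin 8) (4 : Fin 8) (0 : Fin 8) (5 : Fin 8) (6 : Fin 8) (7 : Fin 8)) ![w, Q, add, mul, o, i, Y]
  simp only [Fml.bv_fDim1] at h
  exact h

theorem ext_Dim1_o (w Q add mul lt i Y : BSet B) :
    Ext (fun o : BSet B => Dim1 w Q add mul lt o i Y) := by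
  have h := Fml.ext_bv (B := B) (Fml.fDim1 (1 : Fin 8) (2 : Fin 8) (3 : Fin 8) (4 : Fin 8) (5 : Fin 8) (0 : Fin 8) (6 : Fin 8) (7 : Fin 8)) ![w, Q, add, mul, lt, i, Y]
  simp only [Fml.bv_fDim1] at h
  exact h

theorem ext_Dim1_i (w Q add mul lt o Y : BSet B) :
    Ext (fun i : BSet B => Dim1 w Q add mul lt o i Y) := by
  have h := Fml.ext_bv (B := B) (Fml.fDim1 (1 : Fin 8) (2 : Fin 8) (3 : Fin 8) (4 : Fin 8) (5 : Fin 8) (6 : Fin 8) (0 : Fin 8) (7 : Fin 8)) ![w, Q, add, mul, lt, o, Y]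
  simp only [Fml.bv_fDim1] at h
  exact h

theorem ext_Dim1_Y (w Q add mul lt o i : BSet B) :
    Ext (fun Y : BSet B => Dim1 w Q add mul lt o i Y) := by
  have h := Fml.ext_bv (B := B) (Fml.fDim1 (1 : Fin 8) (2 : Fin 8) (3 : Fin 8) (4 : Fin 8) (5 : Fin 8) (6 : Fin 8) (7 : Fin 8) (0 : Fin 8)) ![w, Q, add, mul, lt, o, i]
  simp only [Fml.bv_fDim1] at h
  exact h

theorem ext_Dim2_w (Q add mul lt o i X Y : BSet B) :
    Ext (fun w : BSet B => Dim2 w Q add mul lt o i X Y) := by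
  have h := Fml.ext_bv (B := B) (Fml.fDim2 (0 : Fin 9) (1 : Fin 9) (2 : Fin 9) (3 : Fin 9) (4 : Fin 9) (5 : Fin 9) (6 : Fin 9) (7 : Fin 9) (8 : Fin 9)) ![Q, add, mul, lt, o, i, X, Y]
  simp only [Fml.bv_fDim2] at h
  exact h

theorem ext_Dim2_Q (w add mul lt o i X Y : BSet B) :
    Ext (fun Q : BSet B => Dim2 w Q add mul lt o i X Y) := by
  have h := Fml.ext_bv (B := B) (Fml.fDim2 (1 : Fin 9) (0 : Fin 9) (2 : Fin 9) (3 : Fin 9) (4 : Fin 9) (5 : Fin 9) (6 : Fin 9) (7 : Fin 9) (8 : Fin 9)) ![w, add, mul, lt, o, i, X, Y]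
  simp only [Fml.bv_fDim2] at h
  exact h

theorem ext_Dim2_add (w Q mul lt o i X Y : BSet B) :
    Ext (fun add : BSet B => Dim2 w Q add mul lt o i X Y) := by
  have h := Fml.ext_bv (B := B) (Fml.fDim2 (1 : Fin 9) (2 : Fin 9) (0 : Fin 9) (3 : Fin 9) (4 : Fin 9) (5 : Fin 9) (6 : Fin 9) (7 : Fin 9) (8 : Fin 9)) ![w, Q, mul, lt, o, i, X, Y]
  simp only [Fml.bv_fDim2] at h
  exact h

theorem ext_Dim2_mul (w Q add lt o i X Y : BSet B) :
    Ext (fun mul : BSet B => Dim2 w Q add mul lt o i X Y) := by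
  have h := Fml.ext_bv (B := B) (Fml.fDim2 (1 : Fin 9) (2 : Fin 9) (3 : Fin 9) (0 : Fin 9) (4 : Fin 9) (5 : Fin 9) (6 : Fin 9) (7 : Fin 9) (8 : Fin 9)) ![w, Q, add, lt, o, i, X, Y]
  simp only [Fml.bv_fDim2] at h
  exact h

theorem ext_Dim2_lt (w Q add mul o i X Y : BSet B) :
    Ext (fun lt : BSet B => Dim2 w Q add mul lt o i X Y) := by
  have h := Fml.ext_bv (B := B) (Fml.fDim2 (1 : Fin 9) (2 : Fin 9) (3 : Fin 9) (4 : Fin 9) (0 : Fin 9) (5 : Fin 9) (6 : Fin 9) (7 : Fin 9) (8 : Fin 9)) ![w, Q, add, mul, o, i, X, Y]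
  simp only [Fml.bv_fDim2] at h
  exact h

theorem ext_Dim2_o (w Q add mul lt i X Y : BSet B) :
    Ext (fun o : BSet B => Dim2 w Q add mul lt o i X Y) := by
  have h := Fml.ext_bv (B := B) (Fml.fDim2 (1 : Fin 9) (2 : Fin 9) (3 : Fin 9) (4 : Fin 9) (5 : Fin 9) (0 : Fin 9) (6 : Fin 9) (7 : Fin 9) (8 : Fin 9)) ![w, Q, add, mul, lt, i, X, Y]
  simp only [Fml.bv_fDim2] at h
  exact h

theorem ext_Dim2_i (w Q add mul lt o X Y : BSet B) :
    Ext (fun i : BSet B => Dim2 w Q add mul lt o i X Y) := by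
  have h := Fml.ext_bv (B := B) (Fml.fDim2 (1 : Fin 9) (2 : Fin 9) (3 : Fin 9) (4 : Fin 9) (5 : Fin 9) (6 : Fin 9) (0 : Fin 9) (7 : Fin 9) (8 : Fin 9)) ![w, Q, add, mul, lt, o, X, Y]
  simp only [Fml.bv_fDim2] at h
  exact h

theorem ext_Dim2_X (w Q add mul lt o i Y : BSet B) :
    Ext (fun X : BSet B => Dim2 w Q add mul lt o i X Y) := by
  have h := Fml.ext_bv (B := B) (Fml.fDim2 (1 : Fin 9) (2 : Fin 9) (3 : Fin 9) (4 : Fin 9) (5 : Fin 9) (6 : Fin 9) (7 : Fin 9) (0 : Fin 9) (8 : Fin 9)) ![w, Q, add, mul, lt, o, i, Y]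
  simp only [Fml.bv_fDim2] at h
  exact h

theorem ext_Dim2_Y (w Q add mul lt o i X : BSet B) :
    Ext (fun Y : BSet B => Dim2 w Q add mul lt o i X Y) := by
  have h := Fml.ext_bv (B := B) (Fml.fDim2 (1 : Fin 9) (2 : Fin 9) (3 : Fin 9) (4 : Fin 9) (5 : Fin 9) (6 : Fin 9) (7 : Fin 9) (8 : Fin 9) (0 : Fin 9)) ![w, Q, add, mul, lt, o, i, X]
  simp only [Fml.bv_fDim2] at h
  exact h

theorem ext_StatementI_w (Q lt : BSet B) :
    Ext (fun w : BSet B => StatementI w Q lt) := by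
  have h := Fml.ext_bv (B := B) (Fml.fStatementI (0 : Fin 3) (1 : Fin 3) (2 : Fin 3)) ![Q, lt]
  simp only [Fml.bv_fStatementI] at h
  exact h

theorem ext_StatementI_Q (w lt : BSet B) :
    Ext (fun Q : BSet B => StatementI w Q lt) := by
  have h := Fml.ext_bv (B := B) (Fml.fStatementI (1 : Fin 3) (0 : Fin 3) (2 : Fin 3)) ![w, lt]
  simp only [Fml.bv_fStatementI] at h
  exact h

theorem ext_StatementI_lt (w Q : BSet B) :
    Ext (fun lt : BSet B => StatementI w Q lt) := by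
  have h := Fml.ext_bv (B := B) (Fml.fStatementI (1 : Fin 3) (2 : Fin 3) (0 : Fin 3)) ![w, Q]
  simp only [Fml.bv_fStatementI] at h
  exact h

theorem ext_StatementII_w (Q add mul lt o i : BSet B) :
    Ext (fun w : BSet B => StatementII w Q add mul lt o i) := by
  have h := Fml.ext_bv (B := B) (Fml.fStatementII (0 : Fin 7) (1 : Fin 7) (2 : Fin 7) (3 : Fin 7) (4 : Fin 7) (5 : Fin 7) (6 : Fin 7)) ![Q, add, mul, lt, o, i]
  simp only [Fml.bv_fStatementII] at h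
  exact h

theorem ext_StatementII_Q (w add mul lt o i : BSet B) :
    Ext (fun Q : BSet B => StatementII w Q add mul lt o i) := by
  have h := Fml.ext_bv (B := B) (Fml.fStatementII (1 : Fin 7) (0 : Fin 7) (2 : Fin 7) (3 : Fin 7) (4 : Fin 7) (5 : Fin 7) (6 : Fin 7)) ![w, add, mul, lt, o, i]
  simp only [Fml.bv_fStatementII] at h
  exact h

theorem ext_StatementII_add (w Q mul lt o i : BSet B) :
    Ext (fun add : BSet B => StatementII w Q add mul lt o i) := by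
  have h := Fml.ext_bv (B := B) (Fml.fStatementII (1 : Fin 7) (2 : Fin 7) (0 : Fin 7) (3 : Fin 7) (4 : Fin 7) (5 : Fin 7) (6 : Fin 7)) ![w, Q, mul, lt, o, i]
  simp only [Fml.bv_fStatementII] at h
  exact h

theorem ext_StatementII_mul (w Q add lt o i : BSet B) :
    Ext (fun mul : BSet B => StatementII w Q add mul lt o i) := by
  have h := Fml.ext_bv (B := B) (Fml.fStatementII (1 : Fin 7) (2 : Fin 7) (3 : Fin 7) (0 : Fin 7) (4 : Fin 7) (5 : Fin 7) (6 : Fin 7)) ![w, Q, add, lt, o, i]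
  simp only [Fml.bv_fStatementII] at h
  exact h

theorem ext_StatementII_lt (w Q add mul o i : BSet B) :
    Ext (fun lt : BSet B => StatementII w Q add mul lt o i) := by
  have h := Fml.ext_bv (B := B) (Fml.fStatementII (1 : Fin 7) (2 : Fin 7) (3 : Fin 7) (4 : Fin 7) (0 : Fin 7) (5 : Fin 7) (6 : Fin 7)) ![w, Q, add, mul, o, i]
  simp only [Fml.bv_fStatementII] at h
  exact h

theorem ext_StatementII_o (w Q add mul lt i : BSet B) :
    Ext (fun o : BSet B => StatementII w Q add mul lt o i) := by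
  have h := Fml.ext_bv (B := B) (Fml.fStatementII (1 : Fin 7) (2 : Fin 7) (3 : Fin 7) (4 : Fin 7) (5 : Fin 7) (0 : Fin 7) (6 : Fin 7)) ![w, Q, add, mul, lt, i]
  simp only [Fml.bv_fStatementII] at h
  exact h

theorem ext_StatementII_i (w Q add mul lt o : BSet B) :
    Ext (fun i : BSet B => StatementII w Q add mul lt o i) := by
  have h := Fml.ext_bv (B := B) (Fml.fStatementII (1 : Fin 7) (2 : Fin 7) (3 : Fin 7) (4 : Fin 7) (5 : Fin 7) (6 : Fin 7) (0 : Fin 7)) ![w, Q, add, mul, lt, o]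
  simp only [Fml.bv_fStatementII] at h
  exact h

end Kb

end Pool.Agent.Lib.MP_4d8715_gt.KR
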