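import Pool.Agent.Lib.MP_4d8715_gt.KR.E.Seq

/-!
# Finite sets (module E-FIN)
-/

universe u

namespace Pool.Agent.Lib.MP_4d8715_gt.KR

namespace Kb

open BSet

variable {B : Type u} [CompleteBooleanAlgebra B]

private theorem finEq_seq (A : BSet B) (n : ℕ) :
    (⨆ F : Fin n → BSet B, ⨅ z, iffB (bmem z A) (⨆ i : Fin n, beq z (F i))) =
      ⨆ x : ℕ → BSet B, ⨅ z, iffB (bmem z A) (⨆ i, ⨆ (_ : i < n), beq z (x i)) := by
  refine le_antisymm (iSup_le fun F => ?_) (iSup_le fun x => ?_)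
  · refine le_iSup_of_le (fun i => if h : i < n then F ⟨i, h⟩ else empty) (le_of_eq ?_)
    refine iInf_congr fun z => ?_
    congr 1
    refine le_antisymm (iSup_le fun i => ?_) (iSup_le fun i => iSup_le fun hi => ?_)
    · refine le_iSup_of_le (i : ℕ) (le_iSup_of_le i.2 (le_of_eq ?_))
      dsimp only
      rw [dif_pos i.2]
    · refine le_iSup_of_le (⟨i, hi⟩ : Fin n) (le_of_eq ?_)
      dsimp only
      rw [dif_pos hi]
  · refine le_iSup_of_le (fun i => x i) (le_of_eq ?_)
    refine iInf_congr fun z => ?_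
    congr 1
    refine le_antisymm (iSup_le fun i => iSup_le fun hi => ?_) (iSup_le fun i => ?_)
    · exact le_iSup_of_le (⟨i, hi⟩ : Fin n) le_rfl
    · exact le_iSup_of_le (i : ℕ) (le_iSup_of_le i.2 le_rfl)

theorem Finite_eq (A : BSet B) : Finite omega A = isFin A := by
  unfold Finite isFin
  rw [std_omega.iSup (ψ := fun n => ⨆ f, FunOn f n ⊓ (⨅ z, iffB (bmem z A)
    (⨆ i, bmem i n ⊓ App f i z))) (Ext.iSup fun f => (ext_FunOn_d f).inf (Ext.iInf fun z =>
      (ext_const _).iffB (Ext.iSup fun i => (ext_bmem_right i).inf (ext_const _))))]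
  refine iSup_congr fun n => ?_
  rw [iSup_FunOn (std_nat n) (ψ := fun f => ⨅ z, iffB (bmem z A)
    (⨆ i, bmem i (nat n) ⊓ App f i z)) (Ext.iInf fun z => (ext_const _).iffB
      (Ext.iSup fun i => (ext_const _).inf (ext_App_f i z)))]
  rw [← finEq_seq A n]
  refine iSup_congr fun F => iInf_congr fun z => ?_
  congr 1
  rw [(std_nat n).iSup (ψ := fun i => App (seqB (fun i : Fin n => nat i) F) i z)
    (ext_App_a _ z)]
  refine iSup_congr fun i => ?_
  exact App_seqB_self (std_nat n) F i z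

end Kb

end Pool.Agent.Lib.MP_4d8715_gt.KR
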