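import Pool.Agent.Lib.MP_4d8715_gt.KR.E.PowE

/-!
# Hausdorff dimension zero (module E-NULL)
-/

universe u

namespace Pool.Agent.Lib.MP_4d8715_gt.KR

namespace Kb

open BSet

variable {B : Type u} [CompleteBooleanAlgebra B]

/-- the evaluation of the covering statement at fixed `n`, `q`, `r` -/
private theorem nullE_core_fixed (e a : ℕ → BSet B) (y n q r : BSet B) (j : ℕ) :
    isSeqQ (valQ e) ⊓ isSeqQ (valQ a) ⊓ (bmem n omega ⊓ (App (seqB nat a) n q ⊓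
      (App (seqB nat e) n r ⊓
        InJ omega (ratSet B) (addB B) (mulB B) (rat 1) y q r (nat j)))) ≤
      ⨆ k : ℕ, ⨆ q' : ℚ, ⨆ r' : ℚ, valQ a k q' ⊓ valQ e k r' ⊓ inJ y q' (q' + r' ^ j) := by
  refine le_iff_ev.mpr ?_
  filter_upwards [ev_iSup fun k : ℕ => beq n (nat k),
    eventually_countable_forall.mpr fun k => ev_iSup fun q => valQ a k q,
    eventually_countable_forall.mpr fun k => ev_iSup fun q => valQ e k q] with U h1 h2 h3 hU
  rw [Ult.inf', Ult.inf', Ult.inf', Ult.inf', Ult.inf'] at hU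
  obtain ⟨⟨he, ha⟩, hn, hq, hr, hJ⟩ := hU
  rw [std_omega.mem n] at hn
  obtain ⟨k, hk⟩ := h1.mp hn
  -- the values of the two sequences
  have hqa : U (beq q (a k)) := by
    have h4 : U (App (seqB nat a) (nat k) q) :=
      U.mono (ext_App_a (seqB nat a) q n (nat k)) ((U.inf _ _).mpr ⟨hk, hq⟩)
    rw [App_seqB_self std_omega] at h4
    exact h4
  have hre : U (beq r (e k)) := by
    have h4 : U (App (seqB nat e) (nat k) r) :=
      U.mono (ext_App_a (seqB nat e) r n (nat k)) ((U.inf _ _).mpr ⟨hk, hr⟩)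
    rw [App_seqB_self std_omega] at h4
    exact h4
  obtain ⟨q', hq'⟩ : ∃ q', U (valQ a k q') := by
    have h5 := ult_iInf_le ha k
    rw [Ult.inf'] at h5
    exact (h2 k).mp h5.1
  obtain ⟨r', hr'⟩ : ∃ r', U (valQ e k r') := by
    have h5 := ult_iInf_le he k
    rw [Ult.inf'] at h5
    exact (h3 k).mp h5.1
  have hJ1 : U (InJ omega (ratSet B) (addB B) (mulB B) (rat 1) y (a k) r (nat j)) :=
    U.mono (ext_InJ_q _ _ _ _ _ _ _ _ q (a k)) ((U.inf _ _).mpr ⟨hqa, hJ⟩)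
  have hJ2 : U (InJ omega (ratSet B) (addB B) (mulB B) (rat 1) y (rat q') r (nat j)) :=
    U.mono (ext_InJ_q _ _ _ _ _ _ _ _ (a k) (rat q')) ((U.inf _ _).mpr ⟨hq', hJ1⟩)
  have hJ3 : U (InJ omega (ratSet B) (addB B) (mulB B) (rat 1) y (rat q') (e k) (nat j)) :=
    U.mono (ext_InJ_r _ _ _ _ _ _ _ _ r (e k)) ((U.inf _ _).mpr ⟨hre, hJ2⟩)
  have hJ4 : U (InJ omega (ratSet B) (addB B) (mulB B) (rat 1) y (rat q') (rat r') (nat j)) :=
    U.mono (ext_InJ_r _ _ _ _ _ _ _ _ (e k) (rat r')) ((U.inf _ _).mpr ⟨hr', hJ3⟩)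
  rw [InJ_eq] at hJ4
  refine ult_iSup_le (i := k) (ult_iSup_le (i := q') (ult_iSup_le (i := r') ?_))
  exact (U.inf _ _).mpr ⟨(U.inf _ _).mpr ⟨hq', hr'⟩, hJ4⟩

private theorem nullE_core (e a : ℕ → BSet B) (y : BSet B) (j : ℕ) :
    isSeqQ (valQ e) ⊓ isSeqQ (valQ a) ⊓ (⨆ n, ⨆ q, ⨆ r, bmem n omega ⊓ (App (seqB nat a) n q ⊓
      (App (seqB nat e) n r ⊓
        InJ omega (ratSet B) (addB B) (mulB B) (rat 1) y q r (nat j)))) ≤
      ⨆ k : ℕ, ⨆ q' : ℚ, ⨆ r' : ℚ, valQ a k q' ⊓ valQ e k r' ⊓ inJ y q' (q' + r' ^ j) := by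
  rw [inf_iSup_eq]
  refine iSup_le fun n => ?_
  rw [inf_iSup_eq]
  refine iSup_le fun q => ?_
  rw [inf_iSup_eq]
  exact iSup_le fun r => nullE_core_fixed e a y n q r j

private theorem nullE_subst {ψ : BSet B → B} (hψ : Ext ψ) (f : BSet B)
    (h : ψ f ≤ FunOn f omega) : ∃ F : ℕ → BSet B, ψ f ≤ ψ (seqB nat F) := by
  obtain ⟨F, hF⟩ := exists_FunOn_eq (std_omega (B := B)) f
  refine ⟨F, ?_⟩
  rw [hF] at h
  exact (le_inf h le_rfl).trans (hψ f (seqB nat F))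

theorem Null1_le (j : ℕ) (ε : ℚ) (Y : BSet B) :
    Null1 omega (ratSet B) (addB B) (mulB B) (ltB B) (rat 0) (rat 1) (nat j) (rat ε) Y ≤
      null1 j ε Y := by
  have hbody : ∀ e a : BSet B, Ext fun e => ⨅ y, bmem y Y ⇨ (⨆ n, ⨆ q, ⨆ r, bmem n omega ⊓
      (App a n q ⊓ (App e n r ⊓
        InJ omega (ratSet B) (addB B) (mulB B) (rat 1) y q r (nat j)))) := fun e a =>
    Ext.iInf fun y => (ext_const _).himp (Ext.iSup fun n => Ext.iSup fun q => Ext.iSup fun r =>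
      (ext_const _).inf ((ext_const _).inf ((ext_App_f n r).inf (ext_const _))))
  have hbody' : ∀ e : BSet B, Ext fun a => ⨅ y, bmem y Y ⇨ (⨆ n, ⨆ q, ⨆ r, bmem n omega ⊓
      (App a n q ⊓ (App e n r ⊓
        InJ omega (ratSet B) (addB B) (mulB B) (rat 1) y q r (nat j)))) := fun e =>
    Ext.iInf fun y => (ext_const _).himp (Ext.iSup fun n => Ext.iSup fun q => Ext.iSup fun r =>
      (ext_const _).inf ((ext_App_f n q).inf (ext_const _)))
  unfold Null1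
  refine iSup_le fun e => iSup_le fun s => iSup_le fun a => ?_
  -- replace the functions by sequences
  obtain ⟨Fe, hFe⟩ := nullE_subst
    (ψ := fun e => SumLt omega (ratSet B) (addB B) (ltB B) (rat 0) (rat ε) e s ⊓
      (FunTo a omega (ratSet B) ⊓ (⨅ y, bmem y Y ⇨ (⨆ n, ⨆ q, ⨆ r, bmem n omega ⊓
      (App a n q ⊓ (App e n r ⊓
        InJ omega (ratSet B) (addB B) (mulB B) (rat 1) y q r (nat j)))))))
    ((ext_SumLt_e _ _ _ _ _ _ _).inf ((ext_const _).inf (hbody e a))) e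
    (inf_le_left.trans (by
      unfold SumLt FunTo
      exact inf_le_left.trans inf_le_left))
  refine hFe.trans ?_
  obtain ⟨Fs, hFs⟩ := nullE_subst
    (ψ := fun s => SumLt omega (ratSet B) (addB B) (ltB B) (rat 0) (rat ε) (seqB nat Fe) s ⊓
      (FunTo a omega (ratSet B) ⊓ (⨅ y, bmem y Y ⇨ (⨆ n, ⨆ q, ⨆ r, bmem n omega ⊓
      (App a n q ⊓ (App (seqB nat Fe) n r ⊓
        InJ omega (ratSet B) (addB B) (mulB B) (rat 1) y q r (nat j)))))))
    ((ext_SumLt_s _ _ _ _ _ _ _).inf (ext_const _)) s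
    (inf_le_left.trans (by
      unfold SumLt
      refine inf_le_right.trans (inf_le_left.trans ?_)
      unfold FunTo
      exact inf_le_left))
  refine hFs.trans ?_
  obtain ⟨Fa, hFa⟩ := nullE_subst
    (ψ := fun a => SumLt omega (ratSet B) (addB B) (ltB B) (rat 0) (rat ε) (seqB nat Fe)
        (seqB nat Fs) ⊓
      (FunTo a omega (ratSet B) ⊓ (⨅ y, bmem y Y ⇨ (⨆ n, ⨆ q, ⨆ r, bmem n omega ⊓
      (App a n q ⊓ (App (seqB nat Fe) n r ⊓
        InJ omega (ratSet B) (addB B) (mulB B) (rat 1) y q r (nat j)))))))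
    ((ext_const _).inf ((ext_FunTo_f _ _).inf (hbody' (seqB nat Fe)))) a
    (inf_le_right.trans (inf_le_left.trans (by
      unfold FunTo
      exact inf_le_left)))
  refine hFa.trans ?_
  rw [SumLt_seqB, FunTo_seqB]
  refine le_iSup_of_le (valQ Fe) (le_iSup_of_le (valQ Fs) (le_iSup_of_le (valQ Fa) ?_))
  refine le_inf (le_inf inf_le_left (inf_le_right.trans inf_le_left)) ?_
  refine le_iInf fun y => ?_
  rw [le_himp_iff]
  refine le_trans (le_inf (le_inf ?_ ?_) ?_) (nullE_core Fe Fa y j)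
  · refine inf_le_left.trans (inf_le_left.trans ?_)
    unfold isSum
    exact inf_le_left.trans (inf_le_left.trans (inf_le_left.trans (inf_le_left.trans
      inf_le_left)))
  · exact inf_le_left.trans (inf_le_right.trans inf_le_left)
  · rw [← le_himp_iff]
    exact inf_le_right.trans (inf_le_right.trans (iInf_le _ y))


private theorem nulle_b_iffB {p x y : B} (h : p ≤ iffB x y) : p ⊓ x = p ⊓ y := by
  apply le_antisymm
  · refine le_inf inf_le_left ?_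
    refine (inf_le_inf_right _ (h.trans inf_le_left)).trans ?_
    exact himp_inf_le
  · refine le_inf inf_le_left ?_
    refine (inf_le_inf_right _ (h.trans inf_le_right)).trans ?_
    exact himp_inf_le

private theorem nulle_b_inf {p x y x' y' : B} (h : p ⊓ x = p ⊓ y) (h' : p ⊓ x' = p ⊓ y') :
    p ⊓ (x ⊓ x') = p ⊓ (y ⊓ y') := by
  rw [inf_inf_distrib_left, inf_inf_distrib_left p y y', h, h']

private theorem nulle_b_himp_le {p x y x' y' : B} (h : p ⊓ x = p ⊓ y) (h' : p ⊓ x' = p ⊓ y') :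
    p ⊓ (x ⇨ x') ≤ p ⊓ (y ⇨ y') := by
  refine le_inf inf_le_left ?_
  rw [le_himp_iff]
  have h1 : p ⊓ (x ⇨ x') ⊓ y ≤ p ⊓ x' := by
    refine le_inf (inf_le_left.trans inf_le_left) ?_
    have h2 : p ⊓ (x ⇨ x') ⊓ y ≤ x := by
      have h3 : p ⊓ (x ⇨ x') ⊓ y ≤ p ⊓ y := inf_le_inf_right _ inf_le_left
      rw [← h] at h3
      exact h3.trans inf_le_right
    have h4 : p ⊓ (x ⇨ x') ⊓ y ≤ (x ⇨ x') ⊓ x := le_inf (inf_le_left.trans inf_le_right) h2
    exact h4.trans himp_inf_le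
  rw [h'] at h1
  exact h1.trans inf_le_right

private theorem nulle_b_himp {p x y x' y' : B} (h : p ⊓ x = p ⊓ y) (h' : p ⊓ x' = p ⊓ y') :
    p ⊓ (x ⇨ x') = p ⊓ (y ⇨ y') :=
  le_antisymm (nulle_b_himp_le h h') (nulle_b_himp_le h.symm h'.symm)

private theorem nulle_b_iSup {κ : Sort*} {p : B} {x y : κ → B} (h : ∀ i, p ⊓ x i = p ⊓ y i) :
    p ⊓ (⨆ i, x i) = p ⊓ ⨆ i, y i := by
  rw [inf_iSup_eq, inf_iSup_eq]
  exact iSup_congr h

private theorem nulle_b_iInf_le {κ : Sort*} {p : B} {x y : κ → B} (h : ∀ i, p ⊓ x i = p ⊓ y i) :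
    p ⊓ (⨅ i, x i) ≤ p ⊓ ⨅ i, y i := by
  refine le_inf inf_le_left (le_iInf fun i => ?_)
  refine (inf_le_inf_left _ (iInf_le _ i)).trans ?_
  rw [h i]
  exact inf_le_right

private theorem nulle_b_iInf {κ : Sort*} {p : B} {x y : κ → B} (h : ∀ i, p ⊓ x i = p ⊓ y i) :
    p ⊓ (⨅ i, x i) = p ⊓ ⨅ i, y i :=
  le_antisymm (nulle_b_iInf_le h) (nulle_b_iInf_le fun i => (h i).symm)

private theorem nulle_b_seqQ {p : B} {a a' : ℕ → ℚ → B} (h : ∀ n q, p ⊓ a n q = p ⊓ a' n q) :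
    p ⊓ isSeqQ a = p ⊓ isSeqQ a' := by
  unfold isSeqQ
  exact nulle_b_iInf fun n => nulle_b_inf (nulle_b_iSup fun q => h n q)
    (nulle_b_iInf fun q => nulle_b_iInf fun r => nulle_b_himp (nulle_b_inf (h n q) (h n r)) rfl)

private theorem nulle_b_sum {p : B} (ε : ℚ) {e s e' s' : ℕ → ℚ → B}
    (he : ∀ n q, p ⊓ e n q = p ⊓ e' n q) (hs : ∀ n q, p ⊓ s n q = p ⊓ s' n q) :
    p ⊓ isSum ε e s = p ⊓ isSum ε e' s' := by
  unfold isSum
  exact nulle_b_inf (nulle_b_inf (nulle_b_inf (nulle_b_inf (nulle_b_inf (nulle_b_seqQ he)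
    (nulle_b_seqQ hs)) (nulle_b_iInf fun n => nulle_b_iInf fun r => nulle_b_himp (he n r) rfl))
    (hs 0 0)) (nulle_b_iInf fun n => nulle_b_iInf fun q => nulle_b_iInf fun r =>
      nulle_b_iInf fun q' => nulle_b_himp (nulle_b_inf (nulle_b_inf (hs n q) (he n r))
        (hs (n + 1) q')) rfl))
    (nulle_b_iInf fun n => nulle_b_iInf fun q => nulle_b_himp (hs n q) rfl)

theorem null2_le (j : ℕ) (ε : ℚ) (X Y : BSet B) :
    null2 j ε X Y ≤
      Null2 omega (ratSet B) (addB B) (mulB B) (ltB B) (rat 0) (rat 1) (nat j) (rat ε) X Y := by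
  unfold null2
  refine iSup_le fun e => iSup_le fun s => iSup_le fun a => iSup_le fun b => ?_
  obtain ⟨Fe, hFe⟩ := exists_valQ e
  obtain ⟨Fs, hFs⟩ := exists_valQ s
  obtain ⟨Fa, hFa⟩ := exists_valQ a
  obtain ⟨Fb, hFb⟩ := exists_valQ b
  set I : B := ⨅ x, ⨅ y, (bmem x X ⊓ bmem y Y) ⇨ ⨆ n, ⨆ q, ⨆ q', ⨆ r, a n q ⊓ b n q' ⊓ e n r ⊓
      inJ x q (q + r ^ j) ⊓ inJ y q' (q' + r ^ j) with hI
  set p : B := isSum ε e s ⊓ isSeqQ a ⊓ isSeqQ b ⊓ I with hp
  have hpsum : p ≤ isSum ε e s := inf_le_left.trans (inf_le_left.trans inf_le_left)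
  have hpa : p ≤ isSeqQ a := inf_le_left.trans (inf_le_left.trans inf_le_right)
  have hpb : p ≤ isSeqQ b := inf_le_left.trans inf_le_right
  have hpI : p ≤ I := inf_le_right
  have hsume : isSum ε e s ≤ isSeqQ e :=
    inf_le_left.trans (inf_le_left.trans (inf_le_left.trans (inf_le_left.trans inf_le_left)))
  have hsums : isSum ε e s ≤ isSeqQ s :=
    inf_le_left.trans (inf_le_left.trans (inf_le_left.trans (inf_le_left.trans inf_le_right)))
  have hce : ∀ n q, p ⊓ e n q = p ⊓ valQ Fe n q := fun n q =>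
    nulle_b_iffB ((hpsum.trans (hsume.trans hFe)).trans ((iInf_le _ n).trans (iInf_le _ q)))
  have hcs : ∀ n q, p ⊓ s n q = p ⊓ valQ Fs n q := fun n q =>
    nulle_b_iffB ((hpsum.trans (hsums.trans hFs)).trans ((iInf_le _ n).trans (iInf_le _ q)))
  have hca : ∀ n q, p ⊓ a n q = p ⊓ valQ Fa n q := fun n q =>
    nulle_b_iffB ((hpa.trans hFa).trans ((iInf_le _ n).trans (iInf_le _ q)))
  have hcb : ∀ n q, p ⊓ b n q = p ⊓ valQ Fb n q := fun n q =>
    nulle_b_iffB ((hpb.trans hFb).trans ((iInf_le _ n).trans (iInf_le _ q)))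
  have h1 : p ≤ isSum ε (valQ Fe) (valQ Fs) := by
    have h2 := nulle_b_sum ε hce hcs
    rw [inf_eq_left.mpr hpsum] at h2
    rw [h2]
    exact inf_le_right
  have h2 : p ≤ isSeqQ (valQ Fa) := by
    have h3 := nulle_b_seqQ hca
    rw [inf_eq_left.mpr hpa] at h3
    rw [h3]
    exact inf_le_right
  have h3 : p ≤ isSeqQ (valQ Fb) := by
    have h4 := nulle_b_seqQ hcb
    rw [inf_eq_left.mpr hpb] at h4
    rw [h4]
    exact inf_le_right
  have hApp : ∀ (F : ℕ → BSet B) (n : ℕ) (q : ℚ), valQ F n q = App (seqB nat F) (nat n) (rat q) := by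
    intro F n q
    rw [App_seqB_self std_omega, beq_symm]
    rfl
  unfold Null2
  refine le_iSup_of_le (seqB nat Fe) (le_iSup_of_le (seqB nat Fs) (le_iSup_of_le (seqB nat Fa)
    (le_iSup_of_le (seqB nat Fb) ?_)))
  rw [SumLt_seqB, FunTo_seqB, FunTo_seqB]
  refine le_inf h1 (le_inf h2 (le_inf h3 (le_iInf fun x => le_iInf fun y => ?_)))
  rw [le_himp_iff, le_himp_iff]
  have h4 : p ⊓ bmem x X ⊓ bmem y Y ≤ ⨆ n, ⨆ q, ⨆ q', ⨆ r, a n q ⊓ b n q' ⊓ e n r ⊓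
      inJ x q (q + r ^ j) ⊓ inJ y q' (q' + r ^ j) := by
    have h5 : p ≤ (bmem x X ⊓ bmem y Y) ⇨ ⨆ n, ⨆ q, ⨆ q', ⨆ r, a n q ⊓ b n q' ⊓ e n r ⊓
      inJ x q (q + r ^ j) ⊓ inJ y q' (q' + r ^ j) := hpI.trans ((iInf_le _ x).trans (iInf_le _ y))
    rw [le_himp_iff] at h5
    rw [inf_assoc]
    exact h5
  have h6 : p ⊓ bmem x X ⊓ bmem y Y ≤ p ⊓ ⨆ n, ⨆ q, ⨆ q', ⨆ r, a n q ⊓ b n q' ⊓ e n r ⊓
      inJ x q (q + r ^ j) ⊓ inJ y q' (q' + r ^ j) := le_inf (inf_le_left.trans inf_le_left) h4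
  refine h6.trans ?_
  rw [inf_iSup_eq]
  refine iSup_le fun n => ?_
  rw [inf_iSup_eq]
  refine iSup_le fun q => ?_
  rw [inf_iSup_eq]
  refine iSup_le fun q' => ?_
  rw [inf_iSup_eq]
  refine iSup_le fun r => ?_
  refine le_iSup_of_le (nat n) (le_iSup_of_le (rat q) (le_iSup_of_le (rat q')
    (le_iSup_of_le (rat r) ?_)))
  rw [InJ_eq, InJ_eq, ← hApp, ← hApp, ← hApp, Std.mem_self std_omega, top_inf_eq]
  have h7 : p ⊓ (a n q ⊓ b n q' ⊓ e n r ⊓ inJ x q (q + r ^ j) ⊓ inJ y q' (q' + r ^ j)) =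
      p ⊓ (valQ Fa n q ⊓ valQ Fb n q' ⊓ valQ Fe n r ⊓ inJ x q (q + r ^ j) ⊓
        inJ y q' (q' + r ^ j)) :=
    nulle_b_inf (nulle_b_inf (nulle_b_inf (nulle_b_inf (hca n q) (hcb n q')) (hce n r)) rfl) rfl
  rw [h7]
  refine inf_le_right.trans (le_of_eq ?_)
  simp only [inf_assoc]

theorem Dim1_le (Y : BSet B) :
    Dim1 omega (ratSet B) (addB B) (mulB B) (ltB B) (rat 0) (rat 1) Y ≤ dim1 Y := by
  unfold dim1
  refine le_iInf fun j => le_iInf fun hj => le_iInf fun ε => le_iInf fun hε => ?_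
  refine le_trans ?_ (Null1_le j ε Y)
  unfold Dim1
  refine (iInf_le _ (nat j)).trans ((iInf_le _ (rat ε)).trans ?_)
  rw [std_omega.mem_self j, Emp_nat, std_ratSet.mem_self ε]
  have h1 : (tv B (j = 0))ᶜ = ⊤ := by
    unfold tv
    simp [hj.ne']
  have h2 : App (ltB B) (rat 0) (rat ε) = ⊤ := by
    rw [eq_top_iff_ev]
    refine Filter.Eventually.of_forall fun U => ?_
    refine (ult_App_lt_rat (U := U) (q := 0) (r := ε) ?_ ?_).mpr hε
    · rw [beq_refl]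
      exact U.top
    · rw [beq_refl]
      exact U.top
  rw [h1, h2]
  simp

theorem dim2_le (X Y : BSet B) :
    dim2 X Y ≤ Dim2 omega (ratSet B) (addB B) (mulB B) (ltB B) (rat 0) (rat 1) X Y := by
  refine le_iInf fun J => le_iInf fun E => ?_
  rw [le_himp_iff, le_himp_iff, le_himp_iff, le_himp_iff, le_iff_ev]
  filter_upwards [ev_iSup fun i : ℕ => beq J (nat i), ev_iSup fun q : ℚ => beq E (rat q)]
    with U hU1 hU2 h
  rw [Ult.inf', Ult.inf', Ult.inf', Ult.inf'] at h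
  obtain ⟨⟨⟨⟨hd, hJ⟩, hJ0⟩, hE⟩, hE0⟩ := h
  rw [std_omega.mem] at hJ
  rw [std_ratSet.mem] at hE
  obtain ⟨i, hi⟩ := hU1.mp hJ
  obtain ⟨q, hq⟩ := hU2.mp hE
  have hi0 : 0 < i := by
    by_contra hcon
    have hi00 : i = 0 := by omega
    have h1 : U (Emp (nat i : BSet B)) := by
      rw [Emp_nat, ult_tv]
      exact hi00
    have h2 : U (Emp J) := U.mono (ext_Emp_x (nat i) J)
      ((U.inf _ _).mpr ⟨by rw [beq_symm]; exact hi, h1⟩)
    exact (U.compl _).mp hJ0 h2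
  have hq0 : 0 < q := by
    have h1 : U (App (ltB B) (rat 0) (rat q)) := U.mono (ext_App_b (ltB B) (rat 0) E (rat q))
      ((U.inf _ _).mpr ⟨hq, hE0⟩)
    rw [App_ltB_rat, ult_tv] at h1
    exact h1
  have h1 : U (null2 i q X Y) := by
    refine U.mono ?_ hd
    exact (iInf_le _ i).trans ((iInf_le _ hi0).trans ((iInf_le _ q).trans (iInf_le _ hq0)))
  have h2 := U.mono (null2_le i q X Y) h1
  have h3 := U.mono (ext_Null2_j omega (ratSet B) (addB B) (mulB B) (ltB B) (rat 0) (rat 1)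
    (rat q) X Y (nat i) J) ((U.inf _ _).mpr ⟨by rw [beq_symm]; exact hi, h2⟩)
  exact U.mono (ext_Null2_ε omega (ratSet B) (addB B) (mulB B) (ltB B) (rat 0) (rat 1)
    J X Y (rat q) E) ((U.inf _ _).mpr ⟨by rw [beq_symm]; exact hq, h3⟩)

end Kb

end Pool.Agent.Lib.MP_4d8715_gt.KR
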