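import Pool.Agent.Lib.MP_4d8715_gt.KR.E.StI
import Pool.Agent.Lib.MP_4d8715_gt.KR.E.NullE

/-!
# The Boolean value of the formula
-/

universe u

namespace Pool.Agent.Lib.MP_4d8715_gt.KR

open BSet

variable {B : Type u} [CompleteBooleanAlgebra B]

theorem Kb.StatementII_eq_top (hII : stII B = ⊤) :
    Kb.StatementII omega (ratSet B) (addB B) (mulB B) (ltB B) (rat 0) (rat 1) = ⊤ := by
  rw [eq_top_iff] at hII ⊢
  refine le_iInf fun X => le_iInf fun Y => ?_
  simp only [le_himp_iff, top_inf_eq, Kb.SetOfReals_eq, Kb.S1_eq]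
  have h := hII.trans ((iInf_le _ X).trans (iInf_le _ Y))
  rw [le_himp_iff, top_inf_eq] at h
  refine le_trans ?_ (h.trans (Kb.dim2_le X Y))
  exact inf_le_inf_left _ (Kb.Dim1_le Y)

theorem bv_krawczyk (hI : stI B = ⊤) (hII : stII B = ⊤) :
    Fml.bv Fml.fKrawczyk (![] : Fin 0 → BSet B) = ⊤ := by
  rw [Fml.bv_fKrawczyk, eq_top_iff]
  unfold Kb.Krawczyk
  refine le_iSup_of_le omega (le_iSup_of_le (ratSet B) (le_iSup_of_le (addB B)
    (le_iSup_of_le (mulB B) (le_iSup_of_le (ltB B) (le_iSup_of_le (rat 0)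
    (le_iSup_of_le (rat 1) ?_))))))
  rw [Kb.Omega_omega, Kb.Rationals_rat, Kb.StatementI_eq, hI, Kb.StatementII_eq_top hII]
  simp

end Pool.Agent.Lib.MP_4d8715_gt.KR
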