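import Pool.Agent.Lib.MP_4d8715_gt.KR.E.RatF

/-!
# Sequences of rational numbers and powers (module E-POW)
-/

universe u

namespace Pool.Agent.Lib.MP_4d8715_gt.KR

namespace BSet

variable {B : Type u} [CompleteBooleanAlgebra B]

/-- the values of a sequence of rational numbers -/
def valQ (F : ℕ → BSet B) (n : ℕ) (q : ℚ) : B := beq (F n) (rat q)

/-- every sequence of rational numbers in the sense of `isSeqQ` is given by a sequence of sets
(mixing, `exists_mix`) -/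
theorem exists_valQ (a : ℕ → ℚ → B) :
    ∃ F : ℕ → BSet B, isSeqQ a ≤ ⨅ n, ⨅ q, iffB (a n q) (valQ F n q) := by
  have key : ∀ n, ∃ y : BSet B, ∀ q, isSeqQ a ⊓ a n q ≤ beq y (rat q) := by
    intro n
    obtain ⟨y, hy⟩ := exists_mix (ι := ULift.{u} ℚ) (fun q => isSeqQ a ⊓ a n q.down)
      (fun q => rat q.down) (fun q r => by
        rw [n_beq_rat]
        refine le_iff_ev.mpr (Filter.Eventually.of_forall fun U hU => ?_)
        simp only [Ult.inf'] at hU
        obtain ⟨⟨h1, h2⟩, -, h3⟩ := hU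
        have h4 := ult_iInf_le h1 n
        rw [Ult.inf'] at h4
        have h5 := ult_iInf_le (ult_iInf_le h4.2 q.down) r.down
        rw [Ult.himp', Ult.inf'] at h5
        exact h5 ⟨h2, h3⟩)
    exact ⟨y, fun q => hy ⟨q⟩⟩
  choose F hF using key
  refine ⟨F, le_iInf fun n => le_iInf fun q => ?_⟩
  refine le_iff_ev.mpr ?_
  filter_upwards [ev_iSup (fun r => a n r)] with U hsup h1
  rw [Ult.iffB']
  have h4 := ult_iInf_le h1 n
  rw [Ult.inf'] at h4
  obtain ⟨r, hr⟩ := hsup.mp h4.1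
  have hFr : U (beq (F n) (rat r)) := U.mono (hF n r) ((U.inf _ _).mpr ⟨h1, hr⟩)
  constructor
  · intro h2
    exact U.mono (hF n q) ((U.inf _ _).mpr ⟨h1, h2⟩)
  · intro h2
    have h3 : U (beq (rat q) (rat r)) := ev_beq_trans (ev_beq_symm h2) hFr
    rw [n_beq_rat, ult_tv] at h3
    rw [h3]
    exact hr

end BSet

namespace Kb

open BSet

variable {B : Type u} [CompleteBooleanAlgebra B]

theorem powe_App {ι : Type} {d : BSet B} {D : ι → BSet B} (h : Std d D) (F : ι → BSet B)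
    {ψ : BSet B → B} (hψ : Ext ψ) (i : ι) : (⨅ b, App (seqB D F) (D i) b ⇨ ψ b) = ψ (F i) := by
  simp only [App_seqB_self h]
  exact iInf_beq hψ (F i)

theorem powe_nat (F : ℕ → BSet B) {ψ : BSet B → B} (hψ : Ext ψ) (k : ℕ) :
    (⨅ b, App (seqB nat F) (nat k) b ⇨ ψ b) = ψ (F k) := powe_App std_omega F hψ k

/-- clause `∀ n r, n ∈ ω → F n = r → ψ n r` -/
theorem powe_clause (F : ℕ → BSet B) {ψ : BSet B → BSet B → B} (h1 : ∀ n, Ext (fun r => ψ n r))
    (h2 : ∀ r, Ext (fun n => ψ n r)) :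
    (⨅ n, ⨅ r, bmem n omega ⇨ App (seqB nat F) n r ⇨ ψ n r) = ⨅ k : ℕ, ψ (nat k) (F k) := by
  simp only [← himp_iInf_eq]
  rw [std_omega.iInf (Ext.iInf fun r => (ext_App_a _ r).himp (h2 r))]
  exact iInf_congr fun k => powe_nat F (h1 _) k

theorem powe_zero (F : ℕ → BSet B) {i : BSet B} :
    (⨅ z, Emp z ⇨ App (seqB nat F) z i) = beq i (F 0) := by
  simp only [Emp_eq]
  rw [iInf_beq (ext_App_a _ i)]
  exact App_seqB_self std_omega F 0 i

theorem FunTo_seqB (F : ℕ → BSet B) :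
    FunTo (seqB nat F) omega (ratSet B) = isSeqQ (valQ F) := by
  unfold FunTo
  rw [FunOn_seqB std_omega, top_inf_eq]
  have h1 : (⨅ a, ⨅ b, App (seqB nat F) a b ⇨ bmem b (ratSet B)) =
      ⨅ n, bmem (F n) (ratSet B) := by
    simp only [App_seqB, iSup_himp_eq]
    refine le_antisymm ?_ ?_
    · refine le_iInf fun n => ?_
      refine (iInf_le _ (nat n)).trans ((iInf_le _ (F n)).trans ((iInf_le _ n).trans ?_))
      rw [beq_refl, beq_refl, top_inf_eq, top_himp]
    · refine le_iInf fun a => le_iInf fun b => le_iInf fun n => ?_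
      refine (iInf_le _ n).trans ?_
      rw [le_himp_iff]
      refine le_trans ?_ (bmem_congr_left (F n) b (ratSet B))
      rw [beq_symm (F n) b]
      exact le_inf (inf_le_right.trans inf_le_right) inf_le_left
  rw [h1]
  unfold isSeqQ
  refine iInf_congr fun n => ?_
  rw [std_ratSet.mem]
  refine (inf_eq_left.mpr ?_).symm
  refine le_iInf fun q => le_iInf fun r => ?_
  rw [le_himp_iff, ← n_beq_rat]
  refine le_trans inf_le_right ?_
  unfold valQ
  rw [beq_symm (F n) (rat q)]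
  exact beq_trans _ _ _

theorem powe_iSup_FunTo (r : BSet B) {ψ : BSet B → B} (hψ : Ext ψ) :
    (⨆ f, FunTo f omega r ⊓ ψ f) = ⨆ F : ℕ → BSet B, FunTo (seqB nat F) omega r ⊓ ψ (seqB nat F) := by
  have h1 : ∀ f : BSet B, FunTo f omega r ⊓ ψ f =
      FunOn f omega ⊓ (FunTo f omega r ⊓ ψ f) := fun f => by
    refine (inf_eq_right.mpr ?_).symm
    exact inf_le_left.trans inf_le_left
  rw [iSup_congr h1, iSup_FunOn std_omega ((ext_FunTo_f omega r).inf hψ)]

/-- recursion clause of `Pow` -/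
theorem powe_rec1 (F : ℕ → BSet B) (r : BSet B) (mul : BSet B) :
    (⨅ n, ⨅ m, ⨅ q, ⨅ q', bmem n omega ⇨ Suc m n ⇨ App (seqB nat F) n q ⇨
      App (seqB nat F) m q' ⇨ App2 mul q r q') = ⨅ k : ℕ, App2 mul (F k) r (F (k + 1)) := by
  simp only [← himp_iInf_eq]
  rw [std_omega.iInf]
  · refine iInf_congr fun k => ?_
    simp only [Suc_eq]
    rw [iInf_beq]
    · have e : succ (nat k) = (nat (k + 1) : BSet B) := rfl
      rw [e]
      have e2 : ∀ q : BSet B, (⨅ q', App (seqB nat F) (nat (k + 1)) q' ⇨ App2 mul q r q') =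
          App2 mul q r (F (k + 1)) := fun q => powe_nat F (ext_App2_c mul q r) (k + 1)
      simp only [e2]
      exact powe_nat F (ext_App2_a mul r (F (k + 1))) k
    · exact Ext.iInf fun q => (ext_const _).himp (Ext.iInf fun q' => (ext_App_a _ q').himp
        (ext_const _))
  · exact Ext.iInf fun m => (ext_Suc_x m).himp (Ext.iInf fun q => (ext_App_a _ q).himp
      (ext_const _))

/-- recursion clause of `SumLt` -/
theorem powe_rec2 (s e : ℕ → BSet B) (add : BSet B) :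
    (⨅ n, ⨅ m, ⨅ q, ⨅ r, ⨅ q', bmem n omega ⇨ Suc m n ⇨ App (seqB nat s) n q ⇨
      App (seqB nat e) n r ⇨ App (seqB nat s) m q' ⇨ App2 add q r q') =
      ⨅ k : ℕ, App2 add (s k) (e k) (s (k + 1)) := by
  simp only [← himp_iInf_eq]
  rw [std_omega.iInf]
  · refine iInf_congr fun k => ?_
    simp only [Suc_eq]
    rw [iInf_beq]
    · have e1 : succ (nat k) = (nat (k + 1) : BSet B) := rfl
      rw [e1]
      have e2 : ∀ q r : BSet B, (⨅ q', App (seqB nat s) (nat (k + 1)) q' ⇨ App2 add q r q') =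
          App2 add q r (s (k + 1)) := fun q r => powe_nat s (ext_App2_c add q r) (k + 1)
      simp only [e2]
      have e3 : ∀ q : BSet B, (⨅ r, App (seqB nat e) (nat k) r ⇨ App2 add q r (s (k + 1))) =
          App2 add q (e k) (s (k + 1)) := fun q => powe_nat e (ext_App2_b add q (s (k + 1))) k
      simp only [e3]
      exact powe_nat s (ext_App2_a add (e k) (s (k + 1))) k
    · exact Ext.iInf fun q => (ext_const _).himp (Ext.iInf fun r => (ext_const _).himp
        (Ext.iInf fun q' => (ext_App_a _ q').himp (ext_const _)))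
  · exact Ext.iInf fun m => (ext_Suc_x m).himp (Ext.iInf fun q => (ext_App_a _ q).himp
      (Ext.iInf fun r => (ext_App_a _ r).himp (ext_const _)))

/-- (`≤`: for a function `h` as in `Pow` the value of `h (nat n) = rat (r ^ n)` is above, by induction on
`n`; `≥`: take `seqB nat (fun n => rat (r ^ n))`) -/
theorem Pow_eq (r : ℚ) (j : ℕ) (t : BSet B) :
    Pow omega (ratSet B) (mulB B) (rat 1) (rat r) (nat j) t = beq t (rat (r ^ j)) := by
  unfold Pow
  rw [powe_iSup_FunTo]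
  · have h1 : ∀ F : ℕ → BSet B, App (seqB nat F) (nat j) t = beq t (F j) := fun F =>
      App_seqB_self std_omega F j t
    simp only [powe_zero, powe_rec1, FunTo_seqB, h1]
    refine le_antisymm ?_ ?_
    · refine iSup_le fun F => ?_
      refine le_iff_ev.mpr (Filter.Eventually.of_forall fun U hU => ?_)
      simp only [Ult.inf'] at hU
      obtain ⟨-, h2, h3, h4⟩ := hU
      have h5 : ∀ n : ℕ, U (beq (F n) (rat (r ^ n))) := by
        intro n
        induction n with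
        | zero =>
          rw [pow_zero]
          exact ev_beq_symm h2
        | succ n ih =>
          have h6 := ult_iInf_le h3 n
          unfold mulB at h6
          rw [ult_App2_rat _ ih (ev_beq_refl (rat r) U)] at h6
          rw [pow_succ]
          exact h6
      exact ev_beq_trans h4 (h5 j)
    · refine le_iSup_of_le (fun n => rat (r ^ n)) ?_
      refine le_inf ?_ (le_inf ?_ (le_inf ?_ le_rfl))
      · unfold isSeqQ
        refine le_iInf fun n => le_inf ?_ (le_iInf fun q => le_iInf fun q' => ?_)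
        · refine le_iSup_of_le (r ^ n) ?_
          unfold valQ
          rw [beq_refl]
          exact le_top
        · rw [le_himp_iff, ← n_beq_rat]
          refine le_trans inf_le_right ?_
          unfold valQ
          rw [beq_symm (rat (r ^ n)) (rat q)]
          exact beq_trans _ _ _
      · change _ ≤ beq (rat 1) (rat (r ^ 0))
        rw [pow_zero, beq_refl]
        exact le_top
      · refine le_iInf fun k => ?_
        unfold mulB
        rw [App2_opB_rat]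
        change _ ≤ beq (rat (r ^ (k + 1))) (rat (r ^ k * r))
        rw [pow_succ, beq_refl]
        exact le_top
  · refine Ext.inf (Ext.iInf fun z => (ext_const _).himp (ext_App_f z _)) (Ext.inf ?_
      (ext_App_f _ _))
    exact Ext.iInf fun n => Ext.iInf fun m => Ext.iInf fun q => Ext.iInf fun q' =>
      (ext_const _).himp ((ext_const _).himp ((ext_App_f n q).himp ((ext_App_f m q').himp
        (ext_const _))))

theorem InJ_eq (x : BSet B) (q r : ℚ) (j : ℕ) :
    InJ omega (ratSet B) (addB B) (mulB B) (rat 1) x (rat q) (rat r) (nat j) =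
      inJ x q (q + r ^ j) := by
  unfold InJ
  have h1 : ∀ t b : BSet B, bmem t (ratSet B) ⊓ (bmem b (ratSet B) ⊓
      (Pow omega (ratSet B) (mulB B) (rat 1) (rat r) (nat j) t ⊓ (App2 (addB B) (rat q) t b ⊓
        (bmem (rat q) x ⊓ (bmem b x)ᶜ)))) =
      beq t (rat (r ^ j)) ⊓ (bmem t (ratSet B) ⊓ (bmem b (ratSet B) ⊓
        (App2 (addB B) (rat q) t b ⊓ (bmem (rat q) x ⊓ (bmem b x)ᶜ)))) := fun t b => by
    rw [Pow_eq]
    ac_rfl
  have h2 : ∀ t : BSet B, (⨆ b, beq t (rat (r ^ j)) ⊓ (bmem t (ratSet B) ⊓ (bmem b (ratSet B) ⊓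
        (App2 (addB B) (rat q) t b ⊓ (bmem (rat q) x ⊓ (bmem b x)ᶜ))))) =
      beq t (rat (r ^ j)) ⊓ ⨆ b, (bmem t (ratSet B) ⊓ (bmem b (ratSet B) ⊓
        (App2 (addB B) (rat q) t b ⊓ (bmem (rat q) x ⊓ (bmem b x)ᶜ)))) := fun t => by
    rw [inf_iSup_eq]
  simp only [h1, h2]
  rw [iSup_beq]
  · have h3 : ∀ b : BSet B, bmem (rat (r ^ j)) (ratSet B) ⊓ (bmem b (ratSet B) ⊓
        (App2 (addB B) (rat q) (rat (r ^ j)) b ⊓ (bmem (rat q) x ⊓ (bmem b x)ᶜ))) =
        beq b (rat (q + r ^ j)) ⊓ (bmem b (ratSet B) ⊓ (bmem (rat q) x ⊓ (bmem b x)ᶜ)) :=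
      fun b => by
        unfold addB
        rw [App2_opB_rat, std_ratSet.mem_self, top_inf_eq]
        ac_rfl
    simp only [h3]
    rw [iSup_beq, std_ratSet.mem_self, top_inf_eq]
    · rfl
    · exact (ext_bmem_left _).inf ((ext_const _).inf (ext_bmem_left _).compl)
  · exact Ext.iSup fun b => (ext_bmem_left _).inf ((ext_const _).inf
      ((ext_App2_b _ _ _).inf (ext_const _)))

theorem SumLt_seqB (ε : ℚ) (e s : ℕ → BSet B) :
    SumLt omega (ratSet B) (addB B) (ltB B) (rat 0) (rat ε) (seqB nat e) (seqB nat s) =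
      isSum ε (valQ e) (valQ s) := by
  have c1 : (⨅ n, ⨅ r, bmem n omega ⇨ App (seqB nat e) n r ⇨ App (ltB B) (rat 0) r) =
      ⨅ k : ℕ, App (ltB B) (rat 0) (e k) :=
    powe_clause e (ψ := fun _ r => App (ltB B) (rat 0) r) (fun _ => ext_App_b _ _)
      (fun _ => ext_const _)
  have c4 : (⨅ n, ⨅ q, bmem n omega ⇨ App (seqB nat s) n q ⇨ App (ltB B) q (rat ε)) =
      ⨅ k : ℕ, App (ltB B) (s k) (rat ε) :=
    powe_clause s (ψ := fun _ q => App (ltB B) q (rat ε)) (fun _ => ext_App_a _ _)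
      (fun _ => ext_const _)
  unfold SumLt
  rw [FunTo_seqB, FunTo_seqB, c1, powe_zero, powe_rec2, c4]
  refine eq_iff_ev.mpr ?_
  have g1 : ∀ᶠ U in genF B, ∀ n : ℕ, (U (⨆ q, valQ e n q) ↔ ∃ q, U (valQ e n q)) :=
    eventually_countable_forall.mpr fun n => ev_iSup _
  have g2 : ∀ᶠ U in genF B, ∀ n : ℕ, (U (⨆ q, valQ s n q) ↔ ∃ q, U (valQ s n q)) :=
    eventually_countable_forall.mpr fun n => ev_iSup _
  have g3 : ∀ᶠ U in genF B, (U (⨅ k : ℕ, App (ltB B) (rat 0) (e k)) ↔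
      ∀ k, U (App (ltB B) (rat 0) (e k))) := ev_iInf _
  have g4 : ∀ᶠ U in genF B, (U (⨅ k : ℕ, App (ltB B) (s k) (rat ε)) ↔
      ∀ k, U (App (ltB B) (s k) (rat ε))) := ev_iInf _
  have g5 : ∀ᶠ U in genF B, (U (⨅ k : ℕ, App2 (addB B) (s k) (e k) (s (k + 1))) ↔
      ∀ k, U (App2 (addB B) (s k) (e k) (s (k + 1)))) := ev_iInf _
  have g6 : ∀ᶠ U in genF B, (U (⨅ n, ⨅ r, valQ e n r ⇨ tv B (0 < r)) ↔
      ∀ n r, U (valQ e n r) → 0 < r) := by
    have a1 := ev_iInf (fun n => ⨅ r, valQ e n r ⇨ tv B (0 < r))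
    have a2 : ∀ᶠ U in genF B, ∀ n, (U (⨅ r, valQ e n r ⇨ tv B (0 < r)) ↔
        ∀ r, U (valQ e n r ⇨ tv B (0 < r))) := eventually_countable_forall.mpr fun n => ev_iInf _
    filter_upwards [a1, a2] with U b1 b2
    rw [b1]
    simp only [b2, Ult.himp', ult_tv]
  have g7 : ∀ᶠ U in genF B, (U (⨅ n, ⨅ q, valQ s n q ⇨ tv B (q < ε)) ↔
      ∀ n q, U (valQ s n q) → q < ε) := by
    have a1 := ev_iInf (fun n => ⨅ q, valQ s n q ⇨ tv B (q < ε))
    have a2 : ∀ᶠ U in genF B, ∀ n, (U (⨅ q, valQ s n q ⇨ tv B (q < ε)) ↔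
        ∀ q, U (valQ s n q ⇨ tv B (q < ε))) := eventually_countable_forall.mpr fun n => ev_iInf _
    filter_upwards [a1, a2] with U b1 b2
    rw [b1]
    simp only [b2, Ult.himp', ult_tv]
  have g8 : ∀ᶠ U in genF B, (U (⨅ n, ⨅ q, ⨅ r, ⨅ q', (valQ s n q ⊓ valQ e n r ⊓
      valQ s (n + 1) q') ⇨ tv B (q' = q + r)) ↔
      ∀ n q r q', (U (valQ s n q) ∧ U (valQ e n r)) ∧ U (valQ s (n + 1) q') → q' = q + r) := by
    have a1 := ev_iInf (fun p : ℕ × ℚ × ℚ × ℚ => (valQ s p.1 p.2.1 ⊓ valQ e p.1 p.2.2.1 ⊓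
      valQ s (p.1 + 1) p.2.2.2) ⇨ tv B (p.2.2.2 = p.2.1 + p.2.2.1))
    filter_upwards [a1] with U b1
    have e1 : (⨅ n, ⨅ q, ⨅ r, ⨅ q', (valQ s n q ⊓ valQ e n r ⊓
        valQ s (n + 1) q') ⇨ tv B (q' = q + r)) = ⨅ p : ℕ × ℚ × ℚ × ℚ,
        (valQ s p.1 p.2.1 ⊓ valQ e p.1 p.2.2.1 ⊓
      valQ s (p.1 + 1) p.2.2.2) ⇨ tv B (p.2.2.2 = p.2.1 + p.2.2.1) := by
      simp only [iInf_prod]
    rw [e1, b1]
    constructor
    · intro h n q r q' h'
      have := h (n, q, r, q')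
      simp only [Ult.himp', Ult.inf', ult_tv] at this
      exact this h'
    · intro h p
      simp only [Ult.himp', Ult.inf', ult_tv]
      exact h p.1 p.2.1 p.2.2.1 p.2.2.2
  filter_upwards [g1, g2, g3, g4, g5, g6, g7, g8] with U h1 h2 h3 h4 h5 h6 h7 h8
  unfold isSum
  simp only [Ult.inf', h3, h4, h5, h6, h7, h8]
  constructor
  · rintro ⟨he, hs, b1, b2, b3, b4⟩
    refine ⟨⟨⟨⟨⟨he, hs⟩, fun n r hr => ?_⟩, ?_⟩, ?_⟩, fun n q hq => ?_⟩
    · exact (ult_App_lt_rat (ev_beq_refl (rat 0) U) hr).mp (b1 n)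
    · exact ev_beq_symm b2
    · rintro n q r q' ⟨⟨c1, c2⟩, c3⟩
      have := b3 n
      unfold addB at this
      rw [ult_App2_rat _ c1 c2] at this
      exact ult_rat_unique c3 this
    · exact (ult_App_lt_rat hq (ev_beq_refl (rat ε) U)).mp (b4 n)
  · rintro ⟨⟨⟨⟨⟨he, hs⟩, b1⟩, b2⟩, b3⟩, b4⟩
    have he' : ∀ n, ∃ q, U (valQ e n q) := fun n => by
      have := ult_iInf_le he n
      rw [Ult.inf', h1 n] at this
      exact this.1
    have hs' : ∀ n, ∃ q, U (valQ s n q) := fun n => by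
      have := ult_iInf_le hs n
      rw [Ult.inf', h2 n] at this
      exact this.1
    refine ⟨he, hs, fun n => ?_, ev_beq_symm b2, fun n => ?_, fun n => ?_⟩
    · obtain ⟨r, hr⟩ := he' n
      exact (ult_App_lt_rat (ev_beq_refl (rat 0) U) hr).mpr (b1 n r hr)
    · obtain ⟨r, hr⟩ := he' n
      obtain ⟨q, hq⟩ := hs' n
      obtain ⟨q', hq'⟩ := hs' (n + 1)
      unfold addB
      rw [ult_App2_rat _ hq hr, ← b3 n q r q' ⟨⟨hq, hr⟩, hq'⟩]
      exact hq'
    · obtain ⟨q, hq⟩ := hs' n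
      exact (ult_App_lt_rat hq (ev_beq_refl (rat ε) U)).mpr (b4 n q hq)

end Kb

end Pool.Agent.Lib.MP_4d8715_gt.KR
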