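import Pool.Agent.Lib.MP_4d8715_gt.KR.E.Top

/-!
# The ordered field of the rational numbers (modules E-RAT, E-PRIME)

For `U` generic and `x : BSet B` with `U (bmem x (ratSet B))` there is exactly one `q` with `U (beq x (rat q))` (`ev_mem_ratSet`); then
`U (App2 (opQ B f) x y z)` iff `U (beq z (rat (f q r)))` (`ev_App2`), `U (App (ltB B) x y)` iff `q < r` (`ev_App_lt`). To prove
that a value such as `⨅ a, bmem a Q ⇨ ψ a` is `⊤`: `le_iInf`, then `le_iff_ev` for the fixed `a`, ..; for `⨆ b, bmem b Q ⊓ ψ b` give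
`b = rat q` (for a fixed `q`, after a case distinction over the countably many `q`: `bmem a Q = ⨆ q, beq a (rat q)`). -/

universe u

namespace Pool.Agent.Lib.MP_4d8715_gt.KR

namespace BSet

/-- a binary operation on the rational numbers -/
def opQ (B : Type u) [CompleteBooleanAlgebra B] (f : ℚ → ℚ → ℚ) : BSet B :=
  mk (ULift (ℚ × ℚ)) (fun p => opair (opair (rat p.down.1) (rat p.down.2))
    (rat (f p.down.1 p.down.2))) (fun _ => ⊤)

/-- addition -/
def addB (B : Type u) [CompleteBooleanAlgebra B] : BSet B := opQ B (fun q r => q + r)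

/-- multiplication -/
def mulB (B : Type u) [CompleteBooleanAlgebra B] : BSet B := opQ B (fun q r => q * r)

end BSet

namespace Kb

open BSet

variable {B : Type u} [CompleteBooleanAlgebra B]

private theorem ratF_le_of_ult {a b : B} (h : ∀ U : Ult B, U a → U b) : a ≤ b :=
  le_iff_ev.2 (Filter.Eventually.of_forall h)

private theorem ratF_ext_congr {ψ : BSet B → B} (hψ : Ext ψ) {U : Ult B} {x y : BSet B}
    (h : U (beq x y)) : U (ψ x) ↔ U (ψ y) :=
  ⟨fun h1 => U.mono (hψ x y) ((U.inf _ _).2 ⟨h, h1⟩),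
    fun h1 => U.mono (hψ y x) ((U.inf _ _).2 ⟨ev_beq_symm h, h1⟩)⟩

theorem App2_opB (f : ℚ → ℚ → ℚ) (a b c : BSet B) : App2 (opQ B f) a b c =
    ⨆ p : ℚ × ℚ, beq a (rat p.1) ⊓ (beq b (rat p.2) ⊓ beq c (rat (f p.1 p.2))) := by
  rw [App2_eq, opQ, basic_bmem_mk, iSup_ulift]
  refine iSup_congr fun p => ?_
  simp only []
  rw [top_inf_eq, beq_opair, beq_opair, inf_assoc]

theorem App2_opB_rat (f : ℚ → ℚ → ℚ) (q r : ℚ) (c : BSet B) :
    App2 (opQ B f) (rat q) (rat r) c = beq c (rat (f q r)) := by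
  rw [App2_opB]
  refine le_antisymm (iSup_le fun p => ?_) (le_iSup_of_le (q, r) ?_)
  · refine ratF_le_of_ult fun U h => ?_
    rw [Ult.inf', Ult.inf', n_beq_rat, ult_tv, n_beq_rat, ult_tv] at h
    rw [h.1, h.2.1]
    exact h.2.2
  · rw [beq_refl, beq_refl, top_inf_eq, top_inf_eq]

theorem ult_beq_rat (U : Ult B) (q r : ℚ) : U (beq (rat q) (rat r)) ↔ q = r := by
  rw [n_beq_rat, ult_tv]

theorem ult_rat_unique {U : Ult B} {x : BSet B} {q r : ℚ} (h : U (beq x (rat q)))
    (h' : U (beq x (rat r))) : q = r := by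
  exact (ult_beq_rat U q r).1 (ev_beq_trans (ev_beq_symm h) h')

theorem ev_mem_ratSet (x : BSet B) :
    ∀ᶠ U in genF B, (U (bmem x (ratSet B)) ↔ ∃ q, U (beq x (rat q))) := by
  rw [std_ratSet.mem x]
  exact ev_iSup _

/-- for all ultrafilters (not only generic ones) -/
theorem ult_App2_rat {U : Ult B} (f : ℚ → ℚ → ℚ) {x y z : BSet B} {q r : ℚ}
    (hx : U (beq x (rat q))) (hy : U (beq y (rat r))) :
    U (App2 (opQ B f) x y z) ↔ U (beq z (rat (f q r))) := by
  rw [ratF_ext_congr (ext_App2_a (opQ B f) y z) hx, ratF_ext_congr (ext_App2_b (opQ B f) (rat q) z) hy,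
    App2_opB_rat]

theorem ult_App_lt_rat {U : Ult B} {x y : BSet B} {q r : ℚ} (hx : U (beq x (rat q)))
    (hy : U (beq y (rat r))) : U (App (ltB B) x y) ↔ q < r := by
  rw [ratF_ext_congr (ext_App_a (ltB B) y) hx, ratF_ext_congr (ext_App_b (ltB B) (rat q)) hy,
    App_ltB_rat, ult_tv]

/-- to prove an extensional statement for all rational numbers of the model it suffices to prove it
for the `rat q` -/
theorem le_iInf_rat {ψ : BSet B → B} (hψ : Ext ψ) {p : B} (h : ∀ q, p ≤ ψ (rat q)) :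
    p ≤ ⨅ x, bmem x (ratSet B) ⇨ ψ x := by
  rw [std_ratSet.iInf hψ]
  exact le_iInf h

/-- an element of `B` is `⊤` if it belongs to all sufficiently generic ultrafilters -/
private theorem RatF_top {b : B} (h : ∀ᶠ U in genF B, U b) : b = ⊤ := by
  refine eq_top_iff.2 (le_iff_ev.2 ?_)
  filter_upwards [h] with U hU _
  exact hU

private theorem RatF_mem (U : Ult B) (q : ℚ) : U (bmem (rat q) (ratSet B)) := by
  rw [std_ratSet.mem_self q]
  exact U.top

theorem BinOp_opB (f : ℚ → ℚ → ℚ) : BinOp (ratSet B) (opQ B f) = ⊤ := by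
  refine eq_top_iff.2 (le_iInf fun a => le_iInf fun b => le_iff_ev.2 ?_)
  filter_upwards [ev_mem_ratSet a, ev_mem_ratSet b] with U ha hb _
  rw [Ult.himp', Ult.himp', ha, hb]
  rintro ⟨q, hq⟩ ⟨r, hr⟩
  refine ult_iSup_le (i := rat (f q r)) ?_
  rw [Ult.inf', los_iInf ((ext_App2_c _ _ _).iffB (ext_beq_left _))]
  refine ⟨RatF_mem U _, fun d => ?_⟩
  rw [Ult.iffB', ult_App2_rat f hq hr]

theorem AssocComm_opB (f : ℚ → ℚ → ℚ) (h1 : ∀ a b c, f (f a b) c = f a (f b c))
    (h2 : ∀ a b, f a b = f b a) : AssocComm (ratSet B) (opQ B f) = ⊤ := by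
  refine eq_top_iff.2 (le_inf ?_ ?_)
  · refine le_iInf fun a => le_iInf fun b => le_iInf fun c => ?_
    rw [le_himp_iff, le_himp_iff, le_himp_iff]
    refine le_iInf fun d => le_iInf fun e => le_iInf fun g => le_iff_ev.2 ?_
    filter_upwards [ev_mem_ratSet a, ev_mem_ratSet b, ev_mem_ratSet c] with U ha hb hc
    simp only [Ult.inf', Ult.himp']
    rw [ha, hb, hc]
    rintro ⟨⟨⟨_, q, hq⟩, r, hr⟩, s, hs⟩ h3 h4 h5
    rw [ult_App2_rat f hq hr] at h3
    rw [ult_App2_rat f hr hs] at h4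
    rw [ult_App2_rat f h3 hs] at h5
    rw [ult_App2_rat f hq h4, ← h1]
    exact h5
  · refine le_iInf fun a => le_iInf fun b => le_iInf fun c => le_iff_ev.2 ?_
    filter_upwards [ev_mem_ratSet a, ev_mem_ratSet b] with U ha hb _
    simp only [Ult.himp']
    rw [ha, hb]
    rintro ⟨q, hq⟩ ⟨r, hr⟩ h3
    rw [ult_App2_rat f hq hr] at h3
    rw [ult_App2_rat f hr hq, h2]
    exact h3

theorem Neutral_opB (f : ℚ → ℚ → ℚ) (o : ℚ) (h : ∀ a, f a o = a) :
    Neutral (ratSet B) (opQ B f) (rat o) = ⊤ := by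
  refine eq_top_iff.2 (le_inf (by rw [std_ratSet.mem_self]) ?_)
  refine le_iInf fun a => le_iff_ev.2 ?_
  filter_upwards [ev_mem_ratSet a] with U ha _
  rw [Ult.himp', ha]
  rintro ⟨q, hq⟩
  have ho : U (beq (rat o) (rat o)) := (ult_beq_rat U o o).2 rfl
  rw [ult_App2_rat f hq ho, h]
  exact hq

theorem OrdField_rat : OrdField (ratSet B) (addB B) (mulB B) (ltB B) (rat 0) (rat 1) = ⊤ := by
  have r0 : ∀ (U : Ult B) (q : ℚ), U (beq (rat q) (rat q)) := fun U q => (ult_beq_rat U q q).2 rfl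
  have hadd : ∀ {U : Ult B} {x y z : BSet B} {q r : ℚ}, U (beq x (rat q)) → U (beq y (rat r)) →
      (U (App2 (addB B) x y z) ↔ U (beq z (rat (q + r)))) :=
    fun hx hy => ult_App2_rat _ hx hy
  have hmul : ∀ {U : Ult B} {x y z : BSet B} {q r : ℚ}, U (beq x (rat q)) → U (beq y (rat r)) →
      (U (App2 (mulB B) x y z) ↔ U (beq z (rat (q * r)))) :=
    fun hx hy => ult_App2_rat _ hx hy
  refine eq_top_iff.2 ?_
  unfold OrdField
  refine le_inf (BinOp_opB _).ge (le_inf (BinOp_opB _).ge (le_inf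
    (AssocComm_opB _ add_assoc add_comm).ge (le_inf (AssocComm_opB _ mul_assoc mul_comm).ge
    (le_inf (Neutral_opB _ _ add_zero).ge (le_inf (Neutral_opB _ _ mul_one).ge (le_inf ?_
    (le_inf ?_ (le_inf ?_ (le_inf ?_ (le_inf ?_ (le_inf ?_ (le_inf ?_ (le_inf ?_ ?_)))))))))))))
  · refine le_iff_ev.2 (Filter.Eventually.of_forall fun U _ => ?_)
    rw [Ult.compl', ult_beq_rat]
    exact zero_ne_one
  · refine le_iInf fun a => le_iff_ev.2 ?_
    filter_upwards [ev_mem_ratSet a] with U ha _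
    rw [Ult.himp', ha]
    rintro ⟨q, hq⟩
    refine ult_iSup_le (i := rat (-q)) ?_
    rw [Ult.inf', hadd hq (r0 U (-q)), ult_beq_rat]
    exact ⟨RatF_mem U _, (add_neg_cancel q).symm⟩
  · refine le_iInf fun a => le_iff_ev.2 ?_
    filter_upwards [ev_mem_ratSet a] with U ha _
    rw [Ult.himp', Ult.himp', Ult.compl', ha]
    rintro ⟨q, hq⟩ h0
    have hq0 : q ≠ 0 := by
      rintro rfl
      exact h0 hq
    refine ult_iSup_le (i := rat q⁻¹) ?_
    rw [Ult.inf', hmul hq (r0 U q⁻¹), ult_beq_rat]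
    exact ⟨RatF_mem U _, (mul_inv_cancel₀ hq0).symm⟩
  · refine le_iInf fun a => le_iInf fun b => le_iInf fun c => ?_
    rw [le_himp_iff, le_himp_iff, le_himp_iff]
    refine le_iInf fun d => le_iInf fun e => le_iInf fun g => le_iInf fun h => le_iff_ev.2 ?_
    filter_upwards [ev_mem_ratSet a, ev_mem_ratSet b, ev_mem_ratSet c] with U ha hb hc
    simp only [Ult.inf', Ult.himp']
    rw [ha, hb, hc]
    rintro ⟨⟨⟨_, q, hq⟩, r, hr⟩, s, hs⟩ h1 h2 h3 h4
    rw [hadd hr hs] at h1
    rw [hmul hq h1] at h2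
    rw [hmul hq hr] at h3
    rw [hmul hq hs] at h4
    rw [hadd h3 h4, ← mul_add]
    exact h2
  · refine le_iInf fun a => le_iff_ev.2 ?_
    filter_upwards [ev_mem_ratSet a] with U ha _
    rw [Ult.himp', Ult.compl', ha]
    rintro ⟨q, hq⟩
    rw [ult_App_lt_rat hq hq]
    exact lt_irrefl q
  · refine le_iInf fun a => le_iInf fun b => le_iInf fun c => le_iff_ev.2 ?_
    filter_upwards [ev_mem_ratSet a, ev_mem_ratSet b, ev_mem_ratSet c] with U ha hb hc _
    simp only [Ult.himp']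
    rw [ha, hb, hc]
    rintro ⟨q, hq⟩ ⟨r, hr⟩ ⟨s, hs⟩
    rw [ult_App_lt_rat hq hr, ult_App_lt_rat hr hs, ult_App_lt_rat hq hs]
    exact lt_trans
  · refine le_iInf fun a => le_iInf fun b => le_iff_ev.2 ?_
    filter_upwards [ev_mem_ratSet a, ev_mem_ratSet b] with U ha hb _
    simp only [Ult.himp', Ult.sup']
    rw [ha, hb]
    rintro ⟨q, hq⟩ ⟨r, hr⟩
    rw [ult_App_lt_rat hq hr, ult_App_lt_rat hr hq]
    rcases lt_trichotomy q r with h | h | h
    · exact Or.inl h
    · subst h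
      exact Or.inr (Or.inl (ev_beq_trans hq (ev_beq_symm hr)))
    · exact Or.inr (Or.inr h)
  · refine le_iInf fun a => le_iInf fun b => le_iInf fun c => ?_
    rw [le_himp_iff, le_himp_iff, le_himp_iff, le_himp_iff]
    refine le_iInf fun d => le_iInf fun e => le_iff_ev.2 ?_
    filter_upwards [ev_mem_ratSet a, ev_mem_ratSet b, ev_mem_ratSet c] with U ha hb hc
    simp only [Ult.inf', Ult.himp']
    rw [ha, hb, hc]
    rintro ⟨⟨⟨⟨_, q, hq⟩, r, hr⟩, s, hs⟩, hlt⟩ h1 h2
    rw [ult_App_lt_rat hq hr] at hlt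
    rw [hadd hq hs] at h1
    rw [hadd hr hs] at h2
    rw [ult_App_lt_rat h1 h2]
    exact add_lt_add_left hlt s
  · refine le_iInf fun a => le_iInf fun b => ?_
    rw [le_himp_iff, le_himp_iff, le_himp_iff, le_himp_iff]
    refine le_iInf fun c => le_iff_ev.2 ?_
    filter_upwards [ev_mem_ratSet a, ev_mem_ratSet b] with U ha hb
    simp only [Ult.inf', Ult.himp']
    rw [ha, hb]
    rintro ⟨⟨⟨⟨_, q, hq⟩, r, hr⟩, h1⟩, h2⟩ h3
    rw [ult_App_lt_rat (r0 U 0) hq] at h1
    rw [ult_App_lt_rat (r0 U 0) hr] at h2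
    rw [hmul hq hr] at h3
    rw [ult_App_lt_rat (r0 U 0) h3]
    exact mul_pos h1 h2

/-- (`{q | Subfield .. K ≤ bmem (rat q) K}` is a subfield of `ℚ`) -/
theorem Subfield_le (K : BSet B) :
    Subfield (ratSet B) (addB B) (mulB B) (rat 0) (rat 1) K ≤ Sub (ratSet B) K := by
  set p : B := Subfield (ratSet B) (addB B) (mulB B) (rat 0) (rat 1) K with hp
  have hadd : ∀ q r : ℚ, App2 (addB B) (rat q) (rat r) (rat (q + r)) = ⊤ := by
    intro q r
    rw [addB, App2_opB_rat, beq_refl]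
  have hmul : ∀ q r : ℚ, App2 (mulB B) (rat q) (rat r) (rat (q * r)) = ⊤ := by
    intro q r
    rw [mulB, App2_opB_rat, beq_refl]
  have hQ : ∀ q : ℚ, bmem (rat q) (ratSet B) = ⊤ := fun q => std_ratSet.mem_self q
  have h0 : p ≤ bmem (rat 0) K := by
    rw [hp]
    unfold Subfield
    exact inf_le_right.trans inf_le_left
  have h1 : p ≤ bmem (rat 1) K := by
    rw [hp]
    unfold Subfield
    exact inf_le_right.trans (inf_le_right.trans inf_le_left)
  let S : _root_.Subfield ℚ :=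
    { carrier := {q : ℚ | p ≤ bmem (rat q) K}
      zero_mem' := h0
      one_mem' := h1
      add_mem' := by
        intro q r hq hr
        refine ratF_le_of_ult fun U hU => ?_
        have hU' := hU
        rw [hp] at hU'
        unfold Subfield at hU'
        rw [Ult.inf', Ult.inf', Ult.inf', Ult.inf', Ult.inf', Ult.inf'] at hU'
        have h2 := ult_iInf_le (ult_iInf_le (ult_iInf_le hU'.2.2.2.1 (rat q)) (rat r))
          (rat (q + r))
        rw [Ult.himp', Ult.himp', Ult.himp', hadd] at h2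
        exact h2 (U.mono hq hU) (U.mono hr hU) U.top
      neg_mem' := by
        intro q hq
        refine ratF_le_of_ult fun U hU => ?_
        have hU' := hU
        rw [hp] at hU'
        unfold Subfield at hU'
        rw [Ult.inf', Ult.inf', Ult.inf', Ult.inf', Ult.inf', Ult.inf'] at hU'
        have h2 := ult_iInf_le (ult_iInf_le hU'.2.2.2.2.1 (rat q)) (rat (-q))
        have h3 := hadd q (-q)
        rw [add_neg_cancel] at h3
        rw [Ult.himp', Ult.himp', Ult.himp', h3, hQ] at h2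
        exact h2 (U.mono hq hU) U.top U.top
      mul_mem' := by
        intro q r hq hr
        refine ratF_le_of_ult fun U hU => ?_
        have hU' := hU
        rw [hp] at hU'
        unfold Subfield at hU'
        rw [Ult.inf', Ult.inf', Ult.inf', Ult.inf', Ult.inf', Ult.inf'] at hU'
        have h2 := ult_iInf_le (ult_iInf_le (ult_iInf_le hU'.2.2.2.2.2.1 (rat q)) (rat r))
          (rat (q * r))
        rw [Ult.himp', Ult.himp', Ult.himp', hmul] at h2
        exact h2 (U.mono hq hU) (U.mono hr hU) U.top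
      inv_mem' := by
        intro q hq
        by_cases hq0 : q = 0
        · rw [hq0, inv_zero]
          exact h0
        refine ratF_le_of_ult fun U hU => ?_
        have hU' := hU
        rw [hp] at hU'
        unfold Subfield at hU'
        rw [Ult.inf', Ult.inf', Ult.inf', Ult.inf', Ult.inf', Ult.inf'] at hU'
        have h2 := ult_iInf_le (ult_iInf_le hU'.2.2.2.2.2.2 (rat q)) (rat q⁻¹)
        have h3 := hmul q q⁻¹
        rw [mul_inv_cancel₀ hq0] at h3
        rw [Ult.himp', Ult.himp', Ult.himp', h3, hQ] at h2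
        exact h2 (U.mono hq hU) U.top U.top }
  unfold Sub
  refine le_iInf_rat (ext_bmem_left K) fun q => ?_
  have h2 : ((q : ℚ) : ℚ) ∈ S := by
    have := SubfieldClass.ratCast_mem S q
    simpa using this
  exact h2

theorem Rationals_rat : Rationals (ratSet B) (addB B) (mulB B) (ltB B) (rat 0) (rat 1) = ⊤ := by
  unfold Rationals
  rw [OrdField_rat, top_inf_eq, ← top_le_iff]
  refine le_iInf fun K => ?_
  rw [le_himp_iff, top_inf_eq]
  exact Subfield_le K

end Kb

end Pool.Agent.Lib.MP_4d8715_gt.KR
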