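import Pool.Agent.Lib.MP_4d8715_gt.KR.E.Base

/-!
# Functions on standard sets are sequences (module E-SEQ)
-/

universe u

namespace Pool.Agent.Lib.MP_4d8715_gt.KR

namespace BSet

variable {B : Type u} [CompleteBooleanAlgebra B]

/-- the function with the values `F i` at `D i` -/
def seqB {ι : Type} (D F : ι → BSet B) : BSet B :=
  mk (ULift ι) (fun i => opair (D i.down) (F i.down)) (fun _ => ⊤)

theorem bmem_seqB {ι : Type} (D F : ι → BSet B) (p : BSet B) :
    bmem p (seqB D F) = ⨆ i, beq p (opair (D i) (F i)) := by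
  unfold seqB
  rw [basic_bmem_mk]
  simp only [top_inf_eq]
  exact (Equiv.ulift.iSup_comp (g := fun i => beq p (opair (D i) (F i))))

end BSet

namespace Kb

open BSet

variable {B : Type u} [CompleteBooleanAlgebra B] {ι : Type} {d : BSet B} {D : ι → BSet B}

theorem App_seqB (D F : ι → BSet B) (a b : BSet B) :
    App (seqB D F) a b = ⨆ i, beq a (D i) ⊓ beq b (F i) := by
  rw [App_eq, bmem_seqB]
  simp only [beq_opair]

theorem App_seqB_self (h : Std d D) (F : ι → BSet B) (i : ι) (b : BSet B) :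
    App (seqB D F) (D i) b = beq b (F i) := by
  rw [App_seqB]
  refine le_antisymm (iSup_le fun j => ?_) ?_
  · rw [h.inj i j]
    unfold tv
    rw [iSup_inf_eq]
    refine iSup_le fun hij => ?_
    rw [hij]
    exact inf_le_right
  · refine le_iSup_of_le i ?_
    rw [beq_refl, top_inf_eq]

private theorem seq_ext {ψ : BSet B → B}
    (h : ∀ x y, ∀ U : Ult B, U (beq x y) → U (ψ x) → U (ψ y)) : Ext ψ := by
  intro x y
  refine le_iff_ev.mpr (Filter.Eventually.of_forall fun U hU => ?_)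
  rw [Ult.inf'] at hU
  exact h x y U hU.1 hU.2

private theorem seq_ext_a (f : BSet B) :
    Ext (fun a => ⨆ b, ⨅ c, iffB (App f a c) (beq c b)) :=
  Ext.iSup fun _ => Ext.iInf fun c => (ext_App_a f c).iffB (ext_const _)

private theorem seq_ext_b (f a : BSet B) : Ext (fun b => ⨅ c, iffB (App f a c) (beq c b)) :=
  Ext.iInf fun c => (ext_const _).iffB (ext_beq_right c)

theorem FunOn_seqB (h : Std d D) (F : ι → BSet B) : FunOn (seqB D F) d = ⊤ := by
  unfold FunOn
  have h1 : (⨅ p, bmem p (seqB D F) ⇨ (⨆ a, ⨆ b, bmem a d ⊓ Pair p a b)) = ⊤ := by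
    rw [iInf_eq_top]
    intro p
    rw [himp_eq_top_iff, bmem_seqB]
    refine iSup_le fun i => le_iSup_of_le (D i) (le_iSup_of_le (F i) ?_)
    rw [h.mem_self, top_inf_eq, Pair_eq]
  have h2 : (⨅ a, bmem a d ⇨ (⨆ b, ⨅ c, iffB (App (seqB D F) a c) (beq c b))) = ⊤ := by
    rw [h.iInf (seq_ext_a (seqB D F)), iInf_eq_top]
    intro i
    refine top_unique (le_iSup_of_le (F i) (le_iInf fun c => ?_))
    rw [App_seqB_self h]
    refine le_iff_ev.mpr (Filter.Eventually.of_forall fun U _ => ?_)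
    rw [Ult.iffB']
  rw [h1, h2, inf_top_eq]

/-- every function on `d` is given by a sequence (maximum principle for every `D i`) -/
theorem exists_FunOn_eq (h : Std d D) (f : BSet B) :
    ∃ F : ι → BSet B, FunOn f d = beq f (seqB D F) := by
  have hF : ∀ i, ∃ b, (⨅ c, iffB (App f (D i) c) (beq c b)) =
      ⨆ b, ⨅ c, iffB (App f (D i) c) (beq c b) := fun i =>
    exists_max _ (seq_ext_b f (D i))
  choose F hF using hF
  refine ⟨F, le_antisymm ?_ ?_⟩
  · have hval : ∀ i, FunOn f d ≤ ⨅ c, iffB (App f (D i) c) (beq c (F i)) := by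
      intro i
      rw [hF i]
      have h1 : FunOn f d ≤ ⨅ a, bmem a d ⇨ (⨆ b, ⨅ c, iffB (App f a c) (beq c b)) := inf_le_right
      rw [h.iInf (seq_ext_a f)] at h1
      exact h1.trans (iInf_le _ i)
    rw [BSet.beq_ext]
    refine le_iInf fun p => le_inf ?_ ?_
    · rw [le_himp_iff]
      have h1 : FunOn f d ⊓ bmem p f ≤ (FunOn f d ⊓ bmem p f) ⊓
          (⨆ a, ⨆ b, ⨆ i, beq a (D i) ⊓ beq p (opair a b)) := by
        refine le_inf le_rfl ?_
        have h2 : FunOn f d ⊓ bmem p f ≤ ⨆ a, ⨆ b, bmem a d ⊓ Pair p a b := by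
          rw [← le_himp_iff]
          exact inf_le_left.trans (iInf_le _ p)
        refine h2.trans (iSup_mono fun a => iSup_mono fun b => ?_)
        rw [h.mem, iSup_inf_eq, Pair_eq]
      refine h1.trans ?_
      rw [inf_iSup_eq]
      refine iSup_le fun a => ?_
      rw [inf_iSup_eq]
      refine iSup_le fun b => ?_
      rw [inf_iSup_eq]
      refine iSup_le fun i => ?_
      rw [bmem_seqB]
      refine le_trans ?_ (le_iSup _ i)
      refine le_iff_ev.mpr (Filter.Eventually.of_forall fun U hU => ?_)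
      rw [Ult.inf', Ult.inf', Ult.inf'] at hU
      obtain ⟨⟨h3, h4⟩, h5, h6⟩ := hU
      have h7 : U (beq p (opair (D i) b)) := by
        refine ev_beq_trans h6 ?_
        rw [beq_opair, Ult.inf']
        exact ⟨h5, ev_beq_refl _ _⟩
      have h8 : U (App f (D i) b) := by
        rw [App_eq]
        exact ev_bmem_left h7 h4
      have h9 : U (beq b (F i)) := by
        have h10 := ult_iInf_le (U.mono (hval i) h3) b
        exact (U.iffB'.mp h10).mp h8
      refine ev_beq_trans h7 ?_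
      rw [beq_opair, Ult.inf']
      exact ⟨ev_beq_refl _ _, h9⟩
    · rw [le_himp_iff, bmem_seqB, inf_iSup_eq]
      refine iSup_le fun i => ?_
      refine le_iff_ev.mpr (Filter.Eventually.of_forall fun U hU => ?_)
      rw [Ult.inf'] at hU
      obtain ⟨h3, h4⟩ := hU
      have h10 := ult_iInf_le (U.mono (hval i) h3) (F i)
      have h8 : U (App f (D i) (F i)) := (U.iffB'.mp h10).mpr (ev_beq_refl _ _)
      rw [App_eq] at h8
      exact ev_bmem_left (ev_beq_symm h4) h8
  · have h1 : beq (seqB D F) f ⊓ FunOn (seqB D F) d ≤ FunOn f d := ext_FunOn_f d _ _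
    rw [FunOn_seqB h, inf_top_eq, beq_symm] at h1
    exact h1

theorem iInf_FunOn (h : Std d D) {ψ : BSet B → B} (hψ : Ext ψ) :
    (⨅ f, FunOn f d ⇨ ψ f) = ⨅ F : ι → BSet B, ψ (seqB D F) := by
  refine le_antisymm (le_iInf fun F => ?_) (le_iInf fun f => ?_)
  · refine (iInf_le _ (seqB D F)).trans ?_
    rw [FunOn_seqB h, top_himp]
  · obtain ⟨F, hF⟩ := exists_FunOn_eq h f
    refine (iInf_le _ F).trans ?_
    rw [le_himp_iff, hF, inf_comm, beq_symm]
    exact hψ _ _

theorem iSup_FunOn (h : Std d D) {ψ : BSet B → B} (hψ : Ext ψ) :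
    (⨆ f, FunOn f d ⊓ ψ f) = ⨆ F : ι → BSet B, ψ (seqB D F) := by
  refine le_antisymm (iSup_le fun f => ?_) (iSup_le fun F => ?_)
  · obtain ⟨F, hF⟩ := exists_FunOn_eq h f
    refine le_trans ?_ (le_iSup _ F)
    rw [hF]
    exact hψ _ _
  · refine le_iSup_of_le (seqB D F) ?_
    rw [FunOn_seqB h, top_inf_eq]

end Kb

end Pool.Agent.Lib.MP_4d8715_gt.KR
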