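import Pool.Agent.Lib.MP_4d8715_gt.KR.E.Top
import Pool.Agent.Lib.MP_4d8715_gt.KR.E.FinEq

/-!
# Statement (i) (module E-STI)
-/

universe u

namespace Pool.Agent.Lib.MP_4d8715_gt.KR

namespace Kb

open BSet

variable {B : Type u} [CompleteBooleanAlgebra B]

theorem Cover_eq (U X : BSet B) : Cover (ratSet B) (ltB B) U X = isCover U X := by
  unfold Cover isCover
  simp only [OpenIn_eq]
  rw [inf_assoc]

theorem OmegaCover_eq (U X : BSet B) :
    OmegaCover omega (ratSet B) (ltB B) U X = isOmega U X := by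
  unfold OmegaCover isOmega
  rw [Cover_eq]
  simp only [Finite_eq, Sub_eq, himp_himp]

theorem GammaCover_eq (U X : BSet B) :
    GammaCover omega (ratSet B) (ltB B) U X = isGamma U X := by
  unfold GammaCover isGamma
  rw [Cover_eq]
  simp only [Finite_eq]
  rw [inf_assoc]

private theorem stI_bmem_ran (G : ℕ → BSet B) (V : BSet B) :
    bmem V (ran G) = ⨆ n, beq V (G n) := by
  unfold ran
  rw [basic_bmem_mk]
  simp only [top_inf_eq]
  exact (Equiv.ulift.iSup_comp (g := fun n => beq V (G n)))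

private theorem stI_premise (F : ℕ → BSet B) (X : BSet B) :
    (⨅ n : BSet B, ⨅ U, bmem n omega ⇨ App (seqB nat F) n U ⇨
      OmegaCover omega (ratSet B) (ltB B) U X) = ⨅ n, isOmega (F n) X := by
  have h1 : ∀ n : BSet B, (⨅ U, bmem n omega ⇨ App (seqB nat F) n U ⇨
      OmegaCover omega (ratSet B) (ltB B) U X) =
      bmem n omega ⇨ ⨅ U, App (seqB nat F) n U ⇨ isOmega U X := by
    intro n
    simp only [OmegaCover_eq]
    rw [himp_iInf_eq]
  simp only [h1]
  have hext : Ext (fun n : BSet B => ⨅ U, App (seqB nat F) n U ⇨ isOmega U X) :=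
    Ext.iInf fun U => (ext_App_a _ U).himp (ext_const _)
  rw [std_omega.iInf hext]
  refine iInf_congr fun n => ?_
  simp only [App_seqB_self std_omega]
  exact iInf_beq (ext_isOmega_left X) _

private theorem stI_choice (F G : ℕ → BSet B) :
    (⨅ n : BSet B, ⨅ U, ⨅ V, bmem n omega ⇨ App (seqB nat F) n U ⇨ App (seqB nat G) n V ⇨
      bmem V U) = ⨅ n, bmem (G n) (F n) := by
  have h1 : ∀ n : BSet B, (⨅ U, ⨅ V, bmem n omega ⇨ App (seqB nat F) n U ⇨
      App (seqB nat G) n V ⇨ bmem V U) =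
      bmem n omega ⇨ ⨅ U, App (seqB nat F) n U ⇨ ⨅ V, App (seqB nat G) n V ⇨ bmem V U := by
    intro n
    simp only [himp_iInf_eq]
  simp only [h1]
  have hext : Ext (fun n : BSet B => ⨅ U, App (seqB nat F) n U ⇨
      ⨅ V, App (seqB nat G) n V ⇨ bmem V U) :=
    Ext.iInf fun U => (ext_App_a _ U).himp (Ext.iInf fun V => (ext_App_a _ V).himp (ext_const _))
  rw [std_omega.iInf hext]
  refine iInf_congr fun n => ?_
  simp only [App_seqB_self std_omega]
  have h2 : ∀ U : BSet B, (⨅ V, beq V (G n) ⇨ bmem V U) = bmem (G n) U := fun U =>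
    iInf_beq (ext_bmem_left U) _
  simp only [h2]
  exact iInf_beq (ext_bmem_right (G n)) _

private theorem stI_range (G : ℕ → BSet B) (Γ : BSet B) :
    (⨅ V, iffB (bmem V Γ) (⨆ n, bmem n omega ⊓ App (seqB nat G) n V)) = beq Γ (ran G) := by
  rw [BSet.beq_ext]
  have h1 : ∀ V : BSet B, (⨆ n, bmem n omega ⊓ App (seqB nat G) n V) = bmem V (ran G) := by
    intro V
    rw [std_omega.iSup (ext_App_a (seqB nat G) V), stI_bmem_ran]
    exact iSup_congr fun n => App_seqB_self std_omega G n V
  simp only [h1]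
  rfl

theorem S1_eq (X : BSet B) : S1 omega (ratSet B) (ltB B) X = isS1 X := by
  unfold S1 isS1
  have hext : Ext (fun f : BSet B => (⨅ n, ⨅ U, bmem n omega ⇨ App f n U ⇨
      OmegaCover omega (ratSet B) (ltB B) U X) ⇨ (⨆ g, FunOn g omega ⊓
      ((⨅ n, ⨅ U, ⨅ V, bmem n omega ⇨ App f n U ⇨ App g n V ⇨ bmem V U) ⊓
      (⨅ G, (⨅ V, iffB (bmem V G) (⨆ n, bmem n omega ⊓ App g n V)) ⇨
        GammaCover omega (ratSet B) (ltB B) G X)))) := by
    refine Ext.himp ?_ ?_
    · exact Ext.iInf fun n => Ext.iInf fun U => (ext_const _).himp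
        ((ext_App_f n U).himp (ext_const _))
    · refine Ext.iSup fun g => (ext_const _).inf (Ext.inf ?_ (ext_const _))
      exact Ext.iInf fun n => Ext.iInf fun U => Ext.iInf fun V => (ext_const _).himp
        ((ext_App_f n U).himp (ext_const _))
  rw [iInf_FunOn std_omega hext]
  refine iInf_congr fun F => ?_
  rw [stI_premise]
  congr 1
  have hext2 : Ext (fun g : BSet B => (⨅ n, ⨅ U, ⨅ V, bmem n omega ⇨ App (seqB nat F) n U ⇨
      App g n V ⇨ bmem V U) ⊓
      (⨅ G, (⨅ V, iffB (bmem V G) (⨆ n, bmem n omega ⊓ App g n V)) ⇨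
        GammaCover omega (ratSet B) (ltB B) G X)) := by
    refine Ext.inf ?_ ?_
    · exact Ext.iInf fun n => Ext.iInf fun U => Ext.iInf fun V => (ext_const _).himp
        ((ext_const _).himp ((ext_App_f n V).himp (ext_const _)))
    · exact Ext.iInf fun G => (Ext.iInf fun V => (ext_const _).iffB
        (Ext.iSup fun n => (ext_const _).inf (ext_App_f n V))).himp (ext_const _)
  rw [iSup_FunOn std_omega hext2]
  refine iSup_congr fun G => ?_
  rw [stI_choice]
  congr 1
  simp only [stI_range, GammaCover_eq]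
  exact iInf_beq (ext_isGamma_left X) _

theorem Uncountable_eq (X : BSet B) : Uncountable omega X = isUnc X := by
  unfold Uncountable isUnc
  have hext : Ext (fun f : BSet B => ⨆ x, bmem x X ⊓ (⨅ n, bmem n omega ⇨ (App f n x)ᶜ)) :=
    Ext.iSup fun x => (ext_const _).inf (Ext.iInf fun n => (ext_const _).himp (ext_App_f n x).compl)
  rw [iInf_FunOn std_omega hext]
  refine iInf_congr fun F => iSup_congr fun x => ?_
  rw [std_omega.iInf (ext_App_a (seqB nat F) x).compl]
  congr 1
  refine iInf_congr fun n => ?_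
  rw [App_seqB_self std_omega]

theorem StatementI_eq : StatementI omega (ratSet B) (ltB B) = stI B := by
  unfold StatementI stI
  refine iSup_congr fun X => ?_
  rw [SetOfReals_eq, Uncountable_eq, S1_eq, inf_assoc]

end Kb

end Pool.Agent.Lib.MP_4d8715_gt.KR
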