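import Pool.Agent.Lib.MP_4d8715_gt.KR.Z.Fml

/-!
# The statement, read in a structure for the language of set theory

`M` is a nonempty type and `E : M → M → Prop` a binary relation, read as membership. All
definitions below only quantify over the elements of `M`. They express the usual notions when
`(M, E)` is a model of ZFC. Real numbers are Dedekind cuts of the ordered field of rational
numbers: a real number `x` is the set of all rational numbers `q < x`.
-/

namespace Pool.Agent.Lib.MP_4d8715_gt.KR

namespace Kr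

variable {M : Type*} (E : M → M → Prop)

/-! ### Basic notions -/

/-- `x ⊆ y` -/
def Sub (x y : M) : Prop := ∀ z, E z x → E z y

/-- `p = {a, b}` -/
def UPair (p a b : M) : Prop := ∀ z, E z p ↔ (z = a ∨ z = b)

/-- `p` is the ordered pair `(a, b) = {{a}, {a, b}}` -/
def Pair (p a b : M) : Prop := ∃ u v, UPair E u a a ∧ UPair E v a b ∧ UPair E p u v

/-- `(a, b) ∈ f` -/
def App (f a b : M) : Prop := ∃ p, Pair E p a b ∧ E p f

/-- `f` is a function with domain `d` -/
def FunOn (f d : M) : Prop :=
  (∀ p, E p f → ∃ a b, E a d ∧ Pair E p a b) ∧ ∀ a, E a d → ∃ b, ∀ c, App E f a c ↔ c = b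

/-- `f` is a function from `d` to `r` -/
def FunTo (f d r : M) : Prop := FunOn E f d ∧ ∀ a b, App E f a b → E b r

/-- `x` is the empty set -/
def Emp (x : M) : Prop := ∀ z, ¬ E z x

/-- `y = x ∪ {x}` -/
def Suc (y x : M) : Prop := ∀ z, E z y ↔ (E z x ∨ z = x)

/-- `w` contains the empty set and is closed under `x ↦ x ∪ {x}` -/
def Ind (w : M) : Prop := (∀ o, Emp E o → E o w) ∧ ∀ x y, E x w → Suc E y x → E y w

/-- `w` is the set of the natural numbers, the least inductive set -/
def Omega (w : M) : Prop := Ind E w ∧ ∀ w', Ind E w' → Sub E w w'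

/-- the set `A` is finite: the image of a function whose domain is a natural number
(`w` is the set of the natural numbers) -/
def Finite (w A : M) : Prop :=
  ∃ n, E n w ∧ ∃ f, FunOn E f n ∧ ∀ z, E z A ↔ ∃ i, E i n ∧ App E f i z

/-! ### The ordered field of rational numbers -/

/-- `((a, b), c) ∈ f` -/
def App2 (f a b c : M) : Prop := ∃ p, Pair E p a b ∧ App E f p c

/-- `f` is a binary operation on `Q` -/
def BinOp (Q f : M) : Prop :=
  ∀ a b, E a Q → E b Q → ∃ c, E c Q ∧ ∀ d, App2 E f a b d ↔ d = c

/-- `o` is neutral for the operation `f` on `Q` -/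
def Neutral (Q f o : M) : Prop := E o Q ∧ ∀ a, E a Q → App2 E f a o a

/-- the operation `f` on `Q` is associative and commutative -/
def AssocComm (Q f : M) : Prop :=
  (∀ a b c, E a Q → E b Q → E c Q → ∀ d e g, App2 E f a b d → App2 E f b c e →
    App2 E f d c g → App2 E f a e g) ∧
  ∀ a b c, E a Q → E b Q → App2 E f a b c → App2 E f b a c

/-- `(Q, add, mul, lt)` is an ordered field with zero `o` and one `i` -/
def OrdField (Q add mul lt o i : M) : Prop :=
  BinOp E Q add ∧ BinOp E Q mul ∧ AssocComm E Q add ∧ AssocComm E Q mul ∧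
  Neutral E Q add o ∧ Neutral E Q mul i ∧ o ≠ i ∧
  (∀ a, E a Q → ∃ b, E b Q ∧ App2 E add a b o) ∧
  (∀ a, E a Q → a ≠ o → ∃ b, E b Q ∧ App2 E mul a b i) ∧
  (∀ a b c, E a Q → E b Q → E c Q → ∀ d e g h, App2 E add b c d → App2 E mul a d e →
    App2 E mul a b g → App2 E mul a c h → App2 E add g h e) ∧
  (∀ a, E a Q → ¬ App E lt a a) ∧
  (∀ a b c, E a Q → E b Q → E c Q → App E lt a b → App E lt b c → App E lt a c) ∧
  (∀ a b, E a Q → E b Q → App E lt a b ∨ a = b ∨ App E lt b a) ∧
  (∀ a b c, E a Q → E b Q → E c Q → App E lt a b → ∀ d e, App2 E add a c d → App2 E add b c e →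
    App E lt d e) ∧
  ∀ a b, E a Q → E b Q → App E lt o a → App E lt o b → ∀ c, App2 E mul a b c → App E lt o c

/-- `K` is a subfield of the field `(Q, add, mul)` with zero `o` and one `i` -/
def Subfield (Q add mul o i K : M) : Prop :=
  Sub E K Q ∧ E o K ∧ E i K ∧
  (∀ a b c, E a K → E b K → App2 E add a b c → E c K) ∧
  (∀ a b, E a K → E b Q → App2 E add a b o → E b K) ∧
  (∀ a b c, E a K → E b K → App2 E mul a b c → E c K) ∧
  ∀ a b, E a K → E b Q → App2 E mul a b i → E b K

/-- `(Q, add, mul, lt)` is the ordered field of the rational numbers (an ordered field without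
proper subfields), with zero `o` and one `i` -/
def Rationals (Q add mul lt o i : M) : Prop :=
  OrdField E Q add mul lt o i ∧ ∀ K, Subfield E Q add mul o i K → Sub E Q K

/-! ### Real numbers and the topology of sets of real numbers -/

/-- `x` is a real number: a nonempty proper initial segment of `Q` without a greatest element -/
def Real (Q lt x : M) : Prop :=
  Sub E x Q ∧ (∃ q, E q x) ∧ (∃ q, E q Q ∧ ¬ E q x) ∧
  (∀ q r, E q x → E r Q → App E lt r q → E r x) ∧ ∀ q, E q x → ∃ r, E r x ∧ App E lt q r

/-- `X` is a set of real numbers -/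
def SetOfReals (Q lt X : M) : Prop := ∀ x, E x X → Real E Q lt x

/-- the real number `x` is less than the rational number `b` -/
def LtRat (Q lt x b : M) : Prop := ∃ c, E c Q ∧ App E lt c b ∧ ¬ E c x

/-- `a < x < b` for the real number `x` and the rational numbers `a`, `b` -/
def InI (Q lt x a b : M) : Prop := E a x ∧ LtRat E Q lt x b

/-- `V` is a relatively open subset of the set `X` of real numbers -/
def OpenIn (Q lt V X : M) : Prop :=
  Sub E V X ∧ ∀ x, E x V → ∃ a b, E a Q ∧ E b Q ∧ InI E Q lt x a b ∧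
    ∀ y, E y X → InI E Q lt y a b → E y V

/-- `U` is a cover of `X` by relatively open subsets of `X` which does not contain `X` -/
def Cover (Q lt U X : M) : Prop :=
  (∀ V, E V U → OpenIn E Q lt V X) ∧ (∀ x, E x X → ∃ V, E V U ∧ E x V) ∧ ¬ E X U

/-- `U` is an open `ω`-cover of `X` -/
def OmegaCover (w Q lt U X : M) : Prop :=
  Cover E Q lt U X ∧ ∀ F, Sub E F X → Finite E w F → ∃ V, E V U ∧ Sub E F V

/-- `U` is an open `γ`-cover of `X` -/
def GammaCover (w Q lt U X : M) : Prop :=
  Cover E Q lt U X ∧ ¬ Finite E w U ∧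
  ∀ x, E x X → ∀ A, (∀ V, E V A ↔ E V U ∧ ¬ E x V) → Finite E w A

/-- `X` satisfies `S₁(Ω, Γ)`: for every sequence `f` of open `ω`-covers of `X` there is a sequence
`g` with `g n ∈ f n` for all `n` such that the set `G` of its members is an open `γ`-cover -/
def S1 (w Q lt X : M) : Prop :=
  ∀ f, FunOn E f w → (∀ n U, E n w → App E f n U → OmegaCover E w Q lt U X) →
    ∃ g, FunOn E g w ∧ (∀ n U V, E n w → App E f n U → App E g n V → E V U) ∧
      ∀ G, (∀ V, E V G ↔ ∃ n, E n w ∧ App E g n V) → GammaCover E w Q lt G X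

/-- `X` is uncountable: no function with domain `w` takes all elements of `X` as values -/
def Uncountable (w X : M) : Prop := ∀ f, FunOn E f w → ∃ x, E x X ∧ ∀ n, E n w → ¬ App E f n x

/-! ### Hausdorff dimension zero -/

/-- `t = r ^ j` for `r` in `Q` and the natural number `j` -/
def Pow (w Q mul i r j t : M) : Prop :=
  ∃ h, FunTo E h w Q ∧ (∀ z, Emp E z → App E h z i) ∧
    (∀ n m q q', E n w → Suc E m n → App E h n q → App E h m q' → App2 E mul q r q') ∧ App E h j t

/-- `e` is a sequence of positive rational numbers all of whose partial sums `s n` are less than `ε` -/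
def SumLt (w Q add lt o ε e s : M) : Prop :=
  FunTo E e w Q ∧ FunTo E s w Q ∧ (∀ n r, E n w → App E e n r → App E lt o r) ∧
  (∀ z, Emp E z → App E s z o) ∧
  (∀ n m q r q', E n w → Suc E m n → App E s n q → App E e n r → App E s m q' →
    App2 E add q r q') ∧
  ∀ n q, E n w → App E s n q → App E lt q ε

/-- the real number `x` belongs to the interval `(q, q + r ^ j]` -/
def InJ (w Q add mul i x q r j : M) : Prop :=
  ∃ t b, E t Q ∧ E b Q ∧ Pow E w Q mul i r j t ∧ App2 E add q t b ∧ E q x ∧ ¬ E b x

/-- there are rational `a n` and `e n > 0` (`n` a natural number) with all partial sums of the `e n`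
less than `ε` such that the intervals `(a n, a n + (e n) ^ j]` cover `Y` -/
def Null1 (w Q add mul lt o i j ε Y : M) : Prop :=
  ∃ e s a, SumLt E w Q add lt o ε e s ∧ FunTo E a w Q ∧
    ∀ y, E y Y → ∃ n q r, E n w ∧ App E a n q ∧ App E e n r ∧ InJ E w Q add mul i y q r j

/-- there are rational `a n`, `b n` and `e n > 0` with all partial sums of the `e n` less than `ε` such
that the squares `(a n, a n + (e n) ^ j] × (b n, b n + (e n) ^ j]` cover `X × Y` -/
def Null2 (w Q add mul lt o i j ε X Y : M) : Prop :=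
  ∃ e s a b, SumLt E w Q add lt o ε e s ∧ FunTo E a w Q ∧ FunTo E b w Q ∧
    ∀ x y, E x X → E y Y → ∃ n q q' r, E n w ∧ App E a n q ∧ App E b n q' ∧ App E e n r ∧
      InJ E w Q add mul i x q r j ∧ InJ E w Q add mul i y q' r j

/-- the Hausdorff dimension of `Y` is zero: for all natural numbers `j > 0` the Hausdorff measure of
dimension `1 / j` of `Y` is zero -/
def Dim1 (w Q add mul lt o i Y : M) : Prop :=
  ∀ j ε, E j w → ¬ Emp E j → E ε Q → App E lt o ε → Null1 E w Q add mul lt o i j ε Y

/-- the Hausdorff dimension of `X × Y` is zero: for all natural numbers `j > 0` the Hausdorff measure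
of dimension `1 / j` of `X × Y` is zero -/
def Dim2 (w Q add mul lt o i X Y : M) : Prop :=
  ∀ j ε, E j w → ¬ Emp E j → E ε Q → App E lt o ε → Null2 E w Q add mul lt o i j ε X Y

/-! ### The two statements -/

/-- (i) there is an uncountable set of reals which satisfies `S₁(Ω, Γ)` -/
def StatementI (w Q lt : M) : Prop :=
  ∃ X, SetOfReals E Q lt X ∧ Uncountable E w X ∧ S1 E w Q lt X

/-- (ii) for all sets `X`, `Y` of reals, if `X` satisfies `S₁(Ω, Γ)` and `Y` has Hausdorff dimension
zero then `X × Y` has Hausdorff dimension zero -/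
def StatementII (w Q add mul lt o i : M) : Prop :=
  ∀ X Y, SetOfReals E Q lt X → SetOfReals E Q lt Y → S1 E w Q lt X →
    Dim1 E w Q add mul lt o i Y → Dim2 E w Q add mul lt o i X Y

/-- (i) and (ii) hold -/
def Krawczyk : Prop :=
  ∃ w Q add mul lt o i, Omega E w ∧ Rationals E Q add mul lt o i ∧
    StatementI E w Q lt ∧ StatementII E w Q add mul lt o i

end Kr

end Pool.Agent.Lib.MP_4d8715_gt.KR
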