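import Pool.Agent.Lib.MP_4d8715_gt.KR.E.Seq

/-!
# Real numbers, open sets, finite sets (module E-TOP)
-/

universe u

namespace Pool.Agent.Lib.MP_4d8715_gt.KR

namespace BSet

/-- the order of the rational numbers -/
def ltB (B : Type u) [CompleteBooleanAlgebra B] : BSet B :=
  mk (ULift {p : ℚ × ℚ // p.1 < p.2}) (fun p => opair (rat p.down.1.1) (rat p.down.1.2)) (fun _ => ⊤)

end BSet

namespace Kb

open BSet

variable {B : Type u} [CompleteBooleanAlgebra B]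

private theorem top_tv_pos {P : Prop} (h : P) : tv B P = ⊤ := by
  simp [tv, h]

private theorem top_tv_neg {P : Prop} (h : ¬ P) : tv B P = ⊥ := by
  simp [tv, h]

private theorem top_tv_himp (P : Prop) (b : B) : (tv B P ⇨ b) = ⨅ _ : P, b := by
  by_cases h : P
  · rw [top_tv_pos h, top_himp]
    simp [h]
  · rw [top_tv_neg h, bot_himp]
    simp [h]

private theorem top_tv_inf (P : Prop) (b : B) : tv B P ⊓ b = ⨆ _ : P, b := by
  by_cases h : P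
  · rw [top_tv_pos h, top_inf_eq]
    simp [h]
  · rw [top_tv_neg h, bot_inf_eq]
    simp [h]

private theorem top_sup {x : BSet B} {ψ : BSet B → B} (hψ : Ext ψ) :
    bsub x (ratSet B) ⊓ (⨆ z, bmem z x ⊓ ψ z) =
      bsub x (ratSet B) ⊓ ⨆ p, cut x p ⊓ ψ (rat p) := by
  apply le_antisymm
  · refine le_inf inf_le_left ?_
    rw [inf_iSup_eq]
    refine iSup_le fun z => ?_
    have h1 : bsub x (ratSet B) ⊓ bmem z x ≤ bmem z (ratSet B) :=
      le_himp_iff.1 (iInf_le (fun z => bmem z x ⇨ bmem z (ratSet B)) z)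
    calc bsub x (ratSet B) ⊓ (bmem z x ⊓ ψ z)
        ≤ bmem z (ratSet B) ⊓ (bmem z x ⊓ ψ z) :=
          le_inf ((le_inf inf_le_left (inf_le_right.trans inf_le_left)).trans h1) inf_le_right
      _ = ⨆ p, beq z (rat p) ⊓ (bmem z x ⊓ ψ z) := by rw [std_ratSet.mem, iSup_inf_eq]
      _ ≤ ⨆ p, cut x p ⊓ ψ (rat p) := iSup_mono fun p => le_inf
          ((le_inf inf_le_left (inf_le_right.trans inf_le_left)).trans
            (bmem_congr_left z (rat p) x))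
          ((le_inf inf_le_left (inf_le_right.trans inf_le_right)).trans (hψ _ _))
  · exact inf_le_inf_left _ (iSup_le fun p => le_iSup (fun z => bmem z x ⊓ ψ z) (rat p))

private theorem top_inf {x : BSet B} {ψ : BSet B → B} (hψ : Ext ψ) :
    bsub x (ratSet B) ⊓ (⨅ z, bmem z x ⇨ ψ z) =
      bsub x (ratSet B) ⊓ ⨅ p, cut x p ⇨ ψ (rat p) := by
  apply le_antisymm
  · exact inf_le_inf_left _ (le_iInf fun p => iInf_le (fun z => bmem z x ⇨ ψ z) (rat p))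
  · refine le_inf inf_le_left (le_iInf fun z => le_himp_iff.2 ?_)
    have h1 : bsub x (ratSet B) ⊓ bmem z x ≤ bmem z (ratSet B) :=
      le_himp_iff.1 (iInf_le (fun z => bmem z x ⇨ bmem z (ratSet B)) z)
    calc bsub x (ratSet B) ⊓ (⨅ p, cut x p ⇨ ψ (rat p)) ⊓ bmem z x
        ≤ bmem z (ratSet B) ⊓ (bmem z x ⊓ ⨅ p, cut x p ⇨ ψ (rat p)) :=
          le_inf ((le_inf (inf_le_left.trans inf_le_left) inf_le_right).trans h1)
            (le_inf inf_le_right (inf_le_left.trans inf_le_right))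
      _ = ⨆ q, beq z (rat q) ⊓ (bmem z x ⊓ ⨅ p, cut x p ⇨ ψ (rat p)) := by
          rw [std_ratSet.mem, iSup_inf_eq]
      _ ≤ ψ z := iSup_le fun q => ?_
    have h2 : beq z (rat q) ⊓ (bmem z x ⊓ ⨅ p, cut x p ⇨ ψ (rat p)) ≤ cut x q :=
      (le_inf inf_le_left (inf_le_right.trans inf_le_left)).trans (bmem_congr_left z (rat q) x)
    have h3 : beq z (rat q) ⊓ (bmem z x ⊓ ⨅ p, cut x p ⇨ ψ (rat p)) ≤ cut x q ⇨ ψ (rat q) :=
      (inf_le_right.trans inf_le_right).trans (iInf_le (fun p => cut x p ⇨ ψ (rat p)) q)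
    have h4 : beq z (rat q) ⊓ (bmem z x ⊓ ⨅ p, cut x p ⇨ ψ (rat p)) ≤ ψ (rat q) :=
      (le_inf h3 h2).trans himp_inf_le
    exact (le_inf (inf_le_left.trans (beq_symm z (rat q)).le) h4).trans (hψ _ _)

private theorem top_congr {ι : Sort*} {S : B} {a b b' : ι → B} (h : ∀ i, S ⊓ b i = S ⊓ b' i) :
    S ⊓ (⨅ i, a i ⇨ b i) = S ⊓ ⨅ i, a i ⇨ b' i := by
  have key : ∀ b b' : ι → B, (∀ i, S ⊓ b i = S ⊓ b' i) →
      S ⊓ (⨅ i, a i ⇨ b i) ≤ S ⊓ ⨅ i, a i ⇨ b' i := by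
    intro b b' h
    refine le_inf inf_le_left (le_iInf fun i => le_himp_iff.2 ?_)
    have h1 : S ⊓ (⨅ i, a i ⇨ b i) ⊓ a i ≤ S ⊓ b i :=
      le_inf (inf_le_left.trans inf_le_left)
        ((inf_le_inf_right _ (inf_le_right.trans (iInf_le (fun i => a i ⇨ b i) i))).trans
          himp_inf_le)
    rw [h i] at h1
    exact h1.trans inf_le_right
  exact le_antisymm (key b b' h) (key b' b fun i => (h i).symm)

private theorem top_five {S X₁ X₂ X₃ X₄ Y₁ Y₂ Y₃ Y₄ : B} (h1 : S ⊓ X₁ = S ⊓ Y₁) (h2 : X₂ = Y₂)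
    (h3 : S ⊓ X₃ = S ⊓ Y₃) (h4 : S ⊓ X₄ = S ⊓ Y₄) :
    S ⊓ (X₁ ⊓ (X₂ ⊓ (X₃ ⊓ X₄))) = S ⊓ Y₁ ⊓ Y₂ ⊓ Y₃ ⊓ Y₄ := by
  calc S ⊓ (X₁ ⊓ (X₂ ⊓ (X₃ ⊓ X₄))) = (S ⊓ S ⊓ S) ⊓ (X₁ ⊓ (X₂ ⊓ (X₃ ⊓ X₄))) := by
        rw [inf_idem, inf_idem]
    _ = (S ⊓ X₁) ⊓ X₂ ⊓ (S ⊓ X₃) ⊓ (S ⊓ X₄) := by ac_rfl
    _ = (S ⊓ Y₁) ⊓ Y₂ ⊓ (S ⊓ Y₃) ⊓ (S ⊓ Y₄) := by rw [h1, h2, h3, h4]
    _ = (S ⊓ S ⊓ S) ⊓ (Y₁ ⊓ Y₂ ⊓ Y₃ ⊓ Y₄) := by ac_rfl
    _ = S ⊓ (Y₁ ⊓ Y₂ ⊓ Y₃ ⊓ Y₄) := by rw [inf_idem, inf_idem]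
    _ = S ⊓ Y₁ ⊓ Y₂ ⊓ Y₃ ⊓ Y₄ := by ac_rfl

theorem App_ltB (x y : BSet B) :
    App (ltB B) x y = ⨆ p : {p : ℚ × ℚ // p.1 < p.2}, beq x (rat p.1.1) ⊓ beq y (rat p.1.2) := by
  rw [App_eq, bmem_def]
  change (⨆ i : ULift {p : ℚ × ℚ // p.1 < p.2},
    ⊤ ⊓ beq (opair x y) (opair (rat i.down.1.1) (rat i.down.1.2))) = _
  rw [iSup_ulift]
  simp only [top_inf_eq, beq_opair]

theorem App_ltB_rat (q r : ℚ) : App (ltB B) (rat q) (rat r) = tv B (q < r) := by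
  rw [App_ltB]
  apply le_antisymm
  · refine iSup_le fun p => ?_
    rw [n_beq_rat, n_beq_rat]
    by_cases h1 : q = p.1.1
    · by_cases h2 : r = p.1.2
      · have h3 : q < r := by
          rw [h1, h2]
          exact p.2
        rw [top_tv_pos h3]
        exact le_top
      · rw [top_tv_neg h2, inf_bot_eq]
        exact bot_le
    · rw [top_tv_neg h1, bot_inf_eq]
      exact bot_le
  · refine iSup_le fun h => le_iSup_of_le ⟨(q, r), h⟩ ?_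
    simp only [beq_refl, inf_idem, le_refl]

theorem Real_eq (x : BSet B) : Real (ratSet B) (ltB B) x = isReal x := by
  have h1 : bsub x (ratSet B) ⊓ (⨆ q, bmem q x) = bsub x (ratSet B) ⊓ ⨆ q, cut x q := by
    have h := top_sup (x := x) (ext_const (⊤ : B))
    simpa only [inf_top_eq] using h
  have h2 : (⨆ q, bmem q (ratSet B) ⊓ (bmem q x)ᶜ) = ⨆ q, (cut x q)ᶜ :=
    std_ratSet.iSup (ext_bmem_left x).compl
  have h3 : bsub x (ratSet B) ⊓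
      (⨅ q, ⨅ r, bmem q x ⇨ bmem r (ratSet B) ⇨ App (ltB B) r q ⇨ bmem r x) =
      bsub x (ratSet B) ⊓ ⨅ q, ⨅ r, ⨅ (_ : r < q), cut x q ⇨ cut x r := by
    have e1 : (⨅ q, ⨅ r, bmem q x ⇨ bmem r (ratSet B) ⇨ App (ltB B) r q ⇨ bmem r x) =
        ⨅ q, bmem q x ⇨ ⨅ r, bmem r (ratSet B) ⇨ App (ltB B) r q ⇨ bmem r x := by
      simp only [himp_iInf_eq]
    rw [e1, top_inf (Ext.iInf fun r => (ext_const _).himp ((ext_App_b _ _).himp (ext_const _)))]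
    congr 1
    refine iInf_congr fun p => ?_
    rw [std_ratSet.iInf ((ext_App_a _ _).himp (ext_bmem_left x)), himp_iInf_eq]
    refine iInf_congr fun s => ?_
    rw [App_ltB_rat, top_tv_himp, himp_iInf_eq]
    rfl
  have h4 : bsub x (ratSet B) ⊓ (⨅ q, bmem q x ⇨ (⨆ r, bmem r x ⊓ App (ltB B) q r)) =
      bsub x (ratSet B) ⊓ ⨅ q, cut x q ⇨ ⨆ r, ⨆ (_ : q < r), cut x r := by
    rw [top_inf (Ext.iSup fun r => (ext_const _).inf (ext_App_a _ _))]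
    refine top_congr fun p => ?_
    rw [top_sup (ext_App_b _ _)]
    congr 1
    refine iSup_congr fun s => ?_
    rw [App_ltB_rat, inf_comm, top_tv_inf]
  exact top_five h1 h2 h3 h4

theorem SetOfReals_eq (X : BSet B) : SetOfReals (ratSet B) (ltB B) X = setR X := by
  simp only [SetOfReals, setR, Real_eq]

theorem LtRat_eq (x : BSet B) (b : ℚ) : LtRat (ratSet B) (ltB B) x (rat b) = ltRat x b := by
  rw [LtRat, std_ratSet.iSup ((ext_App_a _ _).inf (ext_bmem_left x).compl)]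
  refine iSup_congr fun s => ?_
  rw [App_ltB_rat, top_tv_inf]
  rfl

theorem InI_eq (x : BSet B) (a b : ℚ) : InI (ratSet B) (ltB B) x (rat a) (rat b) = inI x a b := by
  rw [InI, LtRat_eq]
  rfl

theorem OpenIn_eq (V X : BSet B) : OpenIn (ratSet B) (ltB B) V X = isOpenIn V X := by
  rw [OpenIn, isOpenIn, Sub_eq]
  congr 1
  refine iInf_congr fun x => ?_
  congr 1
  have e1 : (⨆ a, ⨆ b, bmem a (ratSet B) ⊓ (bmem b (ratSet B) ⊓ (InI (ratSet B) (ltB B) x a b ⊓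
      (⨅ y, bmem y X ⇨ InI (ratSet B) (ltB B) y a b ⇨ bmem y V)))) =
      ⨆ a, bmem a (ratSet B) ⊓ (⨆ b, bmem b (ratSet B) ⊓ (InI (ratSet B) (ltB B) x a b ⊓
      (⨅ y, bmem y X ⇨ InI (ratSet B) (ltB B) y a b ⇨ bmem y V))) := by
    simp only [inf_iSup_eq]
  rw [e1, std_ratSet.iSup (Ext.iSup fun b => (ext_const _).inf ((ext_InI_a _ _ _ _).inf
    (Ext.iInf fun y => (ext_const _).himp ((ext_InI_a _ _ _ _).himp (ext_const _)))))]
  refine iSup_congr fun a => ?_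
  rw [std_ratSet.iSup ((ext_InI_b _ _ _ _).inf
    (Ext.iInf fun y => (ext_const _).himp ((ext_InI_b _ _ _ _).himp (ext_const _))))]
  refine iSup_congr fun b => ?_
  rw [InI_eq]
  congr 1
  refine iInf_congr fun y => ?_
  rw [InI_eq, himp_himp]

end Kb

end Pool.Agent.Lib.MP_4d8715_gt.KR
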